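import Mathlib

/-! The finite blocks: a martingale on a four-ary tree and a rank one model on each branch. -/

namespace Pool.Agent.MP_e7ec4f_an

open Finset

/-- The parameters of the construction. -/
structure Par (ψ : ℝ → ℝ) where
  s : ℝ
  B : ℝ
  C : ℝ
  c : ℕ → ℝ
  d : ℕ → ℕ
  s0 : 3 / 4 ≤ s
  s1 : s < 1
  B2 : 2 ≤ B
  C0 : 0 < C
  c0 : ∀ i, 0 < c i
  c1 : ∀ i, c i ≤ 1
  anti : Antitone c
  mono : StrictMono d
  cd : ∀ i, c i * 2 ^ d i = B ^ i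
  cs : ∀ i, (c i * s⁻¹ ^ d i) ^ 2 ≤ (1 / 2) ^ i
  up : ∀ a ∈ Set.Ioc (0 : ℝ) 1, ∀ i i', a / 4 * c i < c i' → B ^ i' ≤ C * ψ a * B ^ i
  low : ∀ a ∈ Set.Ioc (0 : ℝ) 1, ∃ K, a ≤ c K ∧ ψ a ≤ C * B ^ K

theorem sum_div4 (g : ℕ → ℝ) (n k : ℕ) :
    ∑ l ∈ range (n * 4 ^ k), g (l / 4 ^ k) = 4 ^ k * ∑ m ∈ range n, g m := by
  induction n with
  | zero => simp
  | succ n ih =>
    rw [add_mul, one_mul, sum_range_add, ih, sum_range_succ, mul_add]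
    congr 1
    rw [sum_congr rfl fun l hl => show g ((n * 4 ^ k + l) / 4 ^ k) = g n by
      rw [mul_comm, Nat.mul_add_div (by positivity), Nat.div_eq_of_lt (mem_range.1 hl), add_zero]]
    simp

theorem sum_leaf (g : ℕ → ℝ) {e D : ℕ} (h : e ≤ D) :
    ∑ l ∈ range (4 ^ D), 4 ^ e * g (l / 4 ^ (D - e)) = 4 ^ D * ∑ m ∈ range (4 ^ e), g m := by
  obtain ⟨k, rfl⟩ := Nat.exists_eq_add_of_le h
  rw [← mul_sum, Nat.add_sub_cancel_left, pow_add, sum_div4, pow_add, mul_assoc]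

theorem div_step (l : ℕ) {e D : ℕ} (h : e < D) : l / 4 ^ (D - (e + 1)) / 4 = l / 4 ^ (D - e) := by
  rw [Nat.div_div_eq_div_mul, ← pow_succ]
  congr 2
  omega

theorem geo_half (n : ℕ) : ∑ i ∈ range n, (1 / 2 : ℝ) ^ i ≤ 2 := sum_geometric_two_le n

theorem geo_sq {B Z : ℝ} (hB : 2 ≤ B) (J : Finset ℕ) (h : ∀ i ∈ J, B ^ i ≤ Z) :
    ∑ i ∈ J, (B ^ i) ^ 2 ≤ 2 * Z ^ 2 := by
  have h1 : ∀ n, ∑ i ∈ range (n + 1), (B ^ i) ^ 2 ≤ 2 * (B ^ n) ^ 2 := fun n => by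
    induction n with
    | zero => simp
    | succ n ih =>
      rw [sum_range_succ, pow_succ B n, mul_pow]
      nlinarith [sq_nonneg (B ^ n), mul_le_mul_of_nonneg_left (show 2 ≤ B ^ 2 by nlinarith)
        (sq_nonneg (B ^ n))]
  rcases J.eq_empty_or_nonempty with rfl | hJ
  · simp only [sum_empty]; positivity
  refine (sum_le_sum_of_subset_of_nonneg (t := range (J.max' hJ + 1))
    (fun i hi => mem_range.2 (Nat.lt_succ_of_le (J.le_max' i hi))) fun _ _ _ => sq_nonneg _).trans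
    ((h1 _).trans ?_)
  have := pow_le_pow_left₀ (by positivity) (h _ (J.max'_mem hJ)) 2
  linarith

variable {𝕂 : Type} [RCLike 𝕂] {ψ : ℝ → ℝ} (P : Par ψ)

theorem Par.sq (i : ℕ) : (4 : ℝ) ^ P.d i * P.c i ^ 2 = (P.B ^ i) ^ 2 := by
  rw [← P.cd, mul_pow, mul_comm, ← pow_mul, mul_comm (P.d i), pow_mul]
  norm_num

/-- the rank one model -/
theorem Par.one {a : ℝ} (ha : a ∈ Set.Ioc (0 : ℝ) 1) (h1 : 1 ≤ ψ a) (K : ℕ) (t : 𝕂) (r : ℕ → 𝕂)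
    (hv : ∀ i ≤ K, ‖r i + (P.c i : 𝕂) * t‖ ≤ 1) (J : Finset ℕ) (hJ : J ⊆ range (K + 1))
    (hA : ∀ i ∈ J, a ≤ ‖r i + (P.c i : 𝕂) * t‖) :
    ∑ i ∈ J, 4 ^ P.d i * ‖r i + (P.c i : 𝕂) * t‖ ^ 2 ≤ (4 + 16 * P.C ^ 2 * P.B ^ 2) * ψ a ^ 2 *
      (‖t‖ ^ 2 + ∑ i ∈ range (K + 1), 4 ^ P.d i * ‖r i‖ ^ 2) := by
  classical
  set R := ∑ i ∈ range (K + 1), 4 ^ P.d i * ‖r i‖ ^ 2 with hR
  have hR0 : 0 ≤ R := by positivity
  have hn : ∀ i, ‖(P.c i : 𝕂) * t‖ = P.c i * ‖t‖ := fun i => by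
    rw [norm_mul, RCLike.norm_ofReal, abs_of_pos (P.c0 i)]
  have hl : ∀ i, P.c i * ‖t‖ ≤ ‖r i + (P.c i : 𝕂) * t‖ + ‖r i‖ := fun i => by
    rw [← hn]; simpa using norm_sub_le (r i + (P.c i : 𝕂) * t) (r i)
  set M := J.filter fun i => a / 2 < P.c i * ‖t‖ ∧ P.c i * ‖t‖ < 2 with hM
  have h2 : ∑ i ∈ J, 4 ^ P.d i * ‖r i + (P.c i : 𝕂) * t‖ ^ 2 ≤
      4 * R + 2 * ‖t‖ ^ 2 * ∑ i ∈ M, (P.B ^ i) ^ 2 := by
    refine le_trans ?_ (add_le_add_left (mul_le_mul_of_nonneg_left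
      (sum_le_sum_of_subset_of_nonneg hJ fun _ _ _ => by positivity) (by norm_num)) _)
    rw [hM, sum_filter, mul_sum, mul_sum, ← sum_add_distrib]
    refine sum_le_sum fun i hi => ?_
    have h3 := norm_add_le (r i) ((P.c i : 𝕂) * t)
    have h4 := hv i (Nat.lt_succ_iff.1 (mem_range.1 (hJ hi)))
    have h5 := hA i hi
    have h6 := hl i
    have h7 := norm_nonneg (r i + (P.c i : 𝕂) * t)
    have h8 := norm_nonneg (r i)
    have h9 : (0 : ℝ) < 4 ^ P.d i := by positivity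
    rw [hn] at h3
    split_ifs with h
    · rw [← P.sq]
      have : ‖r i + (P.c i : 𝕂) * t‖ ^ 2 ≤ 4 * ‖r i‖ ^ 2 + 2 * ‖t‖ ^ 2 * P.c i ^ 2 := by
        nlinarith [sq_nonneg (‖r i‖ - P.c i * ‖t‖), pow_le_pow_left₀ h7 h3 2]
      nlinarith
    · have : ‖r i + (P.c i : 𝕂) * t‖ ≤ 2 * ‖r i‖ := by
        rcases not_and_or.1 h with h | h <;> linarith [not_lt.1 h]
      nlinarith [pow_le_pow_left₀ h7 this 2]
  have hC := P.C0
  have hB := P.B2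
  have h3 : ‖t‖ ^ 2 * ∑ i ∈ M, (P.B ^ i) ^ 2 ≤
      8 * P.C ^ 2 * P.B ^ 2 * ψ a ^ 2 * (‖t‖ ^ 2 + R) := by
    rcases M.eq_empty_or_nonempty with h | ⟨i₁, hi₁⟩
    · rw [h, sum_empty, mul_zero]; positivity
    have hex : ∃ i, P.c i * ‖t‖ < 2 := ⟨i₁, (mem_filter.1 hi₁).2.2⟩
    have h4 := geo_sq hB M (Z := P.C * ψ a * P.B ^ Nat.find hex) fun i hi =>
      P.up a ha _ _ (lt_of_mul_lt_mul_right (a := ‖t‖) (by
        nlinarith [(mem_filter.1 hi).2.1, Nat.find_spec hex, ha.1]) (norm_nonneg t))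
    have h5 : ‖t‖ ^ 2 * (P.B ^ Nat.find hex) ^ 2 ≤ 4 * P.B ^ 2 * (‖t‖ ^ 2 + R) := by
      rcases hk : Nat.find hex with _ | k
      · nlinarith [sq_nonneg ‖t‖, mul_nonneg (add_nonneg (sq_nonneg ‖t‖) hR0)
          (show 0 ≤ 4 * P.B ^ 2 - 1 by nlinarith)]
      · have h6 := not_lt.1 (Nat.find_min hex (show k < Nat.find hex by omega))
        have h7 : k ≤ K := by
          have := Nat.find_min' hex (mem_filter.1 hi₁).2.2
          have := mem_range.1 (hJ (mem_filter.1 hi₁).1)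
          omega
        have h8 : P.c k * ‖t‖ ≤ 2 * ‖r k‖ := by linarith [hl k, hv k h7]
        have h9 : 4 ^ P.d k * ‖r k‖ ^ 2 ≤ R := single_le_sum
          (f := fun i => (4 : ℝ) ^ P.d i * ‖r i‖ ^ 2) (fun _ _ => by positivity)
          (mem_range.2 (Nat.lt_succ_of_le h7))
        have h10 := mul_le_mul_of_nonneg_left (pow_le_pow_left₀ (by linarith) h8 2)
          (show (0 : ℝ) ≤ 4 ^ P.d k by positivity)
        have h11 : ‖t‖ ^ 2 * (P.B ^ k) ^ 2 ≤ 4 * (‖t‖ ^ 2 + R) := by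
          rw [← P.sq]; nlinarith [sq_nonneg ‖t‖]
        rw [pow_succ P.B k, mul_pow]
        nlinarith [mul_le_mul_of_nonneg_left h11 (sq_nonneg P.B)]
    have h6 := mul_le_mul_of_nonneg_left h4 (sq_nonneg ‖t‖)
    have h7 := mul_le_mul_of_nonneg_left h5 (show 0 ≤ 2 * P.C ^ 2 * ψ a ^ 2 by positivity)
    nlinarith
  have h4 : R ≤ ψ a ^ 2 * (‖t‖ ^ 2 + R) := by
    nlinarith [sq_nonneg ‖t‖, mul_nonneg (add_nonneg (sq_nonneg ‖t‖) hR0)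
      (show 0 ≤ ψ a ^ 2 - 1 by nlinarith)]
  nlinarith

/-- the martingale on the tree -/
noncomputable def tau (s : ℝ) (δ : ℕ → ℕ → 𝕂) : ℕ → ℕ → 𝕂
  | 0, m => δ 0 m
  | e + 1, m => tau s δ e (m / 4) + ((s⁻¹ ^ (e + 1) : ℝ) : 𝕂) * δ (e + 1) m

/-- the coefficients of a representative -/
noncomputable def Par.phi (δ r : ℕ → ℕ → 𝕂) (i m : ℕ) : 𝕂 :=
  r i m + (P.c i : 𝕂) * tau P.s δ (P.d i) m

/-- the square of the norm of a block -/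
noncomputable def Par.nb (K : ℕ) (δ r : ℕ → ℕ → 𝕂) : ℝ :=
  ∑ e ∈ range (P.d K + 1), ∑ m ∈ range (4 ^ e), ‖δ e m‖ ^ 2 +
    ∑ i ∈ range (K + 1), ∑ m ∈ range (4 ^ P.d i), ‖r i m‖ ^ 2

theorem Par.spos : 0 < P.s := by linarith [P.s0]

theorem Par.osc (δ : ℕ → ℕ → 𝕂) (D l : ℕ) {L : ℝ}
    (h : ∀ e ≤ D, 2 ^ e * ‖δ e (l / 4 ^ (D - e))‖ ≤ L) {d e : ℕ} (hd : d ≤ e) (he : e ≤ D) :
    ‖tau P.s δ e (l / 4 ^ (D - e)) - tau P.s δ d (l / 4 ^ (D - d))‖ ≤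
      2 * L * ((P.s⁻¹ / 2) ^ d - (P.s⁻¹ / 2) ^ e) := by
  have hs := P.spos
  have hL : 0 ≤ L := le_trans (by positivity) (h 0 (Nat.zero_le _))
  have h1 : P.s⁻¹ / 2 ≤ 2 / 3 := by
    rw [div_le_iff₀ two_pos, inv_le_comm₀ hs (by norm_num)]; linarith [P.s0]
  induction e, hd using Nat.le_induction with
  | base => simp
  | succ e hd ih =>
    rw [tau, div_step l he, add_sub_right_comm]
    refine (norm_add_le _ _).trans ?_
    have h2 := ih (by omega)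
    have h3 : ‖((P.s⁻¹ ^ (e + 1) : ℝ) : 𝕂) * δ (e + 1) (l / 4 ^ (D - (e + 1)))‖ ≤
        (P.s⁻¹ / 2) ^ (e + 1) * L := by
      rw [norm_mul, RCLike.norm_ofReal, abs_of_pos (by positivity), div_pow, div_mul_eq_mul_div,
        le_div_iff₀ (by positivity), mul_assoc, mul_comm _ ((2 : ℝ) ^ (e + 1))]
      exact mul_le_mul_of_nonneg_left (h _ he) (by positivity)
    have h4 := mul_le_mul_of_nonneg_left h1 (show 0 ≤ L * (P.s⁻¹ / 2) ^ e by positivity)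
    rw [pow_succ (P.s⁻¹ / 2)] at h3 ⊢
    nlinarith

/-- the constant of the block inequality -/
noncomputable def Par.E : ℝ := (4 + 16 * P.C ^ 2 * P.B ^ 2) * 25

theorem Par.branch {a : ℝ} (ha : a ∈ Set.Ioc (0 : ℝ) 1) (h1 : 1 ≤ ψ a) (K l : ℕ)
    (δ r : ℕ → ℕ → 𝕂) (hv : ∀ i ≤ K, ‖P.phi δ r i (l / 4 ^ (P.d K - P.d i))‖ ≤ 1) (J : Finset ℕ)
    (hJ : J ⊆ range (K + 1)) (hA : ∀ i ∈ J, a ≤ ‖P.phi δ r i (l / 4 ^ (P.d K - P.d i))‖) :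
    ∑ i ∈ J, 4 ^ P.d i * ‖P.phi δ r i (l / 4 ^ (P.d K - P.d i))‖ ^ 2 ≤ P.E * ψ a ^ 2 *
      (∑ e ∈ range (P.d K + 1), 4 ^ e * ‖δ e (l / 4 ^ (P.d K - e))‖ ^ 2 +
        ∑ i ∈ range (K + 1), 4 ^ P.d i * ‖r i (l / 4 ^ (P.d K - P.d i))‖ ^ 2) := by
  set M := ∑ e ∈ range (P.d K + 1), 4 ^ e * ‖δ e (l / 4 ^ (P.d K - e))‖ ^ 2 with hM
  set R := ∑ i ∈ range (K + 1), 4 ^ P.d i * ‖r i (l / 4 ^ (P.d K - P.d i))‖ ^ 2 with hR
  have hs := P.spos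
  have hM0 : 0 ≤ M := by positivity
  have hR0 : 0 ≤ R := by positivity
  have hL : ∀ e ≤ P.d K, 2 ^ e * ‖δ e (l / 4 ^ (P.d K - e))‖ ≤ √M := fun e he => by
    refine Real.le_sqrt_of_sq_le (le_trans (le_of_eq ?_) (single_le_sum
      (f := fun e => (4 : ℝ) ^ e * ‖δ e (l / 4 ^ (P.d K - e))‖ ^ 2) (fun _ _ => by positivity)
      (mem_range.2 (Nat.lt_succ_of_le he))))
    rw [mul_pow, ← pow_mul, mul_comm e, pow_mul]
    norm_num
  set t := tau P.s δ (P.d K) (l / 4 ^ (P.d K - P.d K)) with ht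
  have ho : ∀ d ≤ P.d K, ‖t - tau P.s δ d (l / 4 ^ (P.d K - d))‖ ≤ 2 * √M * (P.s⁻¹ / 2) ^ d :=
    fun d hd => (P.osc δ _ l hL hd le_rfl).trans
      (mul_le_mul_of_nonneg_left (sub_le_self _ (by positivity)) (by positivity))
  have h2 : ‖t‖ ^ 2 ≤ 9 * M := by
    have h3 := ho 0 (Nat.zero_le _)
    have h4 := hL 0 (Nat.zero_le _)
    have h5 := norm_le_norm_sub_add t (tau P.s δ 0 (l / 4 ^ (P.d K - 0)))
    rw [tau] at h3 h5
    have h6 : ‖t‖ ≤ 3 * √M := by simp only [pow_zero] at h3 h4; linarith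
    have := pow_le_pow_left₀ (norm_nonneg _) h6 2
    rw [mul_pow, Real.sq_sqrt hM0] at this
    linarith
  set r' : ℕ → 𝕂 := fun i => r i (l / 4 ^ (P.d K - P.d i)) -
    (P.c i : 𝕂) * (t - tau P.s δ (P.d i) (l / 4 ^ (P.d K - P.d i))) with hr'
  have e : ∀ i, P.phi δ r i (l / 4 ^ (P.d K - P.d i)) = r' i + (P.c i : 𝕂) * t := fun i => by
    simp only [hr', Par.phi]; ring
  have h3 : ∑ i ∈ range (K + 1), 4 ^ P.d i * ‖r' i‖ ^ 2 ≤ 2 * R + 8 * M * 2 := by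
    refine le_trans ?_ (add_le_add_right (mul_le_mul_of_nonneg_left (geo_half (K + 1))
      (by positivity)) _)
    rw [hR, mul_sum, mul_sum, ← sum_add_distrib]
    refine sum_le_sum fun i hi => ?_
    have h4 := ho _ (P.mono.monotone (Nat.lt_succ_iff.1 (mem_range.1 hi)))
    have h5 : ‖r' i‖ ≤ ‖r i (l / 4 ^ (P.d K - P.d i))‖ + P.c i * (2 * √M * (P.s⁻¹ / 2) ^ P.d i) := by
      refine (norm_sub_le _ _).trans (add_le_add_right ?_ _)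
      rw [norm_mul, RCLike.norm_ofReal, abs_of_pos (P.c0 i)]
      exact mul_le_mul_of_nonneg_left h4 (P.c0 i).le
    have h6 : 4 ^ P.d i * (P.c i * (2 * √M * (P.s⁻¹ / 2) ^ P.d i)) ^ 2 =
        4 * M * (P.c i * P.s⁻¹ ^ P.d i) ^ 2 := by
      have : (4 : ℝ) ^ P.d i = (2 ^ P.d i) ^ 2 := by
        rw [← pow_mul, mul_comm, pow_mul]; norm_num
      rw [this, div_pow, mul_pow, mul_pow, mul_pow, Real.sq_sqrt hM0]
      field_simp
      ring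
    have h7 := mul_le_mul_of_nonneg_left (P.cs i) (show 0 ≤ 4 * M by positivity)
    have h8 := pow_le_pow_left₀ (norm_nonneg _) h5 2
    have h9 : (0 : ℝ) < 4 ^ P.d i := by positivity
    nlinarith [mul_le_mul_of_nonneg_left (h8.trans (add_sq_le)) h9.le]
  simp only [e] at hv hA ⊢
  refine (P.one ha h1 K t r' hv J hJ hA).trans ?_
  rw [Par.E, mul_right_comm _ 25, mul_assoc _ 25]
  exact mul_le_mul_of_nonneg_left (by linarith) (by positivity)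

theorem Par.block {a : ℝ} (ha : a ∈ Set.Ioc (0 : ℝ) 1) (h1 : 1 ≤ ψ a) (K : ℕ)
    (δ r : ℕ → ℕ → 𝕂) (hv : ∀ i ≤ K, ∀ m < 4 ^ P.d i, ‖P.phi δ r i m‖ ≤ 1) :
    ∑ i ∈ range (K + 1), ∑ m ∈ range (4 ^ P.d i),
      (if a ≤ ‖P.phi δ r i m‖ then ‖P.phi δ r i m‖ ^ 2 else 0) ≤ P.E * ψ a ^ 2 * P.nb K δ r := by
  have hd : ∀ i ∈ range (K + 1), P.d i ≤ P.d K := fun i hi =>
    P.mono.monotone (Nat.lt_succ_iff.1 (mem_range.1 hi))
  refine le_of_mul_le_mul_left ?_ (show (0 : ℝ) < 4 ^ P.d K by positivity)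
  rw [mul_left_comm, Par.nb, mul_add, mul_sum, mul_sum, mul_sum,
    sum_congr rfl fun i hi => (sum_leaf _ (hd i hi)).symm,
    sum_congr rfl fun i hi => (sum_leaf _ (Nat.lt_succ_iff.1 (mem_range.1 hi))).symm,
    sum_congr rfl fun i hi => (sum_leaf (fun m => ‖r i m‖ ^ 2) (hd i hi)).symm,
    sum_comm, sum_comm (s := range (P.d K + 1)), sum_comm (s := range (K + 1)), ← sum_add_distrib,
    mul_sum]
  refine sum_le_sum fun l hl => ?_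
  simp only [mul_ite, mul_zero]
  rw [← sum_filter]
  refine P.branch ha h1 K l δ r (fun i hi => hv i hi _ ?_) _ (filter_subset _ _)
    fun i hi => (mem_filter.1 hi).2
  rw [Nat.div_lt_iff_lt_mul (by positivity), ← pow_add, Nat.add_sub_cancel' (P.mono.monotone hi)]
  exact mem_range.1 hl

end Pool.Agent.MP_e7ec4f_an
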