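import Mathlib

/-! Nearly unconditional bases. -/

set_option autoImplicit false

namespace Pool.Agent.E7C0

variable {𝕂 : Type} [RCLike 𝕂] {X : Type} [AddCommGroup X] [Module 𝕂 X]

/-- Nearly unconditional, in the sense of the problem file. -/
def IsNU (q : X → ℝ) (x : ℕ → X) (xs : ℕ → X →ₗ[𝕂] 𝕂) : Prop :=
  ∀ a : ℝ, 0 < a → a ≤ 1 → ∃ C : ℝ, ∀ f : X, (∀ n : ℕ, ‖xs n f‖ ≤ 1) →
    ∀ A : Finset ℕ, (∀ n ∈ A, a ≤ ‖xs n f‖) → q (∑ n ∈ A, xs n f • x n) ≤ C * q f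

end Pool.Agent.E7C0
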