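import Mathlib

/-! Regular Hadamard matrices of order `4 ^ k`, indexed by natural numbers. -/

set_option autoImplicit false

namespace Pool.Agent.E7C0

open Finset

/-- The matrix `J - 2 I`. -/
def h4 (a b : ℕ) : ℝ := if a = b then -1 else 1

/-- The `k`-fold tensor power of `J_4 - 2 I_4`. -/
def Had : ℕ → ℕ → ℕ → ℝ
  | 0, _, _ => 1
  | k + 1, x, y => h4 (x % 4) (y % 4) * Had k (x / 4) (y / 4)

lemma Had_symm (k : ℕ) : ∀ x y, Had k x y = Had k y x := by
  induction k with
  | zero => intro x y; rfl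
  | succ k ih =>
    intro x y
    simp only [Had, ih (x / 4), h4, eq_comm]

lemma abs_Had (k : ℕ) : ∀ x y, |Had k x y| = 1 := by
  induction k with
  | zero => intro x y; simp [Had]
  | succ k ih =>
    intro x y
    simp only [Had, abs_mul, ih, h4]
    split_ifs <;> simp

lemma sum_four (F : ℕ → ℝ) (n : ℕ) :
    ∑ y ∈ range (4 * n), F y = ∑ u ∈ range n, ∑ v ∈ range 4, F (4 * u + v) := by
  induction n with
  | zero => simp
  | succ n ih =>
    rw [sum_range_succ (fun u => ∑ v ∈ range 4, F (4 * u + v)), ← ih,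
      show 4 * (n + 1) = 4 * n + 4 by ring, sum_range_add]

lemma Had_split (k x u v : ℕ) (hv : v < 4) :
    Had (k + 1) x (4 * u + v) = h4 (x % 4) v * Had k (x / 4) u := by
  have h1 : (4 * u + v) % 4 = v := by omega
  have h2 : (4 * u + v) / 4 = u := by omega
  simp only [Had, h1, h2]

lemma h4_sum (a : ℕ) (ha : a < 4) : ∑ v ∈ range 4, h4 a v = 2 := by
  interval_cases a <;> simp [h4, sum_range_succ] <;> norm_num

lemma h4_orth (a b : ℕ) (ha : a < 4) (hb : b < 4) :
    ∑ v ∈ range 4, h4 a v * h4 b v = if a = b then 4 else 0 := by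
  interval_cases a <;> interval_cases b <;> simp [h4, sum_range_succ] <;> norm_num

lemma Had_rowsum (k : ℕ) : ∀ x, ∑ y ∈ range (4 ^ k), Had k x y = 2 ^ k := by
  induction k with
  | zero => intro x; simp [Had]
  | succ k ih =>
    intro x
    rw [pow_succ' 4 k, sum_four]
    have : ∀ u ∈ range (4 ^ k), ∑ v ∈ range 4, Had (k + 1) x (4 * u + v)
        = 2 * Had k (x / 4) u := by
      intro u _
      rw [← h4_sum (x % 4) (Nat.mod_lt _ (by norm_num)), sum_mul]
      exact sum_congr rfl fun v hv => Had_split k x u v (mem_range.1 hv)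
    rw [sum_congr rfl this, ← mul_sum, ih]; ring

lemma Had_orth (k : ℕ) : ∀ x z, x < 4 ^ k → z < 4 ^ k →
    ∑ y ∈ range (4 ^ k), Had k x y * Had k z y = if x = z then 4 ^ k else 0 := by
  induction k with
  | zero =>
    intro x z hx hz
    have : x = z := by simp at hx hz; omega
    simp [Had, this]
  | succ k ih =>
    intro x z hx hz
    rw [pow_succ' 4 k] at hx hz
    rw [pow_succ' 4 k, sum_four]
    have : ∀ u ∈ range (4 ^ k), ∑ v ∈ range 4, Had (k + 1) x (4 * u + v) * Had (k + 1) z (4 * u + v)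
        = (if x % 4 = z % 4 then 4 else 0) * (Had k (x / 4) u * Had k (z / 4) u) := by
      intro u _
      rw [← h4_orth (x % 4) (z % 4) (Nat.mod_lt _ (by norm_num)) (Nat.mod_lt _ (by norm_num)),
        sum_mul]
      refine sum_congr rfl fun v hv => ?_
      rw [Had_split k x u v (mem_range.1 hv), Had_split k z u v (mem_range.1 hv)]; ring
    rw [sum_congr rfl this, ← mul_sum, ih (x / 4) (z / 4) (by omega) (by omega)]
    by_cases hxz : x = z
    · subst hxz; simp [pow_succ']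
    · rw [if_neg hxz]
      by_cases h1 : x % 4 = z % 4
      · rw [if_neg (by omega : ¬ x / 4 = z / 4), mul_zero]
      · rw [if_neg h1, zero_mul]

lemma Had_parseval_real (k : ℕ) (y : ℕ → ℝ) :
    ∑ w ∈ range (4 ^ k), (∑ i ∈ range (4 ^ k), Had k w i * y i) ^ 2
      = 4 ^ k * ∑ i ∈ range (4 ^ k), y i ^ 2 := by
  have h1 : ∀ w ∈ range (4 ^ k), (∑ i ∈ range (4 ^ k), Had k w i * y i) ^ 2
      = ∑ i ∈ range (4 ^ k), ∑ j ∈ range (4 ^ k), y i * y j * (Had k i w * Had k j w) := by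
    intro w _
    rw [sq, sum_mul_sum]
    refine sum_congr rfl fun i _ => sum_congr rfl fun j _ => ?_
    rw [Had_symm k w i, Had_symm k w j]; ring
  rw [sum_congr rfl h1, sum_comm, mul_sum]
  refine sum_congr rfl fun i hi => ?_
  rw [sum_comm]
  have h2 : ∀ j ∈ range (4 ^ k), ∑ w ∈ range (4 ^ k), y i * y j * (Had k i w * Had k j w)
      = if i = j then 4 ^ k * y i ^ 2 else 0 := by
    intro j hj
    rw [← mul_sum, Had_orth k i j (mem_range.1 hi) (mem_range.1 hj)]
    split_ifs with h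
    · subst h; ring
    · ring
  rw [sum_congr rfl h2, sum_ite_eq, if_pos hi]

variable {𝕂 : Type} [RCLike 𝕂]

lemma Had_parseval (k : ℕ) (a : ℕ → 𝕂) :
    ∑ w ∈ range (4 ^ k), ‖∑ i ∈ range (4 ^ k), ((Had k w i : ℝ) : 𝕂) * a i‖ ^ 2
      = 4 ^ k * ∑ i ∈ range (4 ^ k), ‖a i‖ ^ 2 := by
  simp only [RCLike.norm_sq_eq_def, map_sum, RCLike.re_ofReal_mul, RCLike.im_ofReal_mul, ← sq,
    sum_add_distrib, Had_parseval_real, mul_add]

lemma Had_inv (k x : ℕ) (hx : x < 4 ^ k) (y : ℕ → 𝕂) :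
    ∑ i ∈ range (4 ^ k), ((Had k x i : ℝ) : 𝕂) *
      ∑ w ∈ range (4 ^ k), ((Had k i w / 4 ^ k : ℝ) : 𝕂) * y w = y x := by
  simp only [mul_sum]
  rw [sum_comm]
  have h2 : ∀ w ∈ range (4 ^ k), ∑ i ∈ range (4 ^ k), ((Had k x i : ℝ) : 𝕂) *
      (((Had k i w / 4 ^ k : ℝ) : 𝕂) * y w) = if x = w then y w else 0 := by
    intro w hw
    have h3 : ∑ i ∈ range (4 ^ k), ((Had k x i : ℝ) : 𝕂) * (((Had k i w / 4 ^ k : ℝ) : 𝕂) * y w)
        = (((∑ i ∈ range (4 ^ k), Had k x i * Had k w i) / 4 ^ k : ℝ) : 𝕂) * y w := by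
      rw [sum_div, RCLike.ofReal_sum, sum_mul]
      refine sum_congr rfl fun i _ => ?_
      rw [Had_symm k i w, ← mul_assoc, ← RCLike.ofReal_mul, mul_div_assoc]
    rw [h3, Had_orth k x w hx (mem_range.1 hw)]
    split_ifs with h
    · rw [div_self (by positivity)]; simp
    · simp
  rw [sum_congr rfl h2, sum_ite_eq, if_pos (mem_range.2 hx)]

end Pool.Agent.E7C0
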