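import Mathlib
import Pool.Agent.MP_e7ec4f_an.C0Had

/-! A tree of Hadamard blocks: synthesis and analysis of coefficient sequences. -/

set_option autoImplicit false

namespace Pool.Agent.E7C0

open Finset

/-- Head of a block: support of a pattern, its negative part, and the exponent of the size. -/
abbrev Hd : Type := Finset ℕ × Finset ℕ × ℕ

/-- A block is the list of heads of its ancestors. -/
abbrev Bl : Type := List Hd

def ex : Bl → ℕ
  | [] => 0
  | h :: _ => h.2.2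

def Valid (h : Hd) (P : Bl) : Prop :=
  h.1 ⊆ range (4 ^ ex P) ∧ h.2.1 ⊆ h.1 ∧ 1024 * 4 ^ h.2.2 ≤ h.1.card ∧ h.1.card ≤ 4096 * 4 ^ h.2.2

open Classical in
noncomputable def pat (h : Hd) (P : Bl) (j : ℕ) : ℝ :=
  if Valid h P ∧ j ∈ h.1 then (if j ∈ h.2.1 then -1 else 1) else 0

lemma Valid.ex_lt {h : Hd} {P : Bl} (hv : Valid h P) : h.2.2 < ex P := by
  have h1 := card_le_card hv.1
  rw [card_range] at h1
  have h2 := hv.2.2.1
  have h3 : 0 < 4 ^ h.2.2 := by positivity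
  exact (Nat.pow_lt_pow_iff_right (by norm_num : 1 < 4)).1 (by omega)

lemma valid_finite (P : Bl) : {h : Hd | Valid h P}.Finite := by
  refine (((range (4 ^ ex P)).powerset ×ˢ (range (4 ^ ex P)).powerset ×ˢ
    range (ex P)).finite_toSet).subset fun h hv => ?_
  simp only [coe_product, Set.mem_prod, mem_coe, mem_powerset, mem_range]
  exact ⟨hv.1, hv.2.1.trans hv.1, Valid.ex_lt hv⟩

lemma abs_pat_le (h : Hd) (P : Bl) (j : ℕ) : |pat h P j| ≤ 1 := by
  unfold pat; split_ifs <;> simp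

lemma sum_pat_sq (h : Hd) (P : Bl) :
    ∑ j ∈ range (4 ^ ex P), |pat h P j| ^ 2 ≤ 4096 * 4 ^ h.2.2 := by
  by_cases hv : Valid h P
  · have h1 : ∀ j ∈ range (4 ^ ex P), |pat h P j| ^ 2 = if j ∈ h.1 then 1 else 0 := by
      intro j _
      unfold pat
      by_cases hj : j ∈ h.1
      · rw [if_pos ⟨hv, hj⟩, if_pos hj]; split_ifs <;> simp
      · rw [if_neg (fun hh => hj hh.2), if_neg hj]; simp
    rw [sum_congr rfl h1, sum_boole, filter_mem_eq_inter, inter_eq_right.2 hv.1]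
    exact_mod_cast hv.2.2.2
  · have h1 : ∀ j ∈ range (4 ^ ex P), |pat h P j| ^ 2 = 0 := by
      intro j _
      unfold pat
      rw [if_neg (fun hh => hv hh.1)]; simp
    rw [sum_congr rfl h1]; simp

/-- The index set: pairs of a block and a position in it. -/
abbrev Ix : Type := {p : Bl × ℕ // p.2 < 4 ^ ex p.1}

instance : Infinite Ix :=
  Infinite.of_injective (fun k : ℕ => (⟨([(∅, ∅, k)], 0), by positivity⟩ : Ix))
    fun a b h => by simpa using h

noncomputable def en : ℕ ≃ Ix := Classical.choice nonempty_equiv_of_countable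

noncomputable def blk (n : ℕ) : Bl := (en n).1.1

noncomputable def pos (n : ℕ) : ℕ := (en n).1.2

noncomputable def idx (B : Bl) (i : ℕ) : ℕ :=
  if h : i < 4 ^ ex B then en.symm ⟨(B, i), h⟩ else 0

lemma pos_lt (n : ℕ) : pos n < 4 ^ ex (blk n) := (en n).2

lemma idx_blk (n : ℕ) : idx (blk n) (pos n) = n := by
  unfold idx
  rw [dif_pos (pos_lt n)]
  exact en.symm_apply_apply n

lemma blk_idx {B : Bl} {i : ℕ} (h : i < 4 ^ ex B) : blk (idx B i) = B := by
  unfold idx blk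
  rw [dif_pos h, Equiv.apply_symm_apply]

lemma pos_idx {B : Bl} {i : ℕ} (h : i < 4 ^ ex B) : pos (idx B i) = i := by
  unfold idx pos
  rw [dif_pos h, Equiv.apply_symm_apply]

lemma fiber_finite (S : Set Bl) (hS : S.Finite) : {n | blk n ∈ S}.Finite := by
  refine (hS.biUnion fun B _ => ((range (4 ^ ex B)).image (idx B)).finite_toSet).subset
    fun n hn => ?_
  simp only [Set.mem_iUnion, coe_image, Set.mem_image, mem_coe, mem_range]
  exact ⟨blk n, hn, pos n, pos_lt n, idx_blk n⟩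

variable {𝕂 : Type} [RCLike 𝕂]

/-- What a block receives from its parent. -/
noncomputable def inc : Bl → ((ℕ → 𝕂) →ₗ[𝕂] 𝕂)
  | [] => 0
  | h :: P => ∑ j ∈ range (4 ^ ex P),
      ((pat h P j / 128 : ℝ) : 𝕂) • LinearMap.proj (idx P j)

/-- Row `(B, w)` of the synthesis matrix. -/
noncomputable def syn (B : Bl) (w : ℕ) : (ℕ → 𝕂) →ₗ[𝕂] 𝕂 :=
  ∑ i ∈ range (4 ^ ex B), ((Had (ex B) w i : ℝ) : 𝕂) • LinearMap.proj (idx B i)
    + if w = 0 then inc B else 0

noncomputable def coA (c : (ℕ → 𝕂) →ₗ[𝕂] 𝕂) (B : Bl) (i : ℕ) : (ℕ → 𝕂) →ₗ[𝕂] 𝕂 :=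
  ∑ w ∈ range (4 ^ ex B), ((Had (ex B) i w / 4 ^ ex B : ℝ) : 𝕂) •
    (LinearMap.proj (idx B w) - if w = 0 then c else 0)

noncomputable def cc : Bl → ((ℕ → 𝕂) →ₗ[𝕂] 𝕂)
  | [] => 0
  | h :: P => ∑ j ∈ range (4 ^ ex P), ((pat h P j / 128 : ℝ) : 𝕂) • coA (cc P) P j

/-- The coordinate functionals on sequences. -/
noncomputable def co (n : ℕ) : (ℕ → 𝕂) →ₗ[𝕂] 𝕂 := coA (cc (blk n)) (blk n) (pos n)

lemma inc_cons (h : Hd) (P : Bl) (a : ℕ → 𝕂) :
    inc (h :: P) a = ∑ j ∈ range (4 ^ ex P), ((pat h P j / 128 : ℝ) : 𝕂) * a (idx P j) := by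
  simp only [inc, LinearMap.sum_apply, LinearMap.smul_apply, LinearMap.proj_apply, smul_eq_mul]

lemma syn_apply (B : Bl) (w : ℕ) (a : ℕ → 𝕂) :
    syn B w a = ∑ i ∈ range (4 ^ ex B), ((Had (ex B) w i : ℝ) : 𝕂) * a (idx B i)
      + if w = 0 then inc B a else 0 := by
  simp only [syn, LinearMap.add_apply, LinearMap.sum_apply, LinearMap.smul_apply,
    LinearMap.proj_apply, smul_eq_mul]
  split_ifs <;> rfl

lemma coA_apply (c : (ℕ → 𝕂) →ₗ[𝕂] 𝕂) (B : Bl) (i : ℕ) (f : ℕ → 𝕂) :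
    coA c B i f = ∑ w ∈ range (4 ^ ex B), ((Had (ex B) i w / 4 ^ ex B : ℝ) : 𝕂) *
      (f (idx B w) - if w = 0 then c f else 0) := by
  simp only [coA, LinearMap.sum_apply, LinearMap.smul_apply, LinearMap.sub_apply,
    LinearMap.proj_apply, smul_eq_mul]
  refine sum_congr rfl fun w _ => ?_
  split_ifs <;> rfl

lemma co_idx {B : Bl} {i : ℕ} (h : i < 4 ^ ex B) :
    (co (idx B i) : (ℕ → 𝕂) →ₗ[𝕂] 𝕂) = coA (cc B) B i := by
  unfold co
  rw [blk_idx h, pos_idx h]

/-- `f` is synthesised from the coefficients `a`. -/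
def Rel (a f : ℕ → 𝕂) : Prop := ∀ (B : Bl) (w : ℕ), w < 4 ^ ex B → f (idx B w) = syn B w a

lemma rel_co (f : ℕ → 𝕂) : Rel (fun n => co n f) f := by
  intro B w hw
  have hc : inc B (fun n => co n f) = cc B f := by
    cases B with
    | nil => rfl
    | cons h P =>
      rw [inc_cons]
      simp only [cc, LinearMap.sum_apply, LinearMap.smul_apply, smul_eq_mul]
      exact sum_congr rfl fun j hj => by rw [co_idx (mem_range.1 hj)]
  rw [syn_apply, hc]
  have h1 : ∀ i ∈ range (4 ^ ex B), ((Had (ex B) w i : ℝ) : 𝕂) * co (idx B i) f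
      = ((Had (ex B) w i : ℝ) : 𝕂) * ∑ w' ∈ range (4 ^ ex B),
        ((Had (ex B) i w' / 4 ^ ex B : ℝ) : 𝕂) * (f (idx B w') - if w' = 0 then cc B f else 0) := by
    intro i hi
    rw [co_idx (mem_range.1 hi), coA_apply]
  rw [sum_congr rfl h1, Had_inv (ex B) w hw (fun w' => f (idx B w') - if w' = 0 then cc B f else 0)]
  ring

lemma rel_syn (a : ℕ → 𝕂) : Rel a (fun r => syn (blk r) (pos r) a) := by
  intro B w hw
  simp only [blk_idx hw, pos_idx hw]

lemma norm_inc_le (h : Hd) (P : Bl) (a : ℕ → 𝕂) :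
    ‖inc (h :: P) a‖ ≤ (∑ j ∈ range (4 ^ ex P), |pat h P j| * ‖a (idx P j)‖) / 128 := by
  rw [inc_cons, sum_div]
  refine (norm_sum_le _ _).trans (sum_le_sum fun j _ => le_of_eq ?_)
  rw [norm_mul, RCLike.norm_ofReal, abs_div, abs_of_pos (by norm_num : (0 : ℝ) < 128)]
  ring

lemma l2_bound {a f : ℕ → 𝕂} (hr : Rel a f) {F : ℝ} (hF : ∀ r, ‖f r‖ ≤ F) (B : Bl) :
    ∑ i ∈ range (4 ^ ex B), ‖a (idx B i)‖ ^ 2 ≤ 4 * F ^ 2 := by
  have key : ∀ B : Bl, ‖inc B a‖ ^ 2 ≤ 4 ^ ex B * F ^ 2 →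
      ∑ i ∈ range (4 ^ ex B), ‖a (idx B i)‖ ^ 2 ≤ 4 * F ^ 2 := by
    intro B hB
    have h1 := Had_parseval (ex B) (fun i => a (idx B i))
    have h2 : ∀ w ∈ range (4 ^ ex B),
        ‖∑ i ∈ range (4 ^ ex B), ((Had (ex B) w i : ℝ) : 𝕂) * a (idx B i)‖ ^ 2
          ≤ 2 * F ^ 2 + if w = 0 then 2 * ‖inc B a‖ ^ 2 else 0 := by
      intro w hw
      have h3 := hr B w (mem_range.1 hw)
      rw [syn_apply] at h3
      have h4 := hF (idx B w)
      have h5 := norm_nonneg (f (idx B w))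
      rw [← sub_eq_iff_eq_add] at h3
      rw [← h3]
      split_ifs with hw0
      · have h6 := norm_sub_le (f (idx B w)) (inc B a)
        have h7 := norm_nonneg (f (idx B w) - inc B a)
        have h8 := norm_nonneg (inc B a)
        nlinarith [sq_nonneg (F - ‖inc B a‖)]
      · rw [sub_zero]; nlinarith
    have h3 := sum_le_sum h2
    rw [h1, sum_add_distrib, sum_ite_eq', if_pos (mem_range.2 (by positivity)), sum_const,
      card_range, nsmul_eq_mul] at h3
    push_cast at h3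
    have h4 : (0 : ℝ) < 4 ^ ex B := by positivity
    exact le_of_mul_le_mul_left (by nlinarith) h4
  induction B with
  | nil =>
    refine key [] ?_
    simp only [inc, LinearMap.zero_apply, norm_zero, ne_eq, OfNat.ofNat_ne_zero, not_false_eq_true,
      zero_pow]
    positivity
  | cons h P ih =>
    refine key _ ?_
    have h1 := norm_inc_le h P a
    have h2 := sum_mul_sq_le_sq_mul_sq (range (4 ^ ex P)) (fun j => |pat h P j|)
      (fun j => ‖a (idx P j)‖)
    have h3 := sum_pat_sq h P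
    have h4 : (∑ j ∈ range (4 ^ ex P), |pat h P j| ^ 2) *
        ∑ j ∈ range (4 ^ ex P), ‖a (idx P j)‖ ^ 2 ≤ (4096 * 4 ^ h.2.2) * (4 * F ^ 2) :=
      mul_le_mul h3 ih (by positivity) (by positivity)
    have h5 := pow_le_pow_left₀ (norm_nonneg _) h1 2
    rw [div_pow] at h5
    show _ ≤ 4 ^ h.2.2 * F ^ 2
    nlinarith

lemma rel_unique {a f : ℕ → 𝕂} (hr : Rel a f) (n : ℕ) : co n f = a n := by
  have h1 : Rel ((fun n => co n f) - a) (fun _ => 0) := by
    intro B w hw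
    rw [map_sub, ← hr B w hw, ← rel_co f B w hw, sub_self]
  have h2 := l2_bound h1 (F := 0) (fun _ => by simp) (blk n)
  have h3 := single_le_sum (f := fun i => ‖((fun n => co n f) - a) (idx (blk n) i)‖ ^ 2)
    (fun _ _ => by positivity) (mem_range.2 (pos_lt n))
  simp only [idx_blk] at h3
  have h4 : ‖((fun n => co n f) - a) n‖ ^ 2 = 0 := le_antisymm (by nlinarith) (by positivity)
  rw [pow_eq_zero_iff two_ne_zero, norm_eq_zero] at h4
  exact sub_eq_zero.1 h4

lemma norm_co_le {f : ℕ → 𝕂} {F : ℝ} (hF : ∀ r, ‖f r‖ ≤ F) (n : ℕ) : ‖co n f‖ ≤ 2 * F := by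
  have h2 := l2_bound (rel_co f) hF (blk n)
  have h3 := single_le_sum (f := fun i => ‖co (idx (blk n) i) f‖ ^ 2)
    (fun _ _ => by positivity) (mem_range.2 (pos_lt n))
  simp only [idx_blk] at h3
  have h0 : 0 ≤ F := (norm_nonneg _).trans (hF 0)
  exact le_of_sq_le_sq (by nlinarith) (by positivity)

end Pool.Agent.E7C0
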