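import Mathlib
import Pool.Agent.MP_e7ec4f_an.C0Tree

/-! The mass of large coefficients in one block is controlled by the sup norm. -/

set_option autoImplicit false

namespace Pool.Agent.E7C0

open Finset

variable {𝕂 : Type} [RCLike 𝕂]

lemma small_mass {a f : ℕ → 𝕂} (hr : Rel a f) {F : ℝ} (hF : ∀ r, ‖f r‖ ≤ F) (B : Bl)
    (T : Finset ℕ) (hT : T ⊆ range (4 ^ ex B)) (hc : T.card < 1024) :
    ∑ i ∈ T, ‖a (idx B i)‖ ≤ 64 * F := by
  have h0 : 0 ≤ F := (norm_nonneg _).trans (hF 0)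
  have h1 := sq_sum_le_card_mul_sum_sq (s := T) (f := fun i => ‖a (idx B i)‖)
  have h2 : ∑ i ∈ T, ‖a (idx B i)‖ ^ 2 ≤ 4 * F ^ 2 :=
    (sum_le_sum_of_subset_of_nonneg hT fun _ _ _ => by positivity).trans (l2_bound hr hF B)
  have h3 : (T.card : ℝ) ≤ 1024 := by exact_mod_cast hc.le
  have h4 : (T.card : ℝ) * ∑ i ∈ T, ‖a (idx B i)‖ ^ 2 ≤ 1024 * (4 * F ^ 2) :=
    mul_le_mul h3 h2 (by positivity) (by positivity)
  exact le_of_sq_le_sq (by nlinarith) (by positivity)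

lemma exists_exp (m : ℕ) (hm : 1024 ≤ m) : ∃ k, 1024 * 4 ^ k ≤ m ∧ m ≤ 4096 * 4 ^ k := by
  have h1 := Nat.pow_log_le_self 4 (x := m / 1024) (by omega)
  have h2 := Nat.lt_pow_succ_log_self (b := 4) (by norm_num) (m / 1024)
  rw [pow_succ] at h2
  exact ⟨Nat.log 4 (m / 1024), by omega, by omega⟩

lemma child_aux (a : ℕ → 𝕂) (B : Bl) (T : Finset ℕ) (hT : T ⊆ range (4 ^ ex B)) (k : ℕ)
    (hk : 1024 * 4 ^ k ≤ T.card ∧ T.card ≤ 4096 * 4 ^ k) (ρ : 𝕂 →+ ℝ)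
    (h1 : ∀ (t : ℝ) (z : 𝕂), ρ ((t : 𝕂) * z) = t * ρ z) (h2 : ∀ z, |ρ z| ≤ ‖z‖) :
    (∑ i ∈ T, |ρ (a (idx B i))|) / 128
      ≤ ‖inc ((T, T.filter (fun i => ρ (a (idx B i)) < 0), k) :: B) a‖ := by
  set h : Hd := (T, T.filter (fun i => ρ (a (idx B i)) < 0), k) with hh
  have hv : Valid h B := ⟨hT, filter_subset _ _, hk.1, hk.2⟩
  refine le_trans (le_of_eq ?_) ((le_abs_self _).trans (h2 _))
  rw [inc_cons, map_sum, sum_div]
  simp only [h1]
  symm
  rw [← sum_subset hT]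
  · refine sum_congr rfl fun j hj => ?_
    unfold pat
    rw [if_pos ⟨hv, hj⟩]
    by_cases hn : ρ (a (idx B j)) < 0
    · rw [if_pos (mem_filter.2 ⟨hj, hn⟩), abs_of_neg hn]; ring
    · have hm : j ∉ h.2.1 := fun hm => hn (mem_filter.1 hm).2
      rw [if_neg hm, abs_of_nonneg (not_lt.1 hn)]; ring
  · intro j _ hj
    unfold pat
    rw [if_neg (fun hm => hj hm.2)]; ring

lemma norm_syn_sub (B : Bl) (w : ℕ) (a : ℕ → 𝕂) :
    ‖∑ i ∈ range (4 ^ ex B), ((Had (ex B) w i : ℝ) : 𝕂) * a (idx B i)‖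
      ≤ ∑ i ∈ range (4 ^ ex B), ‖a (idx B i)‖ := by
  refine (norm_sum_le _ _).trans (sum_le_sum fun j _ => le_of_eq ?_)
  rw [norm_mul, RCLike.norm_ofReal, abs_Had, one_mul]

lemma child {a f : ℕ → 𝕂} (hr : Rel a f) {F : ℝ} (hF : ∀ r, ‖f r‖ ≤ F) (B : Bl)
    (T : Finset ℕ) (hT : T ⊆ range (4 ^ ex B)) (hc : 1024 ≤ T.card) :
    ∃ h : Hd, 1024 * 4 ^ h.2.2 ≤ T.card ∧ (∑ i ∈ T, ‖a (idx B i)‖) / 256
      ≤ F + ∑ i ∈ range (4 ^ h.2.2), ‖a (idx (h :: B) i)‖ := by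
  obtain ⟨k, hk⟩ := exists_exp _ hc
  have hrow : ∀ h : Hd, ‖inc (h :: B) a‖ ≤ F + ∑ i ∈ range (4 ^ h.2.2), ‖a (idx (h :: B) i)‖ := by
    intro h
    have h3 := hr (h :: B) 0 (by positivity)
    rw [syn_apply, if_pos rfl, ← sub_eq_iff_eq_add'] at h3
    rw [← h3]
    exact (norm_sub_le _ _).trans (add_le_add (hF _) (norm_syn_sub (h :: B) 0 a))
  have hre := child_aux a B T hT k hk RCLike.re (fun t z => RCLike.re_ofReal_mul t z)
    RCLike.abs_re_le_norm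
  have him := child_aux a B T hT k hk RCLike.im (fun t z => RCLike.im_ofReal_mul t z)
    RCLike.abs_im_le_norm
  have hs : ∑ i ∈ T, ‖a (idx B i)‖ ≤ ∑ i ∈ T, |RCLike.re (a (idx B i))|
      + ∑ i ∈ T, |RCLike.im (a (idx B i))| := by
    rw [← sum_add_distrib]
    refine sum_le_sum fun i _ => le_of_sq_le_sq ?_ (by positivity)
    rw [RCLike.norm_sq_eq_def, add_sq, sq_abs, sq_abs]
    have := mul_nonneg (abs_nonneg (RCLike.re (a (idx B i)))) (abs_nonneg (RCLike.im (a (idx B i))))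
    nlinarith
  rcases le_total (∑ i ∈ T, |RCLike.re (a (idx B i))|) (∑ i ∈ T, |RCLike.im (a (idx B i))|)
    with hle | hle
  · exact ⟨_, hk.1, le_trans (by linarith) (him.trans (hrow _))⟩
  · exact ⟨_, hk.1, le_trans (by linarith) (hre.trans (hrow _))⟩

lemma mass {a f : ℕ → 𝕂} (hr : Rel a f) {F : ℝ} (hF : ∀ r, ‖f r‖ ≤ F) (ha : ∀ n, ‖a n‖ ≤ 1)
    (j : ℕ) : ∀ (B : Bl) (T : Finset ℕ), T ⊆ range (4 ^ ex B) →
      (T.card : ℝ) < 2 ^ j * ∑ i ∈ T, ‖a (idx B i)‖ →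
      ∑ i ∈ T, ‖a (idx B i)‖ ≤ 2048 * 512 ^ j * F := by
  have h0 : 0 ≤ F := (norm_nonneg _).trans (hF 0)
  induction j with
  | zero =>
    intro B T _ h
    have := sum_le_card_nsmul T (fun i => ‖a (idx B i)‖) 1 fun i _ => ha _
    simp only [nsmul_eq_mul, mul_one, pow_zero, one_mul] at this h
    linarith
  | succ j ih =>
    intro B T hT h
    have hp : (1 : ℝ) ≤ 512 ^ j := one_le_pow₀ (by norm_num)
    have hpF : F ≤ 512 ^ j * F := le_mul_of_one_le_left h0 hp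
    have hq : (0 : ℝ) < 2 ^ j := by positivity
    rw [pow_succ, show (2048 : ℝ) * (512 ^ j * 512) * F = 1048576 * (512 ^ j * F) by ring]
    rcases lt_or_ge T.card 1024 with hc | hc
    · have := small_mass hr hF B T hT hc
      linarith
    · obtain ⟨g, hg1, hg2⟩ := child hr hF B T hT hc
      rcases lt_or_ge (∑ i ∈ range (4 ^ g.2.2), ‖a (idx (g :: B) i)‖)
        ((∑ i ∈ T, ‖a (idx B i)‖) / 512) with h1 | h1
      · linarith
      · have h2 : (1024 : ℝ) * (range (4 ^ g.2.2)).card ≤ T.card := by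
          rw [card_range]; exact_mod_cast hg1
        have h3 := mul_le_mul_of_nonneg_left h1 hq.le
        have h4 := ih (g :: B) (range (4 ^ g.2.2)) (Subset.refl _) (by
          rw [pow_succ] at h; linarith)
        rw [mul_assoc] at h4
        linarith

lemma row_bound (a : ℕ → 𝕂) {M : ℝ}
    (hM : ∀ B : Bl, ∑ i ∈ range (4 ^ ex B), ‖a (idx B i)‖ ≤ M) (B : Bl) (w : ℕ) :
    ‖syn B w a‖ ≤ 2 * M := by
  have h0 : 0 ≤ M := le_trans (by positivity) (hM [])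
  have h1 : ‖inc B a‖ ≤ M := by
    cases B with
    | nil => simpa [inc] using h0
    | cons h P =>
      have h2 : ∑ j ∈ range (4 ^ ex P), |pat h P j| * ‖a (idx P j)‖ ≤ M :=
        (sum_le_sum fun j _ => mul_le_of_le_one_left (norm_nonneg _) (abs_pat_le h P j)).trans
          (hM P)
      have h3 := norm_inc_le h P a
      linarith
  rw [syn_apply]
  refine (norm_add_le _ _).trans ?_
  have h2 := (norm_syn_sub B w a).trans (hM B)
  split_ifs
  · linarith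
  · rw [norm_zero]; linarith

lemma inc_ne_zero {B : Bl} {a : ℕ → 𝕂} (h : inc B a ≠ 0) :
    ∃ g P n, B = g :: P ∧ Valid g P ∧ blk n = P ∧ a n ≠ 0 := by
  cases B with
  | nil => exact absurd rfl h
  | cons g P =>
    rw [inc_cons] at h
    obtain ⟨j, hj, hne⟩ := exists_ne_zero_of_sum_ne_zero h
    refine ⟨g, P, idx P j, rfl, ?_, blk_idx (mem_range.1 hj), right_ne_zero_of_mul hne⟩
    by_contra hv
    apply left_ne_zero_of_mul hne
    unfold pat
    rw [if_neg (fun hh => hv hh.1)]; simp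

lemma syn_ne_zero {B : Bl} {w : ℕ} {a : ℕ → 𝕂} (h : syn B w a ≠ 0) :
    (∃ n, blk n = B ∧ a n ≠ 0) ∨ inc B a ≠ 0 := by
  by_contra hc
  rw [not_or, not_exists, not_not] at hc
  apply h
  rw [syn_apply, hc.2, ite_self, add_zero]
  refine sum_eq_zero fun i hi => ?_
  have := hc.1 (idx B i)
  rw [not_and, not_not] at this
  rw [this (blk_idx (mem_range.1 hi)), mul_zero]

lemma syn_finite {a : ℕ → 𝕂} (ha : {n | a n ≠ 0}.Finite) :
    {r | syn (blk r) (pos r) a ≠ 0}.Finite := by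
  refine (fiber_finite _ ((ha.image blk).union (ha.biUnion fun n _ =>
    (valid_finite (blk n)).image fun g => g :: blk n))).subset fun r hr => ?_
  rcases syn_ne_zero hr with ⟨n, h1, h2⟩ | h
  · exact Or.inl ⟨n, h2, h1⟩
  · obtain ⟨g, P, n, h1, h2, h3, h4⟩ := inc_ne_zero h
    subst h3
    exact Or.inr (Set.mem_biUnion h4 ⟨g, h2, h1.symm⟩)

end Pool.Agent.E7C0
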