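import Mathlib

/-! Definitions for the isometric dichotomy for quasi-greedy bases for largest coefficients. -/

set_option autoImplicit false

namespace Pool.Agent.E7Iso

variable {𝕂 : Type} [RCLike 𝕂] {X : Type} [AddCommGroup X] [Module 𝕂 X]

/-- `q` is a `p`-norm on `X`. -/
def IsPNorm (𝕂 : Type) [RCLike 𝕂] {X : Type} [AddCommGroup X] [Module 𝕂 X]
    (p : ℝ) (q : X → ℝ) : Prop :=
  (∀ f : X, 0 ≤ q f) ∧ (∀ f : X, q f = 0 → f = 0) ∧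
    (∀ (c : 𝕂) (f : X), q (c • f) = ‖c‖ * q f) ∧
    ∀ f g : X, q (f + g) ^ p ≤ q f ^ p + q g ^ p

/-- Every Cauchy sequence for `q` converges for `q`. -/
def IsCompl (q : X → ℝ) : Prop :=
  ∀ u : ℕ → X, (∀ ε : ℝ, 0 < ε → ∃ N : ℕ, ∀ m ≥ N, ∀ n ≥ N, q (u m - u n) < ε) →
    ∃ f : X, ∀ ε : ℝ, 0 < ε → ∃ N : ℕ, ∀ n ≥ N, q (u n - f) < ε

/-- `x` is a basis with coordinate functionals `xs`, in the sense of the problem file. -/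
def IsBasis (q : X → ℝ) (x : ℕ → X) (xs : ℕ → X →ₗ[𝕂] 𝕂) : Prop :=
  (∃ B : ℝ, ∀ n : ℕ, q (x n) ≤ B) ∧ (∃ M : ℝ, ∀ (n : ℕ) (f : X), ‖xs n f‖ ≤ M * q f) ∧
    (∀ m n : ℕ, xs m (x n) = if m = n then 1 else 0) ∧
    ∀ f : X, ∀ ε : ℝ, 0 < ε → ∃ g ∈ Submodule.span 𝕂 (Set.range x), q (f - g) < ε

/-- The expansions converge in the given order. -/
def IsSchauder (q : X → ℝ) (x : ℕ → X) (xs : ℕ → X →ₗ[𝕂] 𝕂) : Prop :=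
  ∀ f : X, Filter.Tendsto (fun m : ℕ => q (f - ∑ n ∈ Finset.range m, xs n f • x n))
    Filter.atTop (nhds 0)

/-- `L`-quasi-greedy for largest coefficients. -/
def IsQGLC (L : ℝ) (q : X → ℝ) (x : ℕ → X) (xs : ℕ → X →ₗ[𝕂] 𝕂) : Prop :=
  ∀ (A : Finset ℕ) (e : ℕ → 𝕂), (∀ n ∈ A, ‖e n‖ = 1) →
    ∀ f : X, (∀ n : ℕ, ‖xs n f‖ ≤ 1) → (∀ n ∈ A, xs n f = 0) →
      q (∑ n ∈ A, e n • x n) ≤ L * q (∑ n ∈ A, e n • x n + f)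

/-- Truncation quasi-greedy. -/
def IsTQG (q : X → ℝ) (x : ℕ → X) (xs : ℕ → X →ₗ[𝕂] 𝕂) : Prop :=
  ∃ C : ℝ, ∀ f : X, ∀ A : Finset ℕ, A.Nonempty →
    (∀ n ∈ A, ∀ k : ℕ, k ∉ A → ‖xs k f‖ ≤ ‖xs n f‖) →
    ∀ t : ℝ, (∀ n ∈ A, t ≤ ‖xs n f‖) →
      t * q (∑ n ∈ A, (xs n f / ((‖xs n f‖ : ℝ) : 𝕂)) • x n) ≤ C * q f

end Pool.Agent.E7Iso
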