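import Mathlib
import Pool.Agent.MP_e7ec4f_an.IsoDefs
import Pool.Agent.MP_e7ec4f_an.C0Defs
import Pool.Agent.MP_e7ec4f_an.C0Mass

/-! A nearly unconditional basis of `c_0` that is not truncation quasi-greedy. -/

set_option autoImplicit false

namespace Pool.Agent.E7C0

open Finset Filter Pool.Agent.E7Iso

variable {𝕂 : Type} [RCLike 𝕂]

abbrev C0 (𝕂 : Type) [RCLike 𝕂] : Type := ZeroAtInftyContinuousMap ℕ 𝕂

/-- A finitely supported sequence as an element of `c_0`. -/
noncomputable def mk0 (g : ℕ → 𝕂) (hg : {r | g r ≠ 0}.Finite) : C0 𝕂 where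
  toFun := g
  continuous_toFun := continuous_of_discreteTopology
  zero_at_infty' := by
    rw [cocompact_eq_cofinite]
    refine tendsto_const_nhds.congr' ?_
    filter_upwards [hg.eventually_cofinite_notMem] with r hr
    exact (not_not.1 hr).symm

lemma mk0_apply (g : ℕ → 𝕂) (hg : {r | g r ≠ 0}.Finite) (r : ℕ) : mk0 g hg r = g r := rfl

lemma apply_le (f : C0 𝕂) (r : ℕ) : ‖f r‖ ≤ ‖f‖ := by
  rw [← ZeroAtInftyContinuousMap.norm_toBCF_eq_norm]
  exact f.toBCF.norm_coe_le_norm r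

lemma norm_le_of (f : C0 𝕂) {M : ℝ} (h : ∀ r, ‖f r‖ ≤ M) : ‖f‖ ≤ M := by
  rw [← ZeroAtInftyContinuousMap.norm_toBCF_eq_norm]
  exact (BoundedContinuousFunction.norm_le ((norm_nonneg _).trans (h 0))).2 h

def cf : C0 𝕂 →ₗ[𝕂] (ℕ → 𝕂) where
  toFun f := f
  map_add' _ _ := rfl
  map_smul' _ _ := rfl

lemma single_finite (n : ℕ) : {m | (Pi.single n (1 : 𝕂) : ℕ → 𝕂) m ≠ 0}.Finite :=
  (Set.finite_singleton n).subset fun m hm => by
    by_contra h
    exact hm (Pi.single_eq_of_ne h _)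

noncomputable def xv (n : ℕ) : C0 𝕂 :=
  mk0 (fun r => syn (blk r) (pos r) (Pi.single n (1 : 𝕂))) (syn_finite (single_finite n))

noncomputable def xf (n : ℕ) : C0 𝕂 →ₗ[𝕂] 𝕂 := (co n).comp cf

lemma sum_xv (A : Finset ℕ) (b : ℕ → 𝕂) (r : ℕ) :
    (∑ n ∈ A, b n • xv n : C0 𝕂) r = syn (blk r) (pos r) (fun n => if n ∈ A then b n else 0) := by
  have h1 : (fun n => if n ∈ A then b n else 0)
      = ∑ n ∈ A, b n • (Pi.single n (1 : 𝕂) : ℕ → 𝕂) := by
    funext m
    simp [Finset.sum_apply, Pi.single_apply]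
  rw [h1, map_sum]
  change cf (∑ n ∈ A, b n • xv n : C0 𝕂) r = _
  rw [map_sum, Finset.sum_apply]
  refine sum_congr rfl fun n _ => ?_
  rw [map_smul, map_smul]
  rfl

lemma rel_sum (A : Finset ℕ) (b : ℕ → 𝕂) :
    Rel (fun n => if n ∈ A then b n else 0) (∑ n ∈ A, b n • xv n : C0 𝕂) := by
  intro B w hw
  rw [sum_xv, blk_idx hw, pos_idx hw]

lemma rel_xf (f : C0 𝕂) : Rel (fun n => xf n f) f := rel_co f

lemma pos_zero_bound (A : Finset ℕ) (b : ℕ → 𝕂) (p : ℕ) (hA : ∀ n ∈ A, pos n = p)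
    (hb : ∀ n, ‖b n‖ ≤ 1) : ‖(∑ n ∈ A, b n • xv n : C0 𝕂)‖ ≤ 2 := by
  refine norm_le_of _ fun r => ?_
  rw [sum_xv]
  refine (row_bound _ (M := 1) (fun B => ?_) _ _).trans (by norm_num)
  have h1 : ∀ i ∈ range (4 ^ ex B), ‖if idx B i ∈ A then b (idx B i) else 0‖
      ≤ if i = p then 1 else 0 := by
    intro i hi
    by_cases h : idx B i ∈ A
    · rw [if_pos h, if_pos ((pos_idx (mem_range.1 hi)).symm.trans (hA _ h))]
      exact hb _
    · rw [if_neg h, norm_zero]; split_ifs <;> norm_num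
  refine (sum_le_sum h1).trans ?_
  rw [sum_ite_eq']
  split_ifs <;> norm_num

lemma mem_span (k : ℕ) : ∀ f : C0 𝕂, {r | f r ≠ 0}.Finite → (∀ r, f r ≠ 0 → ex (blk r) < k) →
    f ∈ Submodule.span 𝕂 (Set.range (xv : ℕ → C0 𝕂)) := by
  induction k with
  | zero =>
    intro f _ h
    have : f = 0 := by
      ext r
      by_contra hr
      exact absurd (h r hr) (Nat.not_lt_zero _)
    rw [this]; exact Submodule.zero_mem _
  | succ k ih =>
    intro f hf h
    set a : ℕ → 𝕂 := fun n => coA 0 (blk n) (pos n) f with ha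
    have h1 : ∀ n, a n ≠ 0 → ∃ r, f r ≠ 0 ∧ blk r = blk n := by
      intro n hn
      simp only [ha, coA_apply, LinearMap.zero_apply, ite_self, sub_zero] at hn
      obtain ⟨w, hw, hne⟩ := exists_ne_zero_of_sum_ne_zero hn
      exact ⟨_, right_ne_zero_of_mul hne, blk_idx (mem_range.1 hw)⟩
    have h2 : {n | a n ≠ 0}.Finite :=
      (fiber_finite _ (hf.image blk)).subset fun n hn => h1 n hn
    have h3 : (fun n => if n ∈ h2.toFinset then a n else 0) = a := by
      funext n
      by_cases hn : a n = 0 <;> simp [hn]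
    have h4 : ∀ r, (∑ n ∈ h2.toFinset, a n • xv n : C0 𝕂) r = syn (blk r) (pos r) a := by
      intro r; rw [sum_xv, h3]
    have h5 : ∀ r, syn (blk r) (pos r) a = f r + if pos r = 0 then inc (blk r) a else 0 := by
      intro r
      rw [syn_apply]
      congr 1
      have h6 := Had_inv (ex (blk r)) (pos r) (pos_lt r) (fun w => f (idx (blk r) w))
      rw [idx_blk] at h6
      rw [← h6]
      refine sum_congr rfl fun i hi => ?_
      simp only [ha, blk_idx (mem_range.1 hi), pos_idx (mem_range.1 hi), coA_apply,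
        LinearMap.zero_apply, ite_self, sub_zero]
    have h7 : (∑ n ∈ h2.toFinset, a n • xv n : C0 𝕂) - f
        ∈ Submodule.span 𝕂 (Set.range (xv : ℕ → C0 𝕂)) := by
      refine ih _ ((hf.union (syn_finite h2)).subset fun r hr => ?_) fun r hr => ?_
      · by_contra hc
        simp only [Set.mem_union, Set.mem_ofPred_eq, not_or, not_not] at hc
        apply hr
        rw [ZeroAtInftyContinuousMap.sub_apply, h4, hc.1, hc.2, sub_zero]
      · rw [ZeroAtInftyContinuousMap.sub_apply, h4, h5, add_sub_cancel_left] at hr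
        have h8 : inc (blk r) a ≠ 0 := by
          intro h0
          rw [h0, ite_self] at hr
          exact hr rfl
        obtain ⟨g, P, n, e1, e2, e3, e4⟩ := inc_ne_zero h8
        obtain ⟨r', e5, e6⟩ := h1 n e4
        have e7 := h r' e5
        rw [e6, e3] at e7
        have e8 := e2.ex_lt
        rw [e1]
        change g.2.2 < k
        omega
    have h9 : (∑ n ∈ h2.toFinset, a n • xv n : C0 𝕂)
        ∈ Submodule.span 𝕂 (Set.range (xv : ℕ → C0 𝕂)) :=
      Submodule.sum_mem _ fun n _ => Submodule.smul_mem _ _ (Submodule.subset_span ⟨n, rfl⟩)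
    have := Submodule.sub_mem _ h9 h7
    rwa [sub_sub_cancel] at this

lemma xf_xv (m n : ℕ) : xf m (xv n : C0 𝕂) = if m = n then 1 else 0 := by
  have := rel_unique (rel_syn (Pi.single n (1 : 𝕂))) m
  rw [Pi.single_apply] at this
  exact this

lemma norm_xf_le (n : ℕ) (f : C0 𝕂) : ‖xf n f‖ ≤ 2 * ‖f‖ := norm_co_le (apply_le f) n

lemma dense (f : C0 𝕂) (ε : ℝ) (hε : 0 < ε) :
    ∃ g ∈ Submodule.span 𝕂 (Set.range (xv : ℕ → C0 𝕂)), ‖f - g‖ < ε := by
  have h1 := f.zero_at_infty'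
  rw [cocompact_eq_cofinite, NormedAddGroup.tendsto_nhds_zero] at h1
  have h2 : {r | ¬ ‖f r‖ < ε / 2}.Finite := h1 (ε / 2) (half_pos hε)
  have h3 : {r | (if ‖f r‖ < ε / 2 then 0 else f r) ≠ 0}.Finite :=
    h2.subset fun r hr hlt => hr (if_pos hlt)
  obtain ⟨k, hk⟩ := (h3.image fun r => ex (blk r)).bddAbove
  refine ⟨mk0 _ h3, mem_span (k + 1) _ h3 fun r hr => Nat.lt_succ_of_le (hk ⟨r, hr, rfl⟩), ?_⟩
  refine lt_of_le_of_lt (norm_le_of _ fun r => ?_) (half_lt_self hε)
  rw [ZeroAtInftyContinuousMap.sub_apply, mk0_apply]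
  split_ifs with h
  · rw [sub_zero]; exact h.le
  · rw [sub_self, norm_zero]; exact (half_pos hε).le

lemma isBasis : IsBasis (fun f : C0 𝕂 => ‖f‖) xv xf := by
  refine ⟨⟨2, fun n => ?_⟩, ⟨2, norm_xf_le⟩, xf_xv, dense⟩
  have := pos_zero_bound {n} (fun _ => (1 : 𝕂)) (pos n) (by simp) (by simp)
  simpa using this

lemma total (f : C0 𝕂) (h : ∀ n, xf n f = 0) : f = 0 := by
  ext r
  have h1 := rel_xf f (blk r) (pos r) (pos_lt r)
  have h2 : (fun n => xf n f) = 0 := funext h
  rw [idx_blk, h2, map_zero] at h1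
  exact h1

lemma isNU : IsNU (fun f : C0 𝕂 => ‖f‖) xv xf := by
  intro α hα _
  obtain ⟨j, hj⟩ := pow_unbounded_of_one_lt α⁻¹ (by norm_num : (1 : ℝ) < 2)
  have hj' : 1 < 2 ^ j * α := by rwa [inv_eq_one_div, div_lt_iff₀ hα] at hj
  refine ⟨2 * (2048 * 512 ^ j), fun f hf A hA => norm_le_of _ fun r => ?_⟩
  rw [sum_xv, mul_assoc]
  refine row_bound _ (fun B => ?_) _ _
  have h1 : ∑ i ∈ range (4 ^ ex B), ‖if idx B i ∈ A then xf (idx B i) f else 0‖
      = ∑ i ∈ (range (4 ^ ex B)).filter (fun i => idx B i ∈ A), ‖xf (idx B i) f‖ := by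
    rw [sum_filter]
    exact sum_congr rfl fun i _ => by split_ifs <;> simp
  rw [h1]
  set T := (range (4 ^ ex B)).filter (fun i => idx B i ∈ A) with hT
  rcases T.eq_empty_or_nonempty with he | hne
  · rw [he, sum_empty]; positivity
  · refine mass (rel_xf f) (apply_le f) hf j B T (filter_subset _ _) ?_
    have h2 := card_nsmul_le_sum T (fun i => ‖xf (idx B i) f‖) α
      fun i hi => hA _ (mem_filter.1 hi).2
    rw [nsmul_eq_mul] at h2
    have h3 : (0 : ℝ) < T.card := by exact_mod_cast hne.card_pos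
    have h4 : (0 : ℝ) < 2 ^ j := by positivity
    nlinarith [mul_le_mul_of_nonneg_left h2 h4.le]

lemma large_finite (f : C0 𝕂) (t : ℝ) (ht : 0 < t) : {n | t ≤ ‖xf n f‖}.Finite := by
  obtain ⟨g, hg, hfg⟩ := dense f (t / 2) (half_pos ht)
  have h1 : {n | xf n g ≠ 0}.Finite := by
    clear hfg
    induction hg using Submodule.span_induction with
    | mem y hy =>
      obtain ⟨m, rfl⟩ := hy
      refine (Set.finite_singleton m).subset fun n hn => ?_
      by_contra h
      exact hn (by rw [xf_xv]; exact if_neg h)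
    | zero => simp
    | add y z _ _ hy hz =>
      refine (hy.union hz).subset fun n hn => ?_
      by_contra hc
      simp only [Set.mem_union, Set.mem_ofPred_eq, not_or, not_not] at hc
      exact hn (by rw [map_add, hc.1, hc.2, add_zero])
    | smul c y _ hy =>
      refine hy.subset fun n hn h0 => hn ?_
      rw [map_smul, h0, smul_zero]
  refine h1.subset fun n hn h0 => ?_
  have h2 := norm_xf_le n (f - g)
  rw [map_sub, h0, sub_zero] at h2
  have h3 : t ≤ ‖xf n f‖ := hn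
  linarith

/-- The root block of size `4 ^ k`. -/
def root (k : ℕ) : Bl := [(∅, ∅, k)]

lemma cc_root (k : ℕ) (f : ℕ → 𝕂) : cc (root k) f = 0 := by
  simp only [root, cc, LinearMap.sum_apply, LinearMap.smul_apply, smul_eq_mul]
  refine sum_eq_zero fun j _ => ?_
  unfold pat
  rw [if_neg (fun h => absurd h.2 (notMem_empty _))]; simp

lemma not_isTQG : ¬ IsTQG (fun f : C0 𝕂 => ‖f‖) xv xf := by
  classical
  rintro ⟨C, hC⟩
  obtain ⟨k, hk⟩ := pow_unbounded_of_one_lt (|C| * (2048 * 512 ^ 1)) (by norm_num : (1 : ℝ) < 2)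
  have hfin : {r | (if blk r = root k then (1 : 𝕂) else 0) ≠ 0}.Finite :=
    (fiber_finite _ (Set.finite_singleton (root k))).subset fun r hr => by
      by_contra h
      exact hr (if_neg h)
  set f : C0 𝕂 := mk0 _ hfin with hf
  have hf1 : ‖f‖ ≤ 1 := norm_le_of _ fun r => by
    rw [hf, mk0_apply]; split_ifs <;> simp
  have h4 : (4 : ℝ) ^ k = 2 ^ k * 2 ^ k := by rw [← mul_pow]; norm_num
  have hp : (0 : ℝ) < 2 ^ k := by positivity
  have hco : ∀ i < 4 ^ ex (root k), ‖xf (idx (root k) i) f‖ = (2 ^ k)⁻¹ := by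
    intro i hi
    change ‖co (idx (root k) i) f‖ = _
    rw [co_idx hi, coA_apply]
    have h1 : ∀ w ∈ range (4 ^ ex (root k)),
        ((Had (ex (root k)) i w / 4 ^ ex (root k) : ℝ) : 𝕂) *
          (f (idx (root k) w) - if w = 0 then cc (root k) f else 0)
        = ((Had k i w / 4 ^ k : ℝ) : 𝕂) := by
      intro w hw
      rw [cc_root, ite_self, sub_zero, hf, mk0_apply, if_pos (blk_idx (mem_range.1 hw)), mul_one]
      rfl
    rw [sum_congr rfl h1, ← RCLike.ofReal_sum, ← sum_div, RCLike.norm_ofReal]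
    change |(∑ w ∈ range (4 ^ k), Had k i w) / 4 ^ k| = _
    rw [Had_rowsum, h4, abs_of_pos (by positivity)]
    field_simp
  have ht : (0 : ℝ) < (2 ^ k)⁻¹ := by positivity
  set A := (large_finite f _ ht).toFinset with hA
  have hmem : ∀ n, n ∈ A ↔ (2 ^ k : ℝ)⁻¹ ≤ ‖xf n f‖ := fun n => by
    rw [hA, Set.Finite.mem_toFinset]; rfl
  have hin : ∀ i < 4 ^ ex (root k), idx (root k) i ∈ A := fun i hi => (hmem _).2 (hco i hi).ge
  have h1 := hC f A ⟨_, hin 0 (by positivity)⟩
    (fun n hn m hm => ((not_le.1 fun h => hm ((hmem m).2 h)).le).trans ((hmem n).1 hn))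
    _ (fun n hn => (hmem n).1 hn)
  have hs : ∀ n ∈ A, ‖xf n f / ((‖xf n f‖ : ℝ) : 𝕂)‖ = 1 := by
    intro n hn
    have := ht.trans_le ((hmem n).1 hn)
    rw [norm_div, RCLike.norm_ofReal, abs_norm, div_self this.ne']
  have h2 : ∑ i ∈ range (4 ^ ex (root k)), ‖if idx (root k) i ∈ A then
      xf (idx (root k) i) f / ((‖xf (idx (root k) i) f‖ : ℝ) : 𝕂) else 0‖ = 4 ^ k := by
    rw [sum_congr rfl fun i hi => by
      rw [if_pos (hin i (mem_range.1 hi)), hs _ (hin i (mem_range.1 hi))]]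
    simp [root, ex]
  have h3 := mass (rel_sum A fun n => xf n f / ((‖xf n f‖ : ℝ) : 𝕂)) (apply_le _)
    (fun n => by
      split_ifs with hn
      · exact (hs n hn).le
      · simp) 1 (root k) _ (Subset.refl _) (by
      rw [h2, card_range]
      change ((4 ^ k : ℕ) : ℝ) < _
      push_cast
      nlinarith [mul_pos hp hp])
  rw [h2, h4] at h3
  rw [inv_mul_le_iff₀ hp] at h1
  have h5 : C * ‖f‖ ≤ |C| :=
    (mul_le_mul_of_nonneg_right (le_abs_self C) (norm_nonneg _)).trans
      (mul_le_of_le_one_right (abs_nonneg C) hf1)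
  nlinarith [mul_le_mul_of_nonneg_left h5 hp.le, mul_lt_mul_of_pos_left hk hp]

lemma ell_one (m : ℕ) : ∃ A : Finset ℕ, A.card = m ∧ ∀ b : ℕ → 𝕂,
    1 / 256 * ∑ n ∈ A, ‖b n‖ ≤ ‖(∑ n ∈ A, b n • xv n : C0 𝕂)‖ := by
  have hT : range m ⊆ range (4 ^ ex (root m)) :=
    range_subset_range.2 (Nat.lt_pow_self (by norm_num)).le
  have hinj : Set.InjOn (idx (root m)) (range m) := fun i hi j hj h => by
    rw [← pos_idx (mem_range.1 (hT hi)), h, pos_idx (mem_range.1 (hT hj))]
  refine ⟨(range m).image (idx (root m)), by rw [card_image_of_injOn hinj, card_range],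
    fun b => ?_⟩
  set A := (range m).image (idx (root m)) with hA
  have h1 : ∑ n ∈ A, ‖b n‖
      = ∑ i ∈ range m, ‖if idx (root m) i ∈ A then b (idx (root m) i) else 0‖ := by
    rw [hA, sum_image hinj]
    exact sum_congr rfl fun i hi => by rw [if_pos (mem_image_of_mem _ hi)]
  have h0 := norm_nonneg (∑ n ∈ A, b n • xv n : C0 𝕂)
  rw [h1]
  rcases lt_or_ge (range m).card 1024 with hc | hc
  · have := small_mass (rel_sum A b) (apply_le _) (root m) _ hT hc
    linarith
  · obtain ⟨g, _, hg⟩ := child (rel_sum A b) (apply_le _) (root m) _ hT hc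
    have h2 : ∑ i ∈ range (4 ^ g.2.2),
        ‖if idx (g :: root m) i ∈ A then b (idx (g :: root m) i) else 0‖ = 0 := by
      refine sum_eq_zero fun i hi => ?_
      rw [if_neg, norm_zero]
      intro hm
      obtain ⟨j, hj, e⟩ := mem_image.1 hm
      have e2 := congrArg blk e
      rw [blk_idx (mem_range.1 (hT hj)), blk_idx (B := g :: root m) (mem_range.1 hi)] at e2
      exact List.cons_ne_self _ _ e2.symm
    rw [h2] at hg
    linarith

lemma c_zero (m : ℕ) : ∃ A : Finset ℕ, A.card = m ∧ ∀ b : ℕ → 𝕂, (∀ n, ‖b n‖ ≤ 1) →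
    ‖(∑ n ∈ A, b n • xv n : C0 𝕂)‖ ≤ 2 := by
  have hinj : Function.Injective fun k => idx (root k) 0 := fun i j h => by
    have e := congrArg blk h
    simp only [blk_idx (i := 0) (by positivity)] at e
    simpa [root] using e
  refine ⟨(range m).image fun k => idx (root k) 0, by rw [card_image_of_injective _ hinj,
    card_range], fun b hb => pos_zero_bound _ b 0 (fun n hn => ?_) hb⟩
  obtain ⟨k, _, rfl⟩ := mem_image.1 hn
  exact pos_idx (by positivity)

end Pool.Agent.E7C0
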