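import Mathlib
import Pool.Agent.MP_e7ec4f_an.Block

/-! Existence of the parameters, and cutting a block at a leaf. -/

namespace Pool.Agent.MP_e7ec4f_an

open Finset

theorem exists_par {ψ : ℝ → ℝ} (h1 : ∀ a ∈ Set.Ioc (0 : ℝ) 1, 1 ≤ ψ a)
    (h2 : AntitoneOn ψ (Set.Ioc 0 1)) (h3 : ¬ BddAbove (ψ '' Set.Ioc 0 1)) {C : ℝ}
    (h4 : ∀ a ∈ Set.Ioc (0 : ℝ) 1, ∀ b ∈ Set.Ioc (0 : ℝ) 1, ψ (a * b) ≤ C * ψ a * ψ b) :
    Nonempty (Par ψ) := by
  have hm : ∀ j : ℕ, (1 / 2 : ℝ) ^ j ∈ Set.Ioc (0 : ℝ) 1 := fun j =>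
    ⟨by positivity, pow_le_one₀ (by norm_num) (by norm_num)⟩
  have hone : (1 : ℝ) ∈ Set.Ioc (0 : ℝ) 1 := by simp
  have hp := h1 1 hone
  have hC : 0 < C := by
    have := h4 1 hone 1 hone
    rw [mul_one] at this
    by_contra! h
    nlinarith [mul_nonneg_of_nonpos_of_nonpos h (neg_nonpos.2 (mul_self_nonneg (ψ 1)))]
  obtain ⟨b, hb⟩ := pow_unbounded_of_one_lt (C * ψ (1 / 2) + 1) (one_lt_two (α := ℝ))
  have hh := h1 (1 / 2) (by norm_num)
  have hb0 : b ≠ 0 := by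
    rintro rfl
    rw [pow_zero] at hb
    nlinarith
  have hB : (2 : ℝ) ≤ 2 ^ b := le_self_pow₀ one_le_two hb0
  have hex : ∀ i : ℕ, ∃ j : ℕ, (2 ^ b) ^ i * ψ 1 ≤ ψ ((1 / 2) ^ j) := fun i => by
    obtain ⟨_, ⟨a, ha, rfl⟩, h⟩ := not_bddAbove_iff.1 h3 ((2 ^ b) ^ i * ψ 1)
    obtain ⟨j, hj⟩ := exists_pow_lt_of_lt_one ha.1 (show (1 / 2 : ℝ) < 1 by norm_num)
    exact ⟨j, h.le.trans (h2 (hm j) ha hj.le)⟩
  classical
  set j : ℕ → ℕ := fun i => Nat.find (hex i) with hj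
  have j1 : ∀ i, (2 ^ b) ^ i * ψ 1 ≤ ψ ((1 / 2) ^ j i) := fun i => Nat.find_spec (hex i)
  have j2 : ∀ i, ψ ((1 / 2) ^ j i) < (2 ^ b) ^ (i + 1) * ψ 1 := fun i => by
    have h5 : (1 : ℝ) ≤ (2 ^ b) ^ i := one_le_pow₀ (by linarith)
    rcases hk : j i with _ | k
    · rw [pow_zero, pow_succ]
      nlinarith [mul_le_mul h5 hB zero_le_two (by linarith)]
    · have h6 := not_le.1 (Nat.find_min (hex i) (show k < j i by omega))
      have h7 := h4 _ (hm k) (1 / 2) (by norm_num)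
      have h8 := h1 _ (hm k)
      rw [pow_succ, pow_succ]
      nlinarith [mul_lt_mul'' h6 (show C * ψ (1 / 2) < 2 ^ b by linarith) (by linarith)
        (by positivity)]
  have ha : ∀ {x y : ℕ}, x ≤ y → (1 / 2 : ℝ) ^ y ≤ (1 / 2) ^ x := fun h =>
    pow_le_pow_of_le_one (by norm_num) (by norm_num) h
  have j3 : StrictMono j := strictMono_nat_of_lt_succ fun i => by
    by_contra! h
    exact absurd ((j1 (i + 1)).trans (h2 (hm _) (hm _) (ha h))) (not_le.2 (j2 i))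
  have j0 : j 0 = 0 := (Nat.find_eq_zero _).2 (by simp)
  have hq := h1 (1 / 4) (by norm_num)
  have hb1 : (1 : ℝ) ≤ b := by exact_mod_cast Nat.one_le_iff_ne_zero.2 hb0
  have hx : 1 / (4 * (b : ℝ) + 4) ≤ 1 / 4 := one_div_le_one_div_of_le (by norm_num) (by linarith)
  have hx0 : 0 < 1 / (4 * (b : ℝ) + 4) := by positivity
  refine ⟨⟨1 - 1 / (4 * b + 4), 2 ^ b, C ^ 2 * ψ (1 / 4) * 2 ^ b + (2 ^ b) ^ 2 * ψ 1,
    fun i => (1 / 2) ^ j i, fun i => j i + b * i, by linarith, by linarith, hB, by positivity,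
    fun i => (hm _).1, fun i => (hm _).2, fun x y h => ha (j3.monotone h),
    fun x y h => add_lt_add_of_lt_of_le (j3 h) (Nat.mul_le_mul_left _ h.le), fun i => ?_,
    fun i => ?_, fun a ha' i i' h => ?_, fun a ha' => ?_⟩⟩
  · rw [pow_add, ← mul_assoc, ← mul_pow, pow_mul]
    norm_num
  · have h5 : (1 / 2 : ℝ) ≤ (1 - 1 / (4 * b + 4)) ^ (2 * b + 2) := by
      refine le_trans (le_of_eq ?_) (one_add_mul_le_pow (a := -(1 / (4 * (b : ℝ) + 4)))
        (by linarith) (2 * b + 2)) |>.trans (le_of_eq (by rw [sub_eq_add_neg]))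
      push_cast
      field_simp
      ring
    have hs : (0 : ℝ) < 1 - 1 / (4 * b + 4) := by linarith
    have h6 : ((1 - 1 / (4 * (b : ℝ) + 4))⁻¹) ^ (2 * b + 2) ≤ 2 := by
      rw [inv_pow, inv_le_comm₀ (by positivity) two_pos]
      linarith
    have h7 : (((1 - 1 / (4 * (b : ℝ) + 4))⁻¹) ^ (j i + b * i)) ^ 2 ≤ 2 ^ j i := by
      rw [← pow_mul]
      refine (pow_le_pow_right₀ (one_le_inv_iff₀.2 ⟨hs, by linarith⟩)
        (show _ ≤ (2 * b + 2) * j i by nlinarith [j3.le_apply (x := i)])).trans ?_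
      rw [pow_mul]
      exact pow_le_pow_left₀ (by positivity) h6 _
    rw [mul_pow]
    refine (mul_le_mul_of_nonneg_left h7 (sq_nonneg _)).trans
      (le_trans (le_of_eq ?_) (ha (j3.le_apply (x := i))))
    rw [sq, mul_assoc, ← mul_pow]
    norm_num
  · have h5 : a * (1 / 4) ∈ Set.Ioc (0 : ℝ) 1 := ⟨by linarith [ha'.1], by linarith [ha'.2]⟩
    have h6 := h2 ⟨mul_pos h5.1 (hm (j i)).1, mul_le_one₀ h5.2 (hm _).1.le (hm _).2⟩ (hm (j i'))
      (by simpa [div_eq_mul_inv] using h.le)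
    have h7 := h4 _ h5 _ (hm (j i))
    have h8 := h4 a ha' (1 / 4) (by norm_num)
    have h9 := h1 a ha'
    have h10 := mul_le_mul h8 (j2 i).le (by linarith [h1 _ (hm (j i))]) (by positivity)
    have h11 : (2 ^ b) ^ i' ≤ C ^ 2 * ψ (1 / 4) * 2 ^ b * ψ a * (2 ^ b) ^ i := by
      refine le_of_mul_le_mul_right ((j1 i').trans (h6.trans (h7.trans ?_))) (by linarith)
      rw [pow_succ] at h10
      nlinarith [mul_le_mul_of_nonneg_left h10 hC.le]
    have : (0 : ℝ) ≤ (2 ^ b) ^ 2 * ψ 1 * ψ a * (2 ^ b) ^ i := by positivity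
    linarith
  · have hex2 : ∃ K, (1 / 2 : ℝ) ^ j K < a := by
      obtain ⟨n, hn⟩ := exists_pow_lt_of_lt_one ha'.1 (show (1 / 2 : ℝ) < 1 by norm_num)
      exact ⟨n, (ha j3.le_apply).trans_lt hn⟩
    rcases hk : Nat.find hex2 with _ | K
    · have := Nat.find_spec hex2
      rw [hk, j0, pow_zero] at this
      exact absurd ha'.2 (not_le.2 this)
    · have h5 := Nat.find_spec hex2
      rw [hk] at h5
      refine ⟨K, not_lt.1 (Nat.find_min hex2 (show K < _ by omega)),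
        (h2 (hm _) ha' h5.le).trans ((j2 _).le.trans ?_)⟩
      have : (0 : ℝ) ≤ C ^ 2 * ψ (1 / 4) * 2 ^ b * (2 ^ b) ^ K := by positivity
      rw [pow_succ, pow_succ]
      linarith

variable {𝕂 : Type} [RCLike 𝕂] {ψ : ℝ → ℝ} (P : Par ψ)

theorem tau_congr (s : ℝ) {δ δ' : ℕ → ℕ → 𝕂} {D : ℕ}
    (h : ∀ e ≤ D, ∀ m < 4 ^ e, δ e m = δ' e m) (e : ℕ) (he : e ≤ D) :
    ∀ m < 4 ^ e, tau s δ e m = tau s δ' e m := by
  induction e with
  | zero => exact h 0 he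
  | succ e ih =>
    intro m hm
    rw [tau, tau, h _ he m hm, ih (by omega) _ (by rw [pow_succ] at hm; omega)]

theorem Par.tau_le (δ : ℕ → ℕ → 𝕂) {L : ℝ} (h : ∀ e m, ‖δ e m‖ ≤ L) (e : ℕ) :
    ∀ m, (1 - P.s) * ‖tau P.s δ e m‖ ≤ P.s⁻¹ ^ e * L := by
  have hs := P.spos
  have hs1 := P.s1
  induction e with
  | zero =>
    intro m
    rw [tau, pow_zero, one_mul]
    nlinarith [h 0 m, norm_nonneg (δ 0 m)]
  | succ e ih =>
    intro m
    have h1 := norm_add_le (tau P.s δ e (m / 4)) (((P.s⁻¹ ^ (e + 1) : ℝ) : 𝕂) * δ (e + 1) m)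
    rw [norm_mul, RCLike.norm_ofReal, abs_of_pos (by positivity)] at h1
    have h2 := mul_le_mul_of_nonneg_left (h (e + 1) m) (show 0 ≤ P.s⁻¹ ^ (e + 1) by positivity)
    have h3 : P.s⁻¹ ^ e = P.s * P.s⁻¹ ^ (e + 1) := by rw [pow_succ]; field_simp
    have h4 := ih (m / 4)
    rw [tau]
    rw [h3] at h4
    nlinarith

theorem Par.cs1 (i : ℕ) : P.c i * P.s⁻¹ ^ P.d i ≤ 1 := by
  have := (P.cs i).trans (pow_le_one₀ (by norm_num) (by norm_num))
  nlinarith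

theorem Par.phi_le (δ r : ℕ → ℕ → 𝕂) {L : ℝ} (h : ∀ e m, ‖δ e m‖ ≤ L) (h' : ∀ e m, ‖r e m‖ ≤ L)
    (i m : ℕ) : ‖P.phi δ r i m‖ ≤ (1 + (1 - P.s)⁻¹) * L := by
  have hs1 : 0 < 1 - P.s := by linarith [P.s1]
  have hL : 0 ≤ L := (norm_nonneg _).trans (h 0 0)
  refine (norm_add_le _ _).trans ?_
  rw [add_mul, one_mul, norm_mul, RCLike.norm_ofReal, abs_of_pos (P.c0 i)]
  refine add_le_add (h' i m) ?_
  rw [le_inv_mul_iff₀ hs1]
  nlinarith [mul_le_mul_of_nonneg_left (P.tau_le δ h (P.d i) m) (P.c0 i).le,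
    mul_le_mul_of_nonneg_right (P.cs1 i) hL]

theorem Par.hardy (δ : ℕ → ℕ → 𝕂) (β : ℕ → ℕ) (D : ℕ) (hβ : ∀ e < D, β (e + 1) / 4 = β e) :
    (1 - P.s) ^ 2 * ∑ e ∈ range (D + 1), (P.s ^ e * ‖tau P.s δ e (β e)‖) ^ 2 +
      (1 - P.s) * P.s * (P.s ^ D * ‖tau P.s δ D (β D)‖) ^ 2 ≤
      ∑ e ∈ range (D + 1), ‖δ e (β e)‖ ^ 2 := by
  have hs := P.spos
  have hs1 := P.s1
  induction D with
  | zero =>
    simp only [zero_add, range_one, sum_singleton, pow_zero, one_mul, tau]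
    nlinarith [sq_nonneg ‖δ 0 (β 0)‖]
  | succ D ih =>
    have h1 := ih fun e he => hβ e (by omega)
    rw [sum_range_succ _ (D + 1), sum_range_succ _ (D + 1)]
    have h2 : P.s ^ (D + 1) * ‖tau P.s δ (D + 1) (β (D + 1))‖ ≤
        P.s * (P.s ^ D * ‖tau P.s δ D (β D)‖) + ‖δ (D + 1) (β (D + 1))‖ := by
      rw [tau, hβ D (by omega)]
      refine (mul_le_mul_of_nonneg_left (norm_add_le _ _) (by positivity)).trans (le_of_eq ?_)
      rw [norm_mul, RCLike.norm_ofReal, abs_of_pos (by positivity), inv_pow]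
      field_simp
      ring
    have h3 := mul_le_mul_of_nonneg_left (pow_le_pow_left₀ (by positivity) h2 2)
      (show 0 ≤ 1 - P.s by linarith)
    nlinarith [mul_nonneg hs.le (sq_nonneg ((1 - P.s) * (P.s ^ D * ‖tau P.s δ D (β D)‖) -
      ‖δ (D + 1) (β (D + 1))‖))]

/-- the increments of the martingale that is cut along the branch `β` -/
noncomputable def cutd (s : ℝ) (δ : ℕ → ℕ → 𝕂) (β : ℕ → ℕ) : ℕ → ℕ → 𝕂
  | 0, m => if m ≤ β 0 then δ 0 m else 0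
  | e + 1, m => if m ≤ β (e + 1) then δ (e + 1) m else
      if m / 4 ≤ β e then -((s ^ (e + 1) : ℝ) : 𝕂) * tau s δ e (m / 4) else 0

theorem tau_cutd {s : ℝ} (hs : 0 < s) (δ : ℕ → ℕ → 𝕂) (β : ℕ → ℕ) {D : ℕ}
    (hβ : ∀ e < D, β (e + 1) / 4 = β e) (e : ℕ) (he : e ≤ D) :
    ∀ m, tau s (cutd s δ β) e m = if m ≤ β e then tau s δ e m else 0 := by
  induction e with
  | zero => exact fun m => rfl
  | succ e ih =>
    intro m
    have h1 := hβ e he
    rw [tau, ih (by omega), cutd, tau]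
    split_ifs with h2 h3 h3
    · rfl
    · rw [← mul_assoc, mul_neg, ← RCLike.ofReal_mul, ← mul_pow, inv_mul_cancel₀ hs.ne']
      simp
    · omega
    · simp

theorem Par.cut (K p : ℕ) (hp : p < 4 ^ P.d K) (δ r : ℕ → ℕ → 𝕂) (I : ℕ → ℕ → Prop)
    [∀ i m, Decidable (I i m)] (h1 : ∀ i ≤ K, ∀ m, m < p / 4 ^ (P.d K - P.d i) → I i m)
    (h2 : ∀ i ≤ K, ∀ m < 4 ^ P.d i, p / 4 ^ (P.d K - P.d i) < m → ¬ I i m) :
    ∃ δ' r' : ℕ → ℕ → 𝕂, (∀ i m, P.phi δ' r' i m = if I i m then P.phi δ r i m else 0) ∧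
      P.nb K δ' r' ≤ (1 + 6 * ((1 - P.s) ^ 2)⁻¹) * P.nb K δ r := by
  have hs := P.spos
  have hs1 : 0 < 1 - P.s := by linarith [P.s1]
  set β : ℕ → ℕ := fun e => p / 4 ^ (P.d K - e) with hβd
  have hβ : ∀ e < P.d K, β (e + 1) / 4 = β e := fun e he => div_step p he
  have hβ' : ∀ e ≤ P.d K, β e < 4 ^ e := fun e he => by
    rw [hβd, Nat.div_lt_iff_lt_mul (by positivity), ← pow_add, Nat.add_sub_cancel' he]
    exact hp
  refine ⟨cutd P.s δ β, fun i m => (if I i m then P.phi δ r i m else 0) -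
    (P.c i : 𝕂) * tau P.s (cutd P.s δ β) (P.d i) m, fun i m => sub_add_cancel _ _, ?_⟩
  set a : ℕ → ℝ := fun e => (P.s ^ e * ‖tau P.s δ e (β e)‖) ^ 2 with ha
  set H := ∑ e ∈ range (P.d K + 1), a e with hH
  have ha0 : ∀ e, 0 ≤ a e := fun e => sq_nonneg _
  have h3 : H ≤ ((1 - P.s) ^ 2)⁻¹ * P.nb K δ r := by
    rw [le_inv_mul_iff₀ (by positivity)]
    refine le_trans (le_add_of_nonneg_right (by positivity)) ((P.hardy δ β _ hβ).trans ?_)
    refine le_trans (sum_le_sum fun e he => ?_) (le_add_of_nonneg_right (by positivity))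
    exact single_le_sum (f := fun m => ‖δ e m‖ ^ 2) (fun _ _ => by positivity)
      (mem_range.2 (hβ' e (Nat.lt_succ_iff.1 (mem_range.1 he))))
  have h4 : ∑ e ∈ range (P.d K + 1), ∑ m ∈ range (4 ^ e), ‖cutd P.s δ β e m‖ ^ 2 ≤
      ∑ e ∈ range (P.d K + 1), ∑ m ∈ range (4 ^ e), ‖δ e m‖ ^ 2 + 4 * H := by
    rw [hH, sum_range_succ a, sum_range_succ', sum_range_succ', mul_add, mul_sum,
      add_add_add_comm, ← sum_add_distrib]
    refine add_le_add (sum_le_sum fun e he => ?_) ?_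
    · have h5 := sum_div4 (fun m => if m = β e then a e else 0) (4 ^ e) 1
      rw [pow_one, ← pow_succ, sum_ite_eq', if_pos (mem_range.2 (hβ' e (mem_range.1 he).le)),
        pow_one] at h5
      rw [← h5, ← sum_add_distrib]
      refine sum_le_sum fun m _ => ?_
      have h6 := hβ e (mem_range.1 he)
      rw [cutd]
      split_ifs with h7 h8 h8 h9 h9
      · linarith [ha0 e]
      · linarith
      · rw [h9, norm_mul, norm_neg, RCLike.norm_ofReal, abs_of_pos (by positivity),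
          pow_succ' P.s e, mul_assoc, mul_pow]
        have : P.s ^ 2 ≤ 1 := by nlinarith
        nlinarith [sq_nonneg ‖δ (e + 1) m‖, ha0 e]
      · omega
      · simpa using add_nonneg (sq_nonneg _) (ha0 e)
      · simp
    · simp only [pow_zero, range_one, sum_singleton, cutd, Nat.zero_le, if_true]
      linarith [ha0 (P.d K)]
  have h5 : ∑ i ∈ range (K + 1), ∑ m ∈ range (4 ^ P.d i), ‖(if I i m then P.phi δ r i m else 0) -
      (P.c i : 𝕂) * tau P.s (cutd P.s δ β) (P.d i) m‖ ^ 2 ≤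
      ∑ i ∈ range (K + 1), ∑ m ∈ range (4 ^ P.d i), ‖r i m‖ ^ 2 + H * 2 := by
    have hH0 : 0 ≤ H := sum_nonneg fun e _ => ha0 e
    refine le_trans ?_ (add_le_add_right (mul_le_mul_of_nonneg_left (geo_half (K + 1)) hH0) _)
    rw [mul_sum, ← sum_add_distrib]
    refine sum_le_sum fun i hi => ?_
    have hi' := Nat.lt_succ_iff.1 (mem_range.1 hi)
    have hd := P.mono.monotone hi'
    have h6 := sum_ite_eq' (range (4 ^ P.d i)) (β (P.d i)) fun _ => H * (1 / 2) ^ i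
    rw [if_pos (mem_range.2 (hβ' _ hd))] at h6
    rw [← h6, ← sum_add_distrib]
    refine sum_le_sum fun m hm => ?_
    rw [tau_cutd hs δ β hβ _ hd]
    have h7 : (0 : ℝ) ≤ if m = β (P.d i) then H * (1 / 2) ^ i else 0 := by positivity
    by_cases h8 : I i m
    · rw [if_pos h8, if_pos (not_lt.1 fun h => h2 i hi' m (mem_range.1 hm) h h8), Par.phi,
        add_sub_cancel_right]
      linarith
    · rcases (not_lt.1 fun h => h8 (h1 i hi' m h)).eq_or_lt with h9 | h9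
      · rw [if_neg h8, if_pos h9.ge, if_pos h9.symm, zero_sub, norm_neg, norm_mul,
          RCLike.norm_ofReal, abs_of_pos (P.c0 i), ← h9]
        have h10 : a (P.d i) ≤ H := single_le_sum (fun e _ => ha0 e)
          (mem_range.2 (Nat.lt_succ_of_le hd))
        have h11 := mul_le_mul h10 (P.cs i) (sq_nonneg _) hH0
        have h12 : a (P.d i) * (P.c i * P.s⁻¹ ^ P.d i) ^ 2 =
            (P.c i * ‖tau P.s δ (P.d i) (β (P.d i))‖) ^ 2 := by
          rw [ha, inv_pow]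
          field_simp
        rw [h12] at h11
        exact h11.trans (le_add_of_nonneg_left (sq_nonneg _))
      · rw [if_neg h8, if_neg (not_le.2 h9)]
        simpa using add_nonneg (sq_nonneg _) h7
  unfold Par.nb at h3 ⊢
  linarith

end Pool.Agent.MP_e7ec4f_an
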