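import Mathlib.Analysis.RCLike.Basic
import Mathlib.LinearAlgebra.Span.Defs
import Mathlib.Algebra.Module.LinearMap.Defs
import Mathlib.Algebra.BigOperators.Group.Finset.Basic

/-!
Bases of quasi-Banach spaces, their threshold constants, and truncation quasi-greediness.
-/

namespace Pool.Agent.MP_e7ec4f_an

variable {𝕂 X : Type} [RCLike 𝕂] [AddCommGroup X] [Module 𝕂 X]

/-- `q` is a complete quasi-norm on `X`, and `x` is a bounded sequence with dense span and with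
the bounded sequence `xs` of biorthogonal functionals. -/
structure IsBasis (q : X → ℝ) (x : ℕ → X) (xs : ℕ → X →ₗ[𝕂] 𝕂) : Prop where
  nonneg : ∀ f, 0 ≤ q f
  eq_zero : ∀ f, q f = 0 → f = 0
  smul : ∀ (c : 𝕂) (f : X), q (c • f) = ‖c‖ * q f
  add : ∃ κ : ℝ, ∀ f g, q (f + g) ≤ κ * (q f + q g)
  complete : ∀ u : ℕ → X, (∀ ε : ℝ, 0 < ε → ∃ N : ℕ, ∀ m ≥ N, ∀ n ≥ N, q (u m - u n) < ε) →
    ∃ f : X, ∀ ε : ℝ, 0 < ε → ∃ N : ℕ, ∀ n ≥ N, q (u n - f) < ε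
  bdd : ∃ B : ℝ, ∀ n, q (x n) ≤ B
  bdd_dual : ∃ M : ℝ, ∀ n f, ‖xs n f‖ ≤ M * q f
  biorth : ∀ m n, xs m (x n) = if m = n then 1 else 0
  dense : ∀ (f : X) (ε : ℝ), 0 < ε → ∃ g ∈ Submodule.span 𝕂 (Set.range x), q (f - g) < ε

/-- `C` is an admissible constant at the threshold `a`: `q (S_A f) ≤ C q f` whenever all
coefficients of `f` have modulus at most one and those in `A` have modulus at least `a`. -/
def Thr (q : X → ℝ) (x : ℕ → X) (xs : ℕ → X →ₗ[𝕂] 𝕂) (a C : ℝ) : Prop :=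
  ∀ f : X, (∀ n, ‖xs n f‖ ≤ 1) → ∀ A : Finset ℕ, (∀ n ∈ A, a ≤ ‖xs n f‖) →
    q (∑ n ∈ A, xs n f • x n) ≤ C * q f

/-- The basis is nearly unconditional and its least constants `C(a)` lie between `ψ a / C` and
`C * ψ a`. -/
def HasThreshold (q : X → ℝ) (x : ℕ → X) (xs : ℕ → X →ₗ[𝕂] 𝕂) (ψ : ℝ → ℝ) : Prop :=
  ∃ C : ℝ, 0 < C ∧ ∀ a ∈ Set.Ioc (0 : ℝ) 1, Thr q x xs a (C * ψ a) ∧ ¬ Thr q x xs a (ψ a / C)

/-- Truncation quasi-greedy. -/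
def IsTQG (q : X → ℝ) (x : ℕ → X) (xs : ℕ → X →ₗ[𝕂] 𝕂) : Prop :=
  ∃ C : ℝ, ∀ (f : X) (A : Finset ℕ), A.Nonempty →
    (∀ n ∈ A, ∀ k, k ∉ A → ‖xs k f‖ ≤ ‖xs n f‖) → ∀ t : ℝ, (∀ n ∈ A, t ≤ ‖xs n f‖) →
      t * q (∑ n ∈ A, (xs n f / ((‖xs n f‖ : ℝ) : 𝕂)) • x n) ≤ C * q f

end Pool.Agent.MP_e7ec4f_an
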