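import Mathlib

/-! A forest on the natural numbers whose natural order is a depth first order. -/

set_option autoImplicit false

namespace Pool.Agent.E7Iso

open Finset

/-- `Edge B v w`: `v` is the parent of `w`. -/
def Edge (B v w : ℕ) : Prop :=
  ∃ i q c : ℕ, ¬ B ∣ q ∧ 1 ≤ c ∧ c < B ∧ v = q * B ^ (i + 1) ∧ w = v + c * B ^ i

theorem exp_unique {B : ℕ} (hB : 0 < B) :
    ∀ {i j q s : ℕ}, ¬ B ∣ q → ¬ B ∣ s → q * B ^ i = s * B ^ j → i = j ∧ q = s := by
  have key : ∀ {i j q s : ℕ}, ¬ B ∣ q → q * B ^ i = s * B ^ j → ¬ i < j := by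
    intro i j q s hq h hij
    obtain ⟨d, rfl⟩ := Nat.exists_eq_add_of_lt hij
    apply hq
    have h2 : q * B ^ i = (s * B ^ d * B) * B ^ i := by rw [h]; ring
    have h3 := Nat.eq_of_mul_eq_mul_right (pow_pos hB i) h2
    exact ⟨s * B ^ d, by rw [h3]; ring⟩
  intro i j q s hq hs h
  have h1 := key hq h
  have h2 := key hs h.symm
  have hij : i = j := by omega
  subst hij
  exact ⟨rfl, Nat.eq_of_mul_eq_mul_right (pow_pos hB i) h⟩

theorem not_dvd_digit {B q c : ℕ} (h1 : 1 ≤ c) (h2 : c < B) : ¬ B ∣ q * B + c := by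
  intro h
  have h3 : B ∣ c := (Nat.dvd_add_right (Dvd.intro_left q rfl)).mp h
  have := Nat.le_of_dvd (by omega) h3
  omega

theorem Edge.lt {B v w : ℕ} (h : Edge B v w) : v < w := by
  obtain ⟨i, q, c, -, h1, h2, -, rfl⟩ := h
  have : 0 < c * B ^ i := Nat.mul_pos (by omega) (pow_pos (by omega) i)
  omega

theorem Edge.unique {B v v' w : ℕ} (h : Edge B v w) (h' : Edge B v' w) : v = v' := by
  obtain ⟨i, q, c, -, h1, h2, rfl, e1⟩ := h
  obtain ⟨j, s, d, -, h3, h4, rfl, e2⟩ := h'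
  have hB : 0 < B := by omega
  have e : (q * B + c) * B ^ i = (s * B + d) * B ^ j := by
    have a1 : (q * B + c) * B ^ i = q * B ^ (i + 1) + c * B ^ i := by ring
    have a2 : (s * B + d) * B ^ j = s * B ^ (j + 1) + d * B ^ j := by ring
    rw [a1, a2, ← e1, ← e2]
  obtain ⟨hij, hq⟩ := exp_unique hB (not_dvd_digit h1 h2) (not_dvd_digit h3 h4) e
  subst hij
  have a1 : (q * B + c) / B = q := by
    rw [mul_comm, Nat.mul_add_div hB, Nat.div_eq_of_lt h2]; rfl
  have a2 : (s * B + d) / B = s := by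
    rw [mul_comm, Nat.mul_add_div hB, Nat.div_eq_of_lt h4]; rfl
  have : q = s := by rw [← a1, hq, a2]
  rw [this]

/-- `w` has a parent. -/
def Has (B w : ℕ) : Prop := ∃ v, Edge B v w

open Classical in
/-- The parent of `w` (zero if there is none). -/
noncomputable def pa (B w : ℕ) : ℕ := if h : Has B w then h.choose else 0

theorem edge_pa {B w : ℕ} (h : Has B w) : Edge B (pa B w) w := by
  unfold pa
  rw [dif_pos h]
  exact h.choose_spec

theorem pa_eq {B v w : ℕ} (h : Edge B v w) : pa B w = v :=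
  (edge_pa ⟨v, h⟩).unique h

theorem pa_lt {B w : ℕ} (h : Has B w) : pa B w < w := (edge_pa h).lt

/-- At most `b` children. -/
theorem card_children (b v : ℕ) (U : Finset ℕ) (hU : ∀ w ∈ U, Has (b + 1) w ∧ pa (b + 1) w = v) :
    U.card ≤ b := by
  classical
  rcases U.eq_empty_or_nonempty with rfl | ⟨w0, hw0⟩
  · simp
  have e0 := edge_pa (hU w0 hw0).1
  rw [(hU w0 hw0).2] at e0
  obtain ⟨i, q, c, hq, -, -, hv, -⟩ := e0
  have hsub : U ⊆ (Icc 1 b).image (fun c => v + c * (b + 1) ^ i) := by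
    intro w hw
    have e := edge_pa (hU w hw).1
    rw [(hU w hw).2] at e
    obtain ⟨j, s, d, hs, h1, h2, hv', hw'⟩ := e
    have hij := (exp_unique (Nat.succ_pos b) hq hs (hv.symm.trans hv')).1
    have hij' : i = j := by omega
    subst hij'
    exact mem_image.mpr ⟨d, mem_Icc.mpr ⟨h1, by omega⟩, hw'.symm⟩
  calc U.card ≤ _ := card_le_card hsub
    _ ≤ (Icc 1 b).card := card_image_le
    _ = b := by simp

/-- A sum over children is at most `b` times the sum over parents. -/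
theorem sum_pa_le (b : ℕ) (U V : Finset ℕ) (F : ℕ → ℝ) (hF : ∀ v, 0 ≤ F v)
    (hU : ∀ w ∈ U, Has (b + 1) w ∧ pa (b + 1) w ∈ V) :
    ∑ w ∈ U, F (pa (b + 1) w) ≤ b * ∑ v ∈ V, F v := by
  classical
  rw [← sum_fiberwise_of_maps_to (s := U) (t := V) (g := pa (b + 1)) (fun w hw => (hU w hw).2),
    mul_sum]
  apply sum_le_sum
  intro v _
  have h1 : ∑ w ∈ U with pa (b + 1) w = v, F (pa (b + 1) w) =
      ((U.filter (fun w => pa (b + 1) w = v)).card : ℝ) * F v := by
    rw [sum_congr rfl (g := fun _ => F v)]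
    · simp
    · intro w hw
      rw [(mem_filter.mp hw).2]
  rw [h1]
  apply mul_le_mul_of_nonneg_right _ (hF v)
  exact_mod_cast card_children b v _
    (fun w hw => ⟨(hU w (mem_filter.mp hw).1).1, (mem_filter.mp hw).2⟩)

/-- `v` lies on the chain above the cut at `m`. -/
def Chain (B m v : ℕ) : Prop :=
  ∃ i q : ℕ, ¬ B ∣ q ∧ v = q * B ^ i ∧ v ≤ m ∧ m < v + B ^ i

theorem Chain.half {B m v : ℕ} (h : Chain B m v) : m < 2 * v := by
  obtain ⟨i, q, hq, rfl, -, h2⟩ := h
  have hq0 : 1 ≤ q := by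
    rcases Nat.eq_zero_or_pos q with rfl | h
    · exact absurd (dvd_zero B) hq
    · exact h
  have : B ^ i ≤ q * B ^ i := Nat.le_mul_of_pos_left _ hq0
  omega

theorem Chain.le {B m v : ℕ} (h : Chain B m v) : v ≤ m := by
  obtain ⟨i, q, -, -, h1, -⟩ := h
  exact h1

theorem chain_of_cut {B m w : ℕ} (h : Has B w) (h1 : m ≤ w) (h2 : pa B w ≤ m) :
    Chain B m (pa B w) := by
  obtain ⟨i, q, c, hq, -, hc, hv, hw⟩ := edge_pa h
  refine ⟨i + 1, q, hq, hv, h2, ?_⟩
  have : c * B ^ i < B ^ (i + 1) := by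
    rw [pow_succ, mul_comm]
    exact Nat.mul_lt_mul_of_pos_left hc (pow_pos (by omega) i)
  omega

theorem chain_height {B m v : ℕ} (hc : Chain B m v) (h : Has B v) :
    ∃ i q c : ℕ, ¬ B ∣ q ∧ c < B ∧ pa B v = q * B ^ (i + 1) ∧ v = (q * B + c) * B ^ i ∧
      v ≤ m ∧ m < v + B ^ i := by
  obtain ⟨i, q, c, hq, h1, h2, hv, hw⟩ := edge_pa h
  obtain ⟨j, s, hs, e, h3, h4⟩ := hc
  have e2 : v = (q * B + c) * B ^ i := by rw [hw, hv]; ring
  have hij := (exp_unique (by omega) hs (not_dvd_digit h1 h2) (e.symm.trans e2)).1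
  subst hij
  exact ⟨j, q, c, hq, h2, hv, e2, h3, h4⟩

theorem chain_pa {B m v : ℕ} (hc : Chain B m v) (h : Has B v) : Chain B m (pa B v) := by
  obtain ⟨i, q, c, hq, h2, hv, e, h3, h4⟩ := chain_height hc h
  refine ⟨i + 1, q, hq, hv, le_trans (pa_lt h).le h3, ?_⟩
  have h5 : (c + 1) * B ^ i ≤ B * B ^ i := Nat.mul_le_mul_right _ h2
  have h6 : v + B ^ i = q * B ^ (i + 1) + (c + 1) * B ^ i := by rw [e]; ring
  have h7 : B ^ (i + 1) = B * B ^ i := by ring
  omega

theorem chain_inj {B m v v' : ℕ} (hc : Chain B m v) (h : Has B v) (hc' : Chain B m v')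
    (h' : Has B v') (e : pa B v = pa B v') : v = v' := by
  obtain ⟨i, q, c, hq, h2, hv, e1, h3, h4⟩ := chain_height hc h
  obtain ⟨j, s, d, hs, h2', hv', e1', h3', h4'⟩ := chain_height hc' h'
  have hB : 0 < B := by omega
  have hij := (exp_unique hB hq hs (hv.symm.trans (e.trans hv'))).1
  have hij' : i = j := by omega
  subst hij'
  have hP : 0 < B ^ i := pow_pos hB i
  have a1 : m / B ^ i = q * B + c := by
    apply Nat.div_eq_of_lt_le
    · rw [← e1]; exact h3
    · rw [add_mul, ← e1, one_mul]; exact h4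
  have a2 : m / B ^ i = s * B + d := by
    apply Nat.div_eq_of_lt_le
    · rw [← e1']; exact h3'
    · rw [add_mul, ← e1', one_mul]; exact h4'
  rw [e1, e1', ← a1, ← a2]

/-- Full `b`-ary trees of every depth. -/
theorem exists_levels (b k : ℕ) (hb : 1 ≤ b) (P : ℕ → ℕ → Prop) (h0 : P 0 ((b + 1) ^ k))
    (hs : ∀ j w, Has (b + 1) w → (b + 1) ^ k < w → P j (pa (b + 1) w) → P (j + 1) w) :
    ∃ T : Finset ℕ, T.card = b ^ k ∧ ∀ w ∈ T, P k w := by
  classical
  have main : ∀ j i, j + i = k → ∃ T : Finset ℕ, T.card = b ^ j ∧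
      ∀ w ∈ T, P j w ∧ (b + 1) ^ k ≤ w ∧ ∃ q, ¬ (b + 1) ∣ q ∧ w = q * (b + 1) ^ i := by
    intro j
    induction j with
    | zero =>
      intro i hi
      refine ⟨{(b + 1) ^ k}, by simp, ?_⟩
      intro w hw
      rw [mem_singleton] at hw
      subst hw
      refine ⟨h0, le_rfl, 1, ?_, ?_⟩
      · intro h
        have := Nat.le_of_dvd one_pos h
        omega
      · rw [← hi]; simp
    | succ j ih =>
      intro i hi
      obtain ⟨T, hT, hP⟩ := ih (i + 1) (by omega)
      have hedge : ∀ u ∈ T, ∀ c ∈ Icc 1 b, Edge (b + 1) u (u + c * (b + 1) ^ i) := by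
        intro u hu c hc
        obtain ⟨-, -, q, hq, e⟩ := hP u hu
        exact ⟨i, q, c, hq, (mem_Icc.mp hc).1, by have := (mem_Icc.mp hc).2; omega, e, rfl⟩
      refine ⟨(T ×ˢ Icc 1 b).image (fun x => x.1 + x.2 * (b + 1) ^ i), ?_, ?_⟩
      · rw [card_image_of_injOn, card_product, hT]
        · simp [pow_succ]
        · rintro ⟨u, c⟩ hx ⟨u', c'⟩ hx' e
          have hx1 := mem_product.mp (mem_coe.mp hx)
          have hx2 := mem_product.mp (mem_coe.mp hx')
          have e' : u + c * (b + 1) ^ i = u' + c' * (b + 1) ^ i := e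
          have e1 := hedge u hx1.1 c hx1.2
          have e2 := hedge u' hx2.1 c' hx2.2
          rw [← e'] at e2
          have huu := e1.unique e2
          subst huu
          have hc : c * (b + 1) ^ i = c' * (b + 1) ^ i := by omega
          have := Nat.eq_of_mul_eq_mul_right (pow_pos (Nat.succ_pos b) i) hc
          rw [this]
      · intro w hw
        obtain ⟨⟨u, c⟩, hx, rfl⟩ := mem_image.mp hw
        have hx1 := mem_product.mp hx
        have e1 := hedge u hx1.1 c hx1.2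
        obtain ⟨hP1, hle, q, hq, e⟩ := hP u hx1.1
        have hlt := e1.lt
        refine ⟨?_, ?_, q * (b + 1) + c, ?_, ?_⟩
        · apply hs j _ ⟨u, e1⟩ (lt_of_le_of_lt hle hlt)
          rw [pa_eq e1]; exact hP1
        · exact le_trans hle hlt.le
        · exact not_dvd_digit (mem_Icc.mp hx1.2).1 (by have := (mem_Icc.mp hx1.2).2; omega)
        · change u + c * (b + 1) ^ i = _
          rw [e]; ring
  obtain ⟨T, h1, h2⟩ := main k 0 rfl
  exact ⟨T, h1, fun w hw => (h2 w hw).1⟩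

end Pool.Agent.E7Iso
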