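import Mathlib
import Pool.Agent.MP_e7ec4f_an.IsoDefs
import Pool.Agent.MP_e7ec4f_an.IsoForest

/-! The difference operator of the forest on the sequence space, its coordinate functionals. -/

set_option autoImplicit false

namespace Pool.Agent.E7Iso

open Finset
open scoped ENNReal

variable {𝕂 : Type} [RCLike 𝕂] {P : ℝ≥0∞}

/-- The sequence space. -/
abbrev Sq (𝕂 : Type) [RCLike 𝕂] (P : ℝ≥0∞) : Type := lp (fun _ : ℕ => 𝕂) P

/-- The sum of the `p`-th powers. -/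
noncomputable def NN (f : Sq 𝕂 P) : ℝ := ‖f‖ ^ P.toReal

theorem NN_nonneg (f : Sq 𝕂 P) : 0 ≤ NN f := Real.rpow_nonneg (lp.norm_nonneg' f) _

theorem sum_le_NN (hp : 0 < P.toReal) (f : Sq 𝕂 P) (s : Finset ℕ) :
    ∑ i ∈ s, ‖f i‖ ^ P.toReal ≤ NN f := lp.sum_rpow_le_norm_rpow hp f s

theorem NN_le (hp : 0 < P.toReal) (f : Sq 𝕂 P) {C : ℝ}
    (h : ∀ s : Finset ℕ, ∑ i ∈ s, ‖f i‖ ^ P.toReal ≤ C) : NN f ≤ C := by
  unfold NN
  rw [lp.norm_rpow_eq_tsum hp]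
  exact ((lp.memℓp f).summable hp).tsum_le_of_sum_le h

theorem norm_add_rpow {p : ℝ} (hp : 0 < p) (hp1 : p ≤ 1) (a b : 𝕂) :
    ‖a + b‖ ^ p ≤ ‖a‖ ^ p + ‖b‖ ^ p :=
  le_trans (Real.rpow_le_rpow (norm_nonneg _) (norm_add_le a b) hp.le)
    (Real.rpow_add_le_add_rpow (norm_nonneg _) (norm_nonneg _) hp.le hp1)

theorem NN_add (hp : 0 < P.toReal) (hp1 : P.toReal ≤ 1) (f g : Sq 𝕂 P) :
    NN (f + g) ≤ NN f + NN g := by
  apply NN_le hp
  intro s
  calc ∑ i ∈ s, ‖(f + g) i‖ ^ P.toReal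
      ≤ ∑ i ∈ s, (‖f i‖ ^ P.toReal + ‖g i‖ ^ P.toReal) :=
        sum_le_sum fun i _ => norm_add_rpow hp hp1 (f i) (g i)
    _ = ∑ i ∈ s, ‖f i‖ ^ P.toReal + ∑ i ∈ s, ‖g i‖ ^ P.toReal := sum_add_distrib
    _ ≤ NN f + NN g := add_le_add (sum_le_NN hp f s) (sum_le_NN hp g s)

theorem ne_zero_of_pos (hp : 0 < P.toReal) : P ≠ 0 := by
  rintro rfl
  simp at hp

theorem NN_smul (hp : 0 < P.toReal) (c : 𝕂) (f : Sq 𝕂 P) :
    NN (c • f) = ‖c‖ ^ P.toReal * NN f := by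
  unfold NN
  rw [lp.norm_const_smul (ne_zero_of_pos hp), Real.mul_rpow (norm_nonneg _) (lp.norm_nonneg' f)]

theorem NN_zero (hp : 0 < P.toReal) : NN (0 : Sq 𝕂 P) = 0 := by
  unfold NN
  rw [lp.norm_zero, Real.zero_rpow hp.ne']

open Classical in
/-- The weight of the edge above `w`. -/
noncomputable def wt (b : ℕ) (r : ℝ) (w : ℕ) : ℝ := if Has (b + 1) w then r else 0

theorem wt_pos {b : ℕ} {r : ℝ} {w : ℕ} (h : Has (b + 1) w) : wt b r w = r := by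
  unfold wt; rw [if_pos h]

theorem wt_neg {b : ℕ} {r : ℝ} {w : ℕ} (h : ¬ Has (b + 1) w) : wt b r w = 0 := by
  unfold wt; rw [if_neg h]

theorem shift_sum_le (hp : 0 < P.toReal) (b : ℕ) {r : ℝ} (hr : 0 ≤ r) (c : ℕ → 𝕂)
    (s V : Finset ℕ) (hV : ∀ w ∈ s, Has (b + 1) w → c (pa (b + 1) w) ≠ 0 → pa (b + 1) w ∈ V) :
    ∑ w ∈ s, ‖((wt b r w : ℝ) : 𝕂) * c (pa (b + 1) w)‖ ^ P.toReal ≤
      b * r ^ P.toReal * ∑ v ∈ V, ‖c v‖ ^ P.toReal := by
  classical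
  have h1 : ∑ w ∈ s, ‖((wt b r w : ℝ) : 𝕂) * c (pa (b + 1) w)‖ ^ P.toReal =
      ∑ w ∈ s with (Has (b + 1) w ∧ c (pa (b + 1) w) ≠ 0),
        r ^ P.toReal * ‖c (pa (b + 1) w)‖ ^ P.toReal := by
    rw [sum_filter]
    apply sum_congr rfl
    intro w _
    by_cases h : Has (b + 1) w
    · by_cases h2 : c (pa (b + 1) w) = 0
      · simp [h2, Real.zero_rpow hp.ne']
      · rw [if_pos ⟨h, h2⟩, wt_pos h, norm_mul, RCLike.norm_ofReal, abs_of_nonneg hr,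
          Real.mul_rpow hr (norm_nonneg _)]
    · rw [if_neg (fun h' => h h'.1), wt_neg h]
      simp [Real.zero_rpow hp.ne']
  rw [h1, ← mul_sum, mul_comm (b : ℝ), mul_assoc]
  apply mul_le_mul_of_nonneg_left _ (Real.rpow_nonneg hr _)
  apply sum_pa_le b _ V (fun v => ‖c v‖ ^ P.toReal) (fun v => Real.rpow_nonneg (norm_nonneg _) _)
  intro w hw
  have := mem_filter.mp hw
  exact ⟨this.2.1, hV w this.1 this.2.1 this.2.2⟩

theorem shift_sum_le_NN (hp : 0 < P.toReal) (b : ℕ) {r : ℝ} (hr : 0 ≤ r) (c : Sq 𝕂 P)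
    (s : Finset ℕ) :
    ∑ w ∈ s, ‖((wt b r w : ℝ) : 𝕂) * c (pa (b + 1) w)‖ ^ P.toReal ≤
      b * r ^ P.toReal * NN c := by
  classical
  refine le_trans (shift_sum_le hp b hr c s (s.image (pa (b + 1)))
    (fun w hw _ _ => mem_image_of_mem _ hw)) ?_
  apply mul_le_mul_of_nonneg_left (sum_le_NN hp c _)
  exact mul_nonneg (Nat.cast_nonneg b) (Real.rpow_nonneg hr _)

/-- The weighted shift along the forest. -/
noncomputable def Sh (hp : 0 < P.toReal) (b : ℕ) (r : ℝ) (hr : 0 ≤ r) : Sq 𝕂 P →ₗ[𝕂] Sq 𝕂 P where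
  toFun c := ⟨fun w => ((wt b r w : ℝ) : 𝕂) * c (pa (b + 1) w),
    memℓp_gen' (shift_sum_le_NN hp b hr c)⟩
  map_add' f g := by
    apply lp.ext
    funext w
    change _ * (f (pa (b + 1) w) + g (pa (b + 1) w)) = _ * _ + _ * _
    ring
  map_smul' a f := by
    apply lp.ext
    funext w
    change _ * (a * f (pa (b + 1) w)) = a * (_ * _)
    ring

/-- The difference operator. -/
noncomputable def Df (hp : 0 < P.toReal) (b : ℕ) (r : ℝ) (hr : 0 ≤ r) : Sq 𝕂 P →ₗ[𝕂] Sq 𝕂 P :=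
  LinearMap.id - Sh hp b r hr

theorem Df_apply (hp : 0 < P.toReal) (b : ℕ) (r : ℝ) (hr : 0 ≤ r) (c : Sq 𝕂 P) (w : ℕ) :
    Df hp b r hr c w = c w - ((wt b r w : ℝ) : 𝕂) * c (pa (b + 1) w) := rfl

theorem NN_neg (f : Sq 𝕂 P) : NN (-f) = NN f := by
  unfold NN; rw [lp.norm_neg]

theorem NN_Df (hp : 0 < P.toReal) (hp1 : P.toReal ≤ 1) (b : ℕ) (r : ℝ) (hr : 0 ≤ r)
    (c : Sq 𝕂 P) : NN (Df hp b r hr c) ≤ (1 + b * r ^ P.toReal) * NN c := by
  have h1 : Df hp b r hr c = c + -(Sh hp b r hr c) := by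
    simp [Df, sub_eq_add_neg]
  have h2 : NN (Sh hp b r hr c) ≤ b * r ^ P.toReal * NN c :=
    NN_le hp _ (shift_sum_le_NN hp b hr c)
  have h3 := NN_add hp hp1 c (-(Sh hp b r hr c))
  rw [NN_neg] at h3
  rw [h1]
  linarith

open Classical in
/-- The coordinate functionals. -/
noncomputable def co (𝕂 : Type) [RCLike 𝕂] (P : ℝ≥0∞) (b : ℕ) (r : ℝ) (w : ℕ) :
    Sq 𝕂 P →ₗ[𝕂] 𝕂 :=
  if _h : Has (b + 1) w then
    lp.evalₗ (fun _ : ℕ => 𝕂) P w + ((r : ℝ) : 𝕂) • co 𝕂 P b r (pa (b + 1) w)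
  else lp.evalₗ (fun _ : ℕ => 𝕂) P w
termination_by w
decreasing_by exact pa_lt _h

theorem co_apply (b : ℕ) (r : ℝ) (w : ℕ) (y : Sq 𝕂 P) :
    co 𝕂 P b r w y = y w + ((wt b r w : ℝ) : 𝕂) * co 𝕂 P b r (pa (b + 1) w) y := by
  by_cases h : Has (b + 1) w
  · rw [co, dif_pos h, wt_pos h]
    rfl
  · rw [co, dif_neg h, wt_neg h]
    simp

theorem co_Df (hp : 0 < P.toReal) (b : ℕ) (r : ℝ) (hr : 0 ≤ r) (c : Sq 𝕂 P) (w : ℕ) :
    co 𝕂 P b r w (Df hp b r hr c) = c w := by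
  induction w using Nat.strong_induction_on with
  | _ w ih =>
    rw [co_apply, Df_apply]
    by_cases h : Has (b + 1) w
    · rw [ih _ (pa_lt h)]; ring
    · rw [wt_neg h]; simp

theorem norm_co_le (hp : 0 < P.toReal) (b : ℕ) {r : ℝ} (hr : 0 ≤ r) (hr1 : r < 1)
    (y : Sq 𝕂 P) (w : ℕ) : ‖co 𝕂 P b r w y‖ ≤ (1 - r)⁻¹ * ‖y‖ := by
  have h1 : 0 < 1 - r := by linarith
  have hy := lp.norm_nonneg' y
  induction w using Nat.strong_induction_on with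
  | _ w ih =>
    rw [co_apply]
    have h2 : ‖y w‖ ≤ ‖y‖ := lp.norm_apply_le_norm (ne_zero_of_pos hp) y w
    by_cases h : Has (b + 1) w
    · have h3 := ih _ (pa_lt h)
      rw [wt_pos h]
      calc _ ≤ ‖y w‖ + ‖((r : ℝ) : 𝕂) * co 𝕂 P b r (pa (b + 1) w) y‖ := norm_add_le _ _
        _ ≤ ‖y‖ + r * ((1 - r)⁻¹ * ‖y‖) := by
          rw [norm_mul, RCLike.norm_ofReal, abs_of_nonneg hr]
          exact add_le_add h2 (mul_le_mul_of_nonneg_left h3 hr)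
        _ = (1 - r)⁻¹ * ‖y‖ := by field_simp; ring
    · rw [wt_neg h]
      have h4 : 1 ≤ (1 - r)⁻¹ := by
        rw [one_le_inv₀ h1]; linarith
      have h5 : ‖y‖ ≤ (1 - r)⁻¹ * ‖y‖ := le_mul_of_one_le_left hy h4
      simpa using le_trans h2 h5

open Classical in
/-- The chain above the cut at `m`. -/
noncomputable def chainSet (b m : ℕ) : Finset ℕ := (range (m + 1)).filter (Chain (b + 1) m)

theorem mem_chainSet {b m v : ℕ} : v ∈ chainSet b m ↔ Chain (b + 1) m v := by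
  classical
  unfold chainSet
  rw [mem_filter, mem_range]
  exact ⟨fun h => h.2, fun h => ⟨Nat.lt_succ_of_le h.le, h⟩⟩

theorem chain_sum_le (hp : 0 < P.toReal) (hp1 : P.toReal ≤ 1) (b m : ℕ) {r : ℝ} (hr : 0 ≤ r)
    (y : Sq 𝕂 P) :
    (1 - r ^ P.toReal) * ∑ v ∈ chainSet b m, ‖co 𝕂 P b r v y‖ ^ P.toReal ≤
      ∑ v ∈ chainSet b m, ‖y v‖ ^ P.toReal := by
  classical
  set F : ℕ → ℝ := fun v => ‖co 𝕂 P b r v y‖ ^ P.toReal with hF
  have hF0 : ∀ v, 0 ≤ F v := fun v => Real.rpow_nonneg (norm_nonneg _) _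
  have h1 : ∀ v, F v ≤ ‖y v‖ ^ P.toReal +
      (if Has (b + 1) v then r ^ P.toReal * F (pa (b + 1) v) else 0) := by
    intro v
    simp only [hF]
    rw [co_apply b r v y]
    refine le_trans (norm_add_rpow hp hp1 _ _) (add_le_add le_rfl (le_of_eq ?_))
    by_cases h : Has (b + 1) v
    · rw [if_pos h, wt_pos h, norm_mul, RCLike.norm_ofReal, abs_of_nonneg hr,
        Real.mul_rpow hr (norm_nonneg _)]
    · rw [if_neg h, wt_neg h]
      simp [Real.zero_rpow hp.ne']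
  have h2 : ∑ v ∈ chainSet b m with Has (b + 1) v, F (pa (b + 1) v) ≤ ∑ v ∈ chainSet b m, F v := by
    rw [← sum_image (s := (chainSet b m).filter (Has (b + 1))) (g := pa (b + 1)) (f := F)]
    · apply sum_le_sum_of_subset_of_nonneg
      · intro u hu
        obtain ⟨v, hv, rfl⟩ := mem_image.mp hu
        have := mem_filter.mp hv
        exact mem_chainSet.mpr (chain_pa (mem_chainSet.mp this.1) this.2)
      · intro i _ _; exact hF0 i
    · intro v hv v' hv' e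
      have a1 := mem_filter.mp (mem_coe.mp hv)
      have a2 := mem_filter.mp (mem_coe.mp hv')
      exact chain_inj (mem_chainSet.mp a1.1) a1.2 (mem_chainSet.mp a2.1) a2.2 e
  have h3 : ∑ v ∈ chainSet b m, F v ≤ ∑ v ∈ chainSet b m, ‖y v‖ ^ P.toReal +
      r ^ P.toReal * ∑ v ∈ chainSet b m with Has (b + 1) v, F (pa (b + 1) v) := by
    rw [mul_sum, sum_filter, ← sum_add_distrib]
    exact sum_le_sum fun v _ => h1 v
  have h4 := mul_le_mul_of_nonneg_left h2 (Real.rpow_nonneg hr P.toReal)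
  linarith

/-- The basis vectors. -/
noncomputable def bv (hp : 0 < P.toReal) (b : ℕ) (r : ℝ) (hr : 0 ≤ r) (n : ℕ) : Sq 𝕂 P :=
  Df hp b r hr (lp.single P n (1 : 𝕂))

theorem sum_bv (hp : 0 < P.toReal) (b : ℕ) (r : ℝ) (hr : 0 ≤ r) (A : Finset ℕ) (a : ℕ → 𝕂) :
    ∑ n ∈ A, a n • bv hp b r hr n = Df hp b r hr (∑ n ∈ A, lp.single P n (a n)) := by
  rw [map_sum]
  apply sum_congr rfl
  intro n _
  rw [bv, ← map_smul, ← lp.single_smul]
  simp

theorem sum_single_apply (A : Finset ℕ) (a : ℕ → 𝕂) (w : ℕ) :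
    (∑ n ∈ A, lp.single P n (a n) : Sq 𝕂 P) w = if w ∈ A then a w else 0 := by
  simp only [lp.coeFn_single, lp.coeFn_sum, Finset.sum_apply, Finset.sum_pi_single]

theorem co_sum_bv (hp : 0 < P.toReal) (b : ℕ) (r : ℝ) (hr : 0 ≤ r) (A : Finset ℕ) (a : ℕ → 𝕂)
    (w : ℕ) : co 𝕂 P b r w (∑ n ∈ A, a n • bv hp b r hr n) = if w ∈ A then a w else 0 := by
  rw [sum_bv, co_Df, sum_single_apply]

theorem vanish (hp : 0 < P.toReal) (y : Sq 𝕂 P) {ε : ℝ} (hε : 0 < ε) :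
    ∃ M : ℕ, ∀ s : Finset ℕ, (∀ v ∈ s, M ≤ v) → ∑ v ∈ s, ‖y v‖ ^ P.toReal ≤ ε := by
  have hs := (lp.memℓp y).summable hp
  obtain ⟨t, ht⟩ := summable_iff_vanishing_norm.mp hs ε hε
  refine ⟨t.sup id + 1, fun s h => ?_⟩
  have hd : Disjoint s t := by
    rw [Finset.disjoint_left]
    intro v hv hv'
    have h1 := h v hv
    have h2 : v ≤ t.sup id := Finset.le_sup (f := id) hv'
    omega
  have := ht s hd
  rw [Real.norm_eq_abs] at this
  exact le_trans (le_abs_self _) this.le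

/-- The expansions converge for the sum of `p`-th powers. -/
theorem NN_tail (hp : 0 < P.toReal) (hp1 : P.toReal ≤ 1) (b : ℕ) {r : ℝ} (hr : 0 ≤ r)
    (hr1 : r < 1) (y : Sq 𝕂 P) {ε : ℝ} (hε : 0 < ε) :
    ∃ M : ℕ, ∀ m ≥ M, NN (y - ∑ n ∈ range m, co 𝕂 P b r n y • bv hp b r hr n) ≤ ε := by
  classical
  have hρ0 : 0 ≤ r ^ P.toReal := Real.rpow_nonneg hr _
  have hρ : r ^ P.toReal < 1 := Real.rpow_lt_one hr hr1 hp
  set ρ := r ^ P.toReal with hρd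
  have h1ρ : 0 < 1 - ρ := by linarith
  have hK : 0 < 1 + b * ρ * (1 - ρ)⁻¹ := by positivity
  obtain ⟨M, hM⟩ := vanish hp y (div_pos hε hK)
  set δ := ε / (1 + b * ρ * (1 - ρ)⁻¹) with hδ
  refine ⟨2 * M, fun m hm => ?_⟩
  apply NN_le hp
  intro s
  set a : ℕ → 𝕂 := fun v => if v ∈ range m then co 𝕂 P b r v y else 0 with ha
  have hval : ∀ w, (y - ∑ n ∈ range m, co 𝕂 P b r n y • bv hp b r hr n : Sq 𝕂 P) w =
      if w < m then 0 else y w + ((wt b r w : ℝ) : 𝕂) * a (pa (b + 1) w) := by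
    intro w
    rw [lp.coeFn_sub, Pi.sub_apply, sum_bv, Df_apply, sum_single_apply, sum_single_apply]
    by_cases hw : w < m
    · rw [if_pos hw, if_pos (mem_range.mpr hw), co_apply b r w y]
      by_cases h : Has (b + 1) w
      · rw [if_pos (mem_range.mpr (lt_trans (pa_lt h) hw))]; ring
      · rw [wt_neg h]; simp
    · rw [if_neg hw, if_neg (fun h => hw (mem_range.mp h))]
      simp only [ha]
      ring
  have h2 : ∑ w ∈ s, ‖(y - ∑ n ∈ range m, co 𝕂 P b r n y • bv hp b r hr n : Sq 𝕂 P) w‖ ^ P.toReal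
      ≤ ∑ w ∈ s with m ≤ w, ‖y w‖ ^ P.toReal +
        ∑ w ∈ s with m ≤ w, ‖((wt b r w : ℝ) : 𝕂) * a (pa (b + 1) w)‖ ^ P.toReal := by
    rw [← sum_add_distrib, sum_filter]
    apply sum_le_sum
    intro w _
    rw [hval]
    by_cases hw : w < m
    · rw [if_pos hw, if_neg (by omega)]
      simp [Real.zero_rpow hp.ne']
    · rw [if_neg hw, if_pos (by omega)]
      exact norm_add_rpow hp hp1 _ _
  have h3 : ∑ w ∈ s with m ≤ w, ‖y w‖ ^ P.toReal ≤ δ :=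
    hM _ (fun v hv => by have := (mem_filter.mp hv).2; omega)
  have h4 := shift_sum_le hp b hr a (s.filter (fun w => m ≤ w)) (chainSet b m) (by
    intro w hw h hne
    have hlt : pa (b + 1) w < m := by
      by_contra hc
      apply hne
      simp only [ha]
      rw [if_neg (fun h => hc (mem_range.mp h))]
    exact mem_chainSet.mpr (chain_of_cut h (mem_filter.mp hw).2 hlt.le))
  have h5 : ∑ v ∈ chainSet b m, ‖a v‖ ^ P.toReal ≤
      ∑ v ∈ chainSet b m, ‖co 𝕂 P b r v y‖ ^ P.toReal := by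
    apply sum_le_sum
    intro v _
    simp only [ha]
    by_cases hv : v ∈ range m
    · rw [if_pos hv]
    · rw [if_neg hv, norm_zero, Real.zero_rpow hp.ne']
      exact Real.rpow_nonneg (norm_nonneg _) _
  have h6 := chain_sum_le hp hp1 b m hr y
  have h7 : ∑ v ∈ chainSet b m, ‖y v‖ ^ P.toReal ≤ δ :=
    hM _ (fun v hv => by have := (mem_chainSet.mp hv).half; omega)
  have h8 : ∑ v ∈ chainSet b m, ‖co 𝕂 P b r v y‖ ^ P.toReal ≤ (1 - ρ)⁻¹ * δ := by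
    rw [← div_eq_inv_mul, le_div_iff₀ h1ρ, mul_comm]
    exact le_trans h6 h7
  have h9 : b * ρ * ∑ v ∈ chainSet b m, ‖a v‖ ^ P.toReal ≤ b * ρ * ((1 - ρ)⁻¹ * δ) :=
    mul_le_mul_of_nonneg_left (le_trans h5 h8) (by positivity)
  have h10 : δ + b * ρ * ((1 - ρ)⁻¹ * δ) = ε := by
    have : δ * (1 + b * ρ * (1 - ρ)⁻¹) = ε := div_mul_cancel₀ _ hK.ne'
    rw [← this]; ring
  linarith

end Pool.Agent.E7Iso
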