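import Mathlib
import Pool.Agent.MP_e7ec4f_an.IsoLp

/-! The quotient type `p`-norm and the potential argument. -/

set_option autoImplicit false

namespace Pool.Agent.E7Iso

open Finset
open scoped ENNReal

variable {𝕂 : Type} [RCLike 𝕂] {P : ℝ≥0∞}

/-- The `p`-th power of the new norm. -/
noncomputable def mu (D : Sq 𝕂 P →ₗ[𝕂] Sq 𝕂 P) (C : ℝ) (g : Sq 𝕂 P) : ℝ :=
  ⨅ c : Sq 𝕂 P, (NN c + C * NN (g - D c))

theorem mu_bdd (D : Sq 𝕂 P →ₗ[𝕂] Sq 𝕂 P) {C : ℝ} (hC : 0 ≤ C) (g : Sq 𝕂 P) :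
    BddBelow (Set.range fun c : Sq 𝕂 P => NN c + C * NN (g - D c)) := by
  refine ⟨0, ?_⟩
  rintro _ ⟨c, rfl⟩
  exact add_nonneg (NN_nonneg _) (mul_nonneg hC (NN_nonneg _))

theorem mu_le (D : Sq 𝕂 P →ₗ[𝕂] Sq 𝕂 P) {C : ℝ} (hC : 0 ≤ C) (g c : Sq 𝕂 P) :
    mu D C g ≤ NN c + C * NN (g - D c) := ciInf_le (mu_bdd D hC g) c

theorem le_mu (D : Sq 𝕂 P →ₗ[𝕂] Sq 𝕂 P) {C t : ℝ} (g : Sq 𝕂 P)
    (h : ∀ c : Sq 𝕂 P, t ≤ NN c + C * NN (g - D c)) : t ≤ mu D C g := le_ciInf h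

theorem mu_nonneg (D : Sq 𝕂 P →ₗ[𝕂] Sq 𝕂 P) {C : ℝ} (hC : 0 ≤ C) (g : Sq 𝕂 P) :
    0 ≤ mu D C g :=
  le_mu D g fun _ => add_nonneg (NN_nonneg _) (mul_nonneg hC (NN_nonneg _))

theorem mu_le_NN (hp : 0 < P.toReal) (D : Sq 𝕂 P →ₗ[𝕂] Sq 𝕂 P) {C : ℝ} (hC : 0 ≤ C)
    (g : Sq 𝕂 P) : mu D C g ≤ C * NN g := by
  have := mu_le D hC g 0
  rwa [NN_zero hp, map_zero, sub_zero, zero_add] at this

theorem mu_D_le (hp : 0 < P.toReal) (D : Sq 𝕂 P →ₗ[𝕂] Sq 𝕂 P) {C : ℝ} (hC : 0 ≤ C)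
    (c : Sq 𝕂 P) : mu D C (D c) ≤ NN c := by
  have := mu_le D hC (D c) c
  rwa [sub_self, NN_zero hp, mul_zero, add_zero] at this

theorem NN_le_mu (hp : 0 < P.toReal) (hp1 : P.toReal ≤ 1) (D : Sq 𝕂 P →ₗ[𝕂] Sq 𝕂 P) {C K : ℝ}
    (hC : 1 ≤ C) (hK : 1 ≤ K) (hD : ∀ c, NN (D c) ≤ K * NN c) (g : Sq 𝕂 P) :
    K⁻¹ * NN g ≤ mu D C g := by
  apply le_mu
  intro c
  have h1 : NN g ≤ NN (D c) + NN (g - D c) := by
    have := NN_add hp hp1 (D c) (g - D c)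
    rwa [add_sub_cancel] at this
  have h2 := hD c
  have h3 := NN_nonneg (g - D c)
  have hK0 : 0 < K := by linarith
  rw [← div_eq_inv_mul, div_le_iff₀ hK0]
  have h4 : NN (g - D c) ≤ C * NN (g - D c) * K := by
    have : 1 ≤ C * K := one_le_mul_of_one_le_of_one_le hC hK
    nlinarith
  nlinarith

theorem mu_add (hp : 0 < P.toReal) (hp1 : P.toReal ≤ 1) (D : Sq 𝕂 P →ₗ[𝕂] Sq 𝕂 P) {C : ℝ}
    (hC : 0 ≤ C) (f g : Sq 𝕂 P) : mu D C (f + g) ≤ mu D C f + mu D C g := by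
  have key : ∀ c d : Sq 𝕂 P, mu D C (f + g) ≤
      (NN c + C * NN (f - D c)) + (NN d + C * NN (g - D d)) := by
    intro c d
    have h1 := mu_le D hC (f + g) (c + d)
    have h2 := NN_add hp hp1 c d
    have h3 := NN_add hp hp1 (f - D c) (g - D d)
    have e : f - D c + (g - D d) = f + g - D (c + d) := by rw [map_add]; abel
    rw [e] at h3
    have h4 := mul_le_mul_of_nonneg_left h3 hC
    linarith
  have h1 : ∀ d : Sq 𝕂 P, mu D C (f + g) - (NN d + C * NN (g - D d)) ≤ mu D C f :=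
    fun d => le_mu D f fun c => by linarith [key c d]
  have h2 : mu D C (f + g) - mu D C f ≤ mu D C g :=
    le_mu D g fun d => by linarith [h1 d]
  linarith

theorem mu_smul_le (hp : 0 < P.toReal) (D : Sq 𝕂 P →ₗ[𝕂] Sq 𝕂 P) {C : ℝ}
    (hC : 0 ≤ C) (a : 𝕂) (ha : a ≠ 0) (f : Sq 𝕂 P) :
    mu D C (a • f) ≤ ‖a‖ ^ P.toReal * mu D C f := by
  have h0 : 0 < ‖a‖ ^ P.toReal := Real.rpow_pos_of_pos (norm_pos_iff.mpr ha) _
  rw [mul_comm, ← div_le_iff₀ h0]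
  apply le_mu
  intro c
  rw [div_le_iff₀ h0]
  have h1 := mu_le D hC (a • f) (a • c)
  rw [map_smul, ← smul_sub, NN_smul hp, NN_smul hp] at h1
  linarith

theorem mu_smul (hp : 0 < P.toReal) (D : Sq 𝕂 P →ₗ[𝕂] Sq 𝕂 P) {C : ℝ}
    (hC : 0 ≤ C) (a : 𝕂) (f : Sq 𝕂 P) :
    mu D C (a • f) = ‖a‖ ^ P.toReal * mu D C f := by
  by_cases ha : a = 0
  · subst ha
    rw [zero_smul, norm_zero, Real.zero_rpow hp.ne', zero_mul]
    apply le_antisymm _ (mu_nonneg D hC 0)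
    have := mu_le_NN hp D hC 0
    rwa [NN_zero hp, mul_zero] at this
  apply le_antisymm (mu_smul_le hp D hC a ha f)
  have h1 := mu_smul_le hp D hC a⁻¹ (inv_ne_zero ha) (a • f)
  rw [inv_smul_smul₀ ha, norm_inv, Real.inv_rpow (norm_nonneg _)] at h1
  have h0 : 0 < ‖a‖ ^ P.toReal := Real.rpow_pos_of_pos (norm_pos_iff.mpr ha) _
  rw [← div_eq_inv_mul, le_div_iff₀ h0] at h1
  linarith

/-- The hypotheses on the potential. -/
structure Pot (p : ℝ) (b : ℕ) (r C lam : ℝ) (Φ : ℝ → ℝ) : Prop where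
  nonneg : ∀ x, 0 ≤ x → 0 ≤ Φ x
  zero : Φ 0 = 0
  lip : ∀ x y z, 0 ≤ x → 0 ≤ y → 0 ≤ z → z ≤ x + y → Φ z ≤ Φ x + C * y ^ p
  off : ∀ z s, 0 ≤ z → 0 ≤ s → z - 1 ≤ s → b * Φ (r * z) ≤ Φ z + s ^ p
  on : ∀ z s, 0 ≤ z → 0 ≤ s → z - 1 ≤ s → 1 - z ≤ s → lam + b * Φ (r * z) ≤ Φ z + s ^ p

/-- The lower bound on the faces of the cube. -/
theorem face_le_mu (hp : 0 < P.toReal) {b : ℕ} {r C lam : ℝ} {Φ : ℝ → ℝ} (hr : 0 ≤ r)
    (hC : 0 ≤ C) (hΦ : Pot P.toReal b r C lam Φ) (g : Sq 𝕂 P) (A : Finset ℕ)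
    (h1 : ∀ n, ‖co 𝕂 P b r n g‖ ≤ 1) (hA : ∀ n ∈ A, ‖co 𝕂 P b r n g‖ = 1) :
    lam * A.card ≤ mu (Df hp b r hr) C g := by
  classical
  apply le_mu
  intro c
  set y := g - Df hp b r hr c with hy
  set z : ℕ → ℝ := fun w => ‖co 𝕂 P b r w y‖ with hz
  have hz0 : ∀ w, 0 ≤ z w := fun w => norm_nonneg _
  have hco : ∀ w, co 𝕂 P b r w g = c w + co 𝕂 P b r w y := by
    intro w
    rw [hy, map_sub, co_Df]; ring
  obtain ⟨M, hM⟩ : ∃ M, A ⊆ range M :=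
    ⟨A.sup id + 1, fun v hv => mem_range.mpr (Nat.lt_succ_of_le (Finset.le_sup (f := id) hv))⟩
  have step1 : ∀ w, (if w ∈ A then lam else 0) + b * Φ (r * z w) ≤ Φ (z w) + ‖c w‖ ^ P.toReal := by
    intro w
    have a1 : z w - 1 ≤ ‖c w‖ := by
      have e : co 𝕂 P b r w y = co 𝕂 P b r w g - c w := by rw [hco w]; ring
      have := norm_sub_le (co 𝕂 P b r w g) (c w)
      rw [← e] at this
      have := h1 w
      simp only [hz]
      linarith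
    by_cases hw : w ∈ A
    · rw [if_pos hw]
      apply hΦ.on _ _ (hz0 w) (norm_nonneg _) a1
      have := norm_add_le (c w) (co 𝕂 P b r w y)
      rw [← hco w, hA w hw] at this
      simp only [hz]
      linarith
    · rw [if_neg hw, zero_add]
      exact hΦ.off _ _ (hz0 w) (norm_nonneg _) a1
  have step2 : ∀ w, Φ (z w) ≤ (if Has (b + 1) w then Φ (r * z (pa (b + 1) w)) else 0) +
      C * ‖y w‖ ^ P.toReal := by
    intro w
    have a1 := norm_add_le (y w) (((wt b r w : ℝ) : 𝕂) * co 𝕂 P b r (pa (b + 1) w) y)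
    rw [← co_apply b r w y] at a1
    by_cases h : Has (b + 1) w
    · rw [if_pos h]
      rw [wt_pos h, norm_mul, RCLike.norm_ofReal, abs_of_nonneg hr] at a1
      apply hΦ.lip _ _ _ (mul_nonneg hr (hz0 _)) (norm_nonneg _) (hz0 w)
      simp only [hz]
      linarith
    · rw [if_neg h, ← hΦ.zero]
      rw [wt_neg h] at a1
      apply hΦ.lip _ _ _ le_rfl (norm_nonneg _) (hz0 w)
      simp only [hz]
      simpa using a1
  have s1 : ∑ w ∈ range M, ((if w ∈ A then lam else 0) + b * Φ (r * z w)) ≤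
      ∑ w ∈ range M, (Φ (z w) + ‖c w‖ ^ P.toReal) := sum_le_sum fun w _ => step1 w
  have s2 : ∑ w ∈ range M, Φ (z w) ≤
      ∑ w ∈ range M, ((if Has (b + 1) w then Φ (r * z (pa (b + 1) w)) else 0) +
        C * ‖y w‖ ^ P.toReal) := sum_le_sum fun w _ => step2 w
  have s3 : ∑ w ∈ range M with Has (b + 1) w, Φ (r * z (pa (b + 1) w)) ≤
      b * ∑ v ∈ range M, Φ (r * z v) := by
    apply sum_pa_le b _ (range M) (fun v => Φ (r * z v))
      (fun v => hΦ.nonneg _ (mul_nonneg hr (hz0 v)))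
    intro w hw
    have := mem_filter.mp hw
    exact ⟨this.2, mem_range.mpr (lt_trans (pa_lt this.2) (mem_range.mp this.1))⟩
  have s4 : ∑ w ∈ range M, (if w ∈ A then lam else 0) = lam * A.card := by
    rw [← sum_filter, filter_mem_eq_inter, inter_eq_right.mpr hM, sum_const, nsmul_eq_mul,
      mul_comm]
  rw [sum_add_distrib, sum_add_distrib, s4, ← mul_sum] at s1
  rw [sum_add_distrib, ← sum_filter, ← mul_sum] at s2
  have s5 := sum_le_NN hp c (range M)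
  have s6 := mul_le_mul_of_nonneg_left (sum_le_NN hp y (range M)) hC
  linarith

theorem mu_ind_le (hp : 0 < P.toReal) (b : ℕ) {r C : ℝ} (hr : 0 ≤ r) (hC : 0 ≤ C)
    (A : Finset ℕ) (e : ℕ → 𝕂) (he : ∀ n ∈ A, ‖e n‖ = 1) :
    mu (Df hp b r hr) C (∑ n ∈ A, e n • bv hp b r hr n : Sq 𝕂 P) ≤ A.card := by
  rw [sum_bv]
  refine le_trans (mu_D_le hp _ hC _) (le_of_eq ?_)
  unfold NN
  rw [lp.norm_sum_single hp, sum_congr rfl (g := fun _ => (1 : ℝ))]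
  · simp
  · intro n hn
    rw [he n hn, Real.one_rpow]

/-- A unit vector with many equal small coordinates. -/
theorem exists_flat (b k : ℕ) (hb : 1 ≤ b) (r : ℝ) :
    ∃ T : Finset ℕ, T.card = b ^ k ∧
      ∀ w ∈ T, co 𝕂 P b r w (lp.single P ((b + 1) ^ k) (1 : 𝕂)) = ((r ^ k : ℝ) : 𝕂) := by
  set v := (b + 1) ^ k with hv
  have low : ∀ w, w < v → co 𝕂 P b r w (lp.single P v (1 : 𝕂)) = 0 := by
    intro w
    induction w using Nat.strong_induction_on with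
    | _ w ih =>
      intro hw
      rw [co_apply, lp.single_apply_ne P v _ hw.ne]
      by_cases h : Has (b + 1) w
      · rw [ih _ (pa_lt h) (lt_trans (pa_lt h) hw)]; simp
      · rw [wt_neg h]; simp
  apply exists_levels b k hb
    (fun j w => co 𝕂 P b r w (lp.single P v (1 : 𝕂)) = ((r ^ j : ℝ) : 𝕂))
  · rw [co_apply, lp.single_apply_self]
    by_cases h : Has (b + 1) v
    · rw [low _ (pa_lt h)]; simp
    · rw [wt_neg h]; simp
  · intro j w h hw hj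
    rw [co_apply, lp.single_apply_ne P v _ hw.ne', wt_pos h, hj]
    push_cast
    ring

/-- The sequence space is complete for the sum of `p`-th powers. -/
theorem NN_complete (hp : 0 < P.toReal) (u : ℕ → Sq 𝕂 P)
    (hu : ∀ ε : ℝ, 0 < ε → ∃ N : ℕ, ∀ m ≥ N, ∀ n ≥ N, ‖u m - u n‖ < ε) :
    ∃ f : Sq 𝕂 P, ∀ ε : ℝ, 0 < ε → ∃ N : ℕ, ∀ n ≥ N, ‖u n - f‖ < ε := by
  have hc : ∀ i, ∃ a : 𝕂, Filter.Tendsto (fun n => u n i) Filter.atTop (nhds a) := by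
    intro i
    apply cauchySeq_tendsto_of_complete
    rw [Metric.cauchySeq_iff]
    intro ε hε
    obtain ⟨N, hN⟩ := hu ε hε
    refine ⟨N, fun m hm n hn => ?_⟩
    rw [dist_eq_norm]
    exact lt_of_le_of_lt (lp.norm_apply_le_norm (ne_zero_of_pos hp) (u m - u n) i) (hN m hm n hn)
  choose a ha using hc
  have key : ∀ ε : ℝ, 0 < ε → ∃ N : ℕ, ∀ m ≥ N, ∀ s : Finset ℕ,
      ∑ i ∈ s, ‖u m i - a i‖ ^ P.toReal ≤ ε ^ P.toReal := by
    intro ε hε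
    obtain ⟨N, hN⟩ := hu ε hε
    refine ⟨N, fun m hm s => ?_⟩
    have hlim : Filter.Tendsto (fun n => ∑ i ∈ s, ‖u m i - u n i‖ ^ P.toReal) Filter.atTop
        (nhds (∑ i ∈ s, ‖u m i - a i‖ ^ P.toReal)) := by
      apply tendsto_finsetSum
      intro i _
      exact ((tendsto_const_nhds.sub (ha i)).norm).rpow_const (Or.inr hp.le)
    apply le_of_tendsto hlim
    filter_upwards [Filter.eventually_ge_atTop N] with n hn
    exact le_trans (sum_le_NN hp (u m - u n) s)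
      (Real.rpow_le_rpow (lp.norm_nonneg' _) (hN m hm n hn).le hp.le)
  obtain ⟨N1, hN1⟩ := key 1 one_pos
  have hm1 : Memℓp (fun i => u N1 i - a i) P := memℓp_gen' (hN1 N1 le_rfl)
  refine ⟨u N1 - ⟨fun i => u N1 i - a i, hm1⟩, fun ε hε => ?_⟩
  obtain ⟨N, hN⟩ := key (ε / 2) (by linarith)
  refine ⟨N, fun n hn => lt_of_le_of_lt (b := ε / 2) ?_ (by linarith)⟩
  apply lp.norm_le_of_forall_sum_le hp (by linarith)
  intro s
  refine le_trans (le_of_eq ?_) (hN n hn s)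
  apply sum_congr rfl
  intro i _
  have : (u n - (u N1 - ⟨fun i => u N1 i - a i, hm1⟩) : Sq 𝕂 P) i = u n i - a i := by
    change u n i - (u N1 i - (u N1 i - a i)) = _
    ring
  rw [this]

end Pool.Agent.E7Iso
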