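import Mathlib
import Pool.Agent.MP_e7ec4f_an.IsoNorm

/-! The examples, the two potentials and the isometric theorem. -/

set_option autoImplicit false

namespace Pool.Agent.E7Iso

open Finset
open scoped ENNReal

variable {𝕂 : Type} [RCLike 𝕂] {P : ℝ≥0∞}

theorem root_pow {p t : ℝ} (hp : 0 < p) (ht : 0 ≤ t) : (t ^ p⁻¹) ^ p = t :=
  Real.rpow_inv_rpow ht hp.ne'

theorem le_of_pow_le {p s t : ℝ} (hp : 0 < p) (hs : 0 ≤ s) (ht : 0 ≤ t) (h : s ^ p ≤ t ^ p) :
    s ≤ t := (Real.rpow_le_rpow_iff hs ht hp).mp h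

/-- An example from a potential. -/
theorem example_of_pot (hp : 0 < P.toReal) (hp1 : P.toReal ≤ 1) {b : ℕ} {r C lam L : ℝ}
    {Φ : ℝ → ℝ} (hb : 1 ≤ b) (hr : 0 < r) (hr1 : r < 1) (hC : 1 ≤ C) (hL : 0 ≤ L)
    (hlam : 1 ≤ L ^ P.toReal * lam) (hlam0 : 0 < lam) (hgrow : 1 < b * r ^ P.toReal)
    (hΦ : Pot P.toReal b r C lam Φ) :
    ∃ (q : Sq 𝕂 P → ℝ) (x : ℕ → Sq 𝕂 P) (xs : ℕ → Sq 𝕂 P →ₗ[𝕂] 𝕂),
      IsPNorm 𝕂 P.toReal q ∧ (∃ c₁ c₂ : ℝ, 0 < c₁ ∧ ∀ f, c₁ * ‖f‖ ≤ q f ∧ q f ≤ c₂ * ‖f‖) ∧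
      IsBasis q x xs ∧ IsSchauder q x xs ∧ IsQGLC L q x xs ∧ ¬ IsTQG q x xs := by
  classical
  set p := P.toReal with hpd
  have hC0 : 0 ≤ C := by linarith
  set D : Sq 𝕂 P →ₗ[𝕂] Sq 𝕂 P := Df hp b r hr.le with hD
  set K : ℝ := 1 + b * r ^ p with hK
  have hK1 : 1 ≤ K := by linarith
  set q : Sq 𝕂 P → ℝ := fun g => (mu D C g) ^ p⁻¹ with hq
  have q0 : ∀ g, 0 ≤ q g := fun g => Real.rpow_nonneg (mu_nonneg D hC0 g) _
  have qp : ∀ g, q g ^ p = mu D C g := fun g => root_pow hp (mu_nonneg D hC0 g)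
  have hlow : ∀ f, (K⁻¹) ^ p⁻¹ * ‖f‖ ≤ q f := by
    intro f
    have hKi : 0 ≤ K⁻¹ := by positivity
    apply le_of_pow_le hp (mul_nonneg (Real.rpow_nonneg hKi _) (lp.norm_nonneg' f)) (q0 f)
    rw [qp, Real.mul_rpow (Real.rpow_nonneg hKi _) (lp.norm_nonneg' f), root_pow hp hKi]
    exact NN_le_mu hp hp1 D hC hK1 (NN_Df hp hp1 b r hr.le) f
  have hup : ∀ f, q f ≤ C ^ p⁻¹ * ‖f‖ := by
    intro f
    apply le_of_pow_le hp (q0 f) (mul_nonneg (Real.rpow_nonneg hC0 _) (lp.norm_nonneg' f))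
    rw [qp, Real.mul_rpow (Real.rpow_nonneg hC0 _) (lp.norm_nonneg' f), root_pow hp hC0]
    exact mu_le_NN hp D hC0 f
  have hc1 : 0 < (K⁻¹) ^ p⁻¹ := Real.rpow_pos_of_pos (by positivity) _
  have hco : ∀ n f, ‖co 𝕂 P b r n f‖ ≤ (1 - r)⁻¹ * ((K⁻¹) ^ p⁻¹)⁻¹ * q f := by
    intro n f
    refine le_trans (norm_co_le hp b hr.le hr1 f n) ?_
    rw [mul_assoc]
    apply mul_le_mul_of_nonneg_left _ (inv_nonneg.mpr (by linarith))
    rw [← div_eq_inv_mul, le_div_iff₀ hc1, mul_comm]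
    exact hlow f
  have hS : IsSchauder q (bv hp b r hr.le) (co 𝕂 P b r) := by
    intro f
    rw [Metric.tendsto_atTop]
    intro ε hε
    have hCp : 0 < C := by linarith
    obtain ⟨M, hM⟩ := NN_tail hp hp1 b hr.le hr1 f
      (div_pos (Real.rpow_pos_of_pos (half_pos hε) p) hCp)
    refine ⟨M, fun m hm => ?_⟩
    rw [Real.dist_eq, sub_zero, abs_of_nonneg (q0 _)]
    refine lt_of_le_of_lt (le_of_pow_le hp (q0 _) (half_pos hε).le ?_) (half_lt_self hε)
    rw [qp]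
    refine le_trans (mu_le_NN hp D hC0 _) ?_
    have := hM m hm
    rw [le_div_iff₀ hCp] at this
    linarith
  have hbio : ∀ m n : ℕ, co 𝕂 P b r m (bv hp b r hr.le n) = if m = n then 1 else 0 := by
    intro m n
    rw [bv, co_Df, lp.single_apply, Pi.single_apply]
  refine ⟨q, bv hp b r hr.le, co 𝕂 P b r, ⟨q0, ?_, ?_, ?_⟩, ⟨_, _, hc1, fun f => ⟨hlow f, hup f⟩⟩,
    ⟨⟨1, ?_⟩, ⟨_, hco⟩, hbio, ?_⟩, hS, ?_, ?_⟩
  · intro f hf
    have h1 := hlow f
    rw [hf] at h1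
    have h2 : ‖f‖ ≤ 0 := by
      by_contra hc
      have := mul_pos hc1 (lt_of_not_ge hc)
      linarith
    exact lp.norm_eq_zero_iff.mp (le_antisymm h2 (lp.norm_nonneg' f))
  · intro c f
    simp only [hq]
    rw [mu_smul hp D hC0, Real.mul_rpow (Real.rpow_nonneg (norm_nonneg _) _) (mu_nonneg D hC0 f),
      Real.rpow_rpow_inv (norm_nonneg _) hp.ne']
  · intro f g
    rw [qp, qp, qp]
    exact mu_add hp hp1 D hC0 f g
  · intro n
    apply le_of_pow_le hp (q0 _) zero_le_one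
    rw [qp, Real.one_rpow]
    have := mu_ind_le (𝕂 := 𝕂) hp b hr.le hC0 {n} (fun _ => 1) (by simp)
    simpa using this
  · intro f ε hε
    obtain ⟨M, hM⟩ := (Metric.tendsto_atTop.mp (hS f)) ε hε
    refine ⟨∑ n ∈ range M, co 𝕂 P b r n f • bv hp b r hr.le n, ?_, ?_⟩
    · exact Submodule.sum_mem _ fun n _ =>
        Submodule.smul_mem _ _ (Submodule.subset_span ⟨n, rfl⟩)
    · have := hM M le_rfl
      rwa [Real.dist_eq, sub_zero, abs_of_nonneg (q0 _)] at this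
  · intro A e he f hf1 hf0
    apply le_of_pow_le hp (q0 _) (mul_nonneg hL (q0 _))
    rw [Real.mul_rpow hL (q0 _), qp, qp]
    have h1 := mu_ind_le hp b hr.le hC0 A e he
    have h2 := face_le_mu hp hr.le hC0 hΦ (∑ n ∈ A, e n • bv hp b r hr.le n + f) A (by
      intro n
      rw [map_add, co_sum_bv]
      by_cases hn : n ∈ A
      · rw [if_pos hn, hf0 n hn, add_zero, he n hn]
      · rw [if_neg hn, zero_add]; exact hf1 n) (by
      intro n hn
      rw [map_add, co_sum_bv, if_pos hn, hf0 n hn, add_zero, he n hn])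
    have h3 := mul_le_mul_of_nonneg_left h2 (Real.rpow_nonneg hL p)
    have h4 : (A.card : ℝ) ≤ L ^ p * (lam * A.card) := by
      rw [← mul_assoc]
      exact le_mul_of_one_le_left (Nat.cast_nonneg _) hlam
    exact le_trans h1 (le_trans h4 h3)
  · rintro ⟨K0, hK0⟩
    obtain ⟨k, hk⟩ := pow_unbounded_of_one_lt ((|K0| * C ^ p⁻¹) ^ p / lam) hgrow
    obtain ⟨T, hT, hTv⟩ := exists_flat (𝕂 := 𝕂) (P := P) b k hb r
    set f : Sq 𝕂 P := lp.single P ((b + 1) ^ k) (1 : 𝕂) with hf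
    have ht : 0 < r ^ k := pow_pos hr k
    have hfin : ∃ M : ℕ, ∀ n ≥ M, ‖co 𝕂 P b r n f‖ < r ^ k := by
      set M0 : ℝ := (1 - r)⁻¹ * ((K⁻¹) ^ p⁻¹)⁻¹ with hM0
      have hM0p : 0 < M0 := mul_pos (inv_pos.mpr (by linarith)) (inv_pos.mpr hc1)
      obtain ⟨M, hM⟩ := (Metric.tendsto_atTop.mp (hS f)) (r ^ k / M0) (div_pos ht hM0p)
      refine ⟨M, fun n hn => ?_⟩
      have h1 := hM n hn
      rw [Real.dist_eq, sub_zero, abs_of_nonneg (q0 _), lt_div_iff₀ hM0p] at h1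
      have h2 := hco n (f - ∑ j ∈ range n, co 𝕂 P b r j f • bv hp b r hr.le j)
      rw [map_sub, co_sum_bv, if_neg (by simp), sub_zero] at h2
      linarith
    obtain ⟨M, hM⟩ := hfin
    set A := (range M).filter (fun n => r ^ k ≤ ‖co 𝕂 P b r n f‖) with hA
    have hmem : ∀ n, n ∈ A ↔ r ^ k ≤ ‖co 𝕂 P b r n f‖ := by
      intro n
      rw [hA, mem_filter, mem_range]
      refine ⟨fun h => h.2, fun h => ⟨?_, h⟩⟩
      by_contra hc
      have := hM n (by omega)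
      linarith
    have hTA : T ⊆ A := by
      intro w hw
      rw [hmem, hTv w hw, RCLike.norm_ofReal, abs_of_pos ht]
    have hcard : (b : ℝ) ^ k ≤ A.card := by
      have := card_le_card hTA
      rw [hT] at this
      exact_mod_cast this
    have hne : A.Nonempty := by
      rw [← card_pos]
      have : (0 : ℝ) < A.card := lt_of_lt_of_le (by positivity) hcard
      exact_mod_cast this
    have h1 := hK0 f A hne (by
      intro n hn j hj
      rw [hmem] at hn hj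
      linarith) (r ^ k) (fun n hn => (hmem n).mp hn)
    set e : ℕ → 𝕂 := fun n => co 𝕂 P b r n f / ((‖co 𝕂 P b r n f‖ : ℝ) : 𝕂) with he
    have he1 : ∀ n ∈ A, ‖e n‖ = 1 := by
      intro n hn
      have : 0 < ‖co 𝕂 P b r n f‖ := lt_of_lt_of_le ht ((hmem n).mp hn)
      simp only [he]
      rw [norm_div, RCLike.norm_ofReal, abs_of_pos this, div_self this.ne']
    have h2 := face_le_mu hp hr.le hC0 hΦ (∑ n ∈ A, e n • bv hp b r hr.le n) A (by
      intro n
      rw [co_sum_bv]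
      by_cases hn : n ∈ A
      · rw [if_pos hn, he1 n hn]
      · rw [if_neg hn]; simp) (by
      intro n hn
      rw [co_sum_bv, if_pos hn, he1 n hn])
    have hnf : ‖f‖ = 1 := by
      rw [hf, lp.norm_single (pos_iff_ne_zero.mpr (ne_zero_of_pos hp)), norm_one]
    have h3 : K0 * q f ≤ |K0| * C ^ p⁻¹ := by
      have a1 := hup f
      rw [hnf, mul_one] at a1
      exact le_trans (mul_le_mul_of_nonneg_right (le_abs_self K0) (q0 f))
        (mul_le_mul_of_nonneg_left a1 (abs_nonneg _))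
    have h4 := Real.rpow_le_rpow (mul_nonneg ht.le (q0 _)) (le_trans h1 h3) hp.le
    rw [Real.mul_rpow ht.le (q0 _), qp] at h4
    have h5 : (r ^ k) ^ p = (r ^ p) ^ k := by
      rw [← Real.rpow_natCast, ← Real.rpow_natCast, ← Real.rpow_mul hr.le, ← Real.rpow_mul hr.le,
        mul_comm]
    have h6 : 0 ≤ (r ^ p) ^ k := by positivity
    rw [div_lt_iff₀ hlam0, mul_pow] at hk
    have h7 : (r ^ p) ^ k * (lam * (b : ℝ) ^ k) ≤ (r ^ p) ^ k * (lam * A.card) :=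
      mul_le_mul_of_nonneg_left (mul_le_mul_of_nonneg_left hcard hlam0.le) h6
    have h8 := mul_le_mul_of_nonneg_left h2 h6
    rw [h5] at h4
    nlinarith

/-- The potential for `p = 1` and `L > 1`. -/
theorem pot_one {L : ℝ} (hL : 1 < L) : ∃ (b : ℕ) (r : ℝ), 1 ≤ b ∧ 0 < r ∧ r < 1 ∧ 1 < b * r ∧
    Pot 1 b r 1 L⁻¹ (fun x => max 0 (x - (1 - L⁻¹))) := by
  have hi : L⁻¹ < 1 := inv_lt_one_of_one_lt₀ hL
  have hi0 : 0 < L⁻¹ := by positivity
  set η := 1 - L⁻¹ with hη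
  have hη0 : 0 < η := by linarith
  have hη1 : η < 1 := by linarith
  obtain ⟨b, hb⟩ := exists_nat_ge (9 / η)
  have hb9 : 9 ≤ b * η := by rwa [div_le_iff₀ hη0] at hb
  have hb0 : (9 : ℝ) ≤ b := by nlinarith [Nat.cast_nonneg (α := ℝ) b]
  have hbp : (0 : ℝ) < b := by linarith
  set r : ℝ := 3 / (2 * b) with hr
  have hbr : b * r = 3 / 2 := by rw [hr]; field_simp
  have hr0 : 0 < r := by positivity
  have hr6 : 6 * r ≤ η := by nlinarith
  have big : ∀ z : ℝ, η < r * z → 6 ≤ z ∧ b * max 0 (r * z - η) ≤ 3 / 2 * z := by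
    intro z hz
    refine ⟨by nlinarith, ?_⟩
    rw [max_eq_right (by linarith), ← hbr]
    nlinarith
  refine ⟨b, r, by exact_mod_cast (by linarith : (1 : ℝ) ≤ b), hr0, by linarith, by linarith,
    ⟨fun x _ => le_max_left _ _, max_eq_left (by linarith), ?_, ?_, ?_⟩⟩
  · intro x y z _ hy _ h
    rw [Real.rpow_one]
    apply max_le
    · have := le_max_left 0 (x - η); linarith
    · have := le_max_right 0 (x - η); linarith
  · intro z s _ hs h
    rw [Real.rpow_one]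
    have a1 := le_max_left 0 (z - η)
    have a2 := le_max_right 0 (z - η)
    by_cases hz : η < r * z
    · obtain ⟨b1, b2⟩ := big z hz
      linarith
    · rw [max_eq_left (by linarith : r * z - η ≤ 0)]
      linarith
  · intro z s _ hs h h'
    rw [Real.rpow_one]
    have a1 := le_max_left 0 (z - η)
    have a2 := le_max_right 0 (z - η)
    by_cases hz : η < r * z
    · obtain ⟨b1, b2⟩ := big z hz
      linarith
    · rw [max_eq_left (by linarith : r * z - η ≤ 0)]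
      linarith

/-- The potential for `p < 1`. -/
theorem pot_lt {p : ℝ} (hp : 0 < p) (hp1 : p < 1) : ∃ (b : ℕ) (r : ℝ), 1 ≤ b ∧ 0 < r ∧ r < 1 ∧
    1 < b * r ^ p ∧ Pot p b r 4 1 (fun x => 2 * min x (x ^ p)) := by
  have hs : 0 < p⁻¹ - 1 := by
    have : 1 < p⁻¹ := one_lt_inv₀ hp |>.mpr hp1
    linarith
  have hlim : Filter.Tendsto (fun n : ℕ => (n : ℝ) ^ (-(p⁻¹ - 1))) Filter.atTop (nhds 0) :=
    (tendsto_rpow_neg_atTop hs).comp tendsto_natCast_atTop_atTop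
  have h5 : (0 : ℝ) < 5 ^ p⁻¹ := by positivity
  obtain ⟨b, hb1, hb2⟩ := ((Filter.eventually_ge_atTop 1).and
    (hlim.eventually (gt_mem_nhds (by positivity : (0 : ℝ) < 1 / (2 * 5 ^ p⁻¹))))).exists
  have hb1' : (1 : ℝ) ≤ b := by exact_mod_cast hb1
  have hbp : (0 : ℝ) < b := by linarith
  set r : ℝ := (5 / (4 * b)) ^ p⁻¹ with hr
  set M : ℝ := 4 ^ p⁻¹ with hM
  have hr0 : 0 < r := by positivity
  have hrp : b * r ^ p = 5 / 4 := by
    rw [hr, root_pow hp (by positivity)]; field_simp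
  have hMp : M ^ p = 4 := root_pow hp (by norm_num)
  have hM1 : 1 ≤ M := Real.one_le_rpow (by norm_num) (by positivity)
  have hbrM : b * r * M ≤ 1 / 2 := by
    have e1 : r * M = 5 ^ p⁻¹ * ((b : ℝ) ^ p⁻¹)⁻¹ := by
      rw [hr, hM, ← Real.mul_rpow (by positivity) (by norm_num), ← Real.inv_rpow hbp.le,
        ← Real.mul_rpow (by norm_num) (by positivity)]
      congr 1
      field_simp
    have e2 : (b : ℝ) ^ (-(p⁻¹ - 1)) = b * ((b : ℝ) ^ p⁻¹)⁻¹ := by
      rw [neg_sub, Real.rpow_sub hbp, Real.rpow_one, div_eq_mul_inv]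
    rw [e2, lt_div_iff₀ (by positivity)] at hb2
    rw [mul_assoc, e1]
    nlinarith
  have hbr0 : 0 < b * r := by positivity
  have hbr : b * r ≤ 1 / 2 := by nlinarith
  have hr1 : r < 1 := by nlinarith
  have small : ∀ x : ℝ, 0 ≤ x → x ≤ 1 → x ≤ x ^ p := fun x h0 h1 => by
    have := Real.rpow_le_rpow_of_exponent_ge' h0 h1 hp.le hp1.le
    rwa [Real.rpow_one] at this
  have large : ∀ x : ℝ, 1 ≤ x → x ^ p ≤ x := fun x h1 => by
    have := Real.rpow_le_rpow_of_exponent_le h1 hp1.le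
    rwa [Real.rpow_one] at this
  have one_le : ∀ x : ℝ, 1 ≤ x → 1 ≤ x ^ p := fun x h1 => Real.one_le_rpow h1 hp.le
  have main : ∀ z s : ℝ, 0 ≤ z → 0 ≤ s → z - 1 ≤ s → 1 ≤ z →
      1 + b * (2 * min (r * z) ((r * z) ^ p)) ≤ 2 * min z (z ^ p) + s ^ p := by
    intro z s hz hs0 h h1
    rw [min_eq_right (large z h1)]
    have hsp : 0 ≤ s ^ p := Real.rpow_nonneg hs0 _
    by_cases hzM : z ≤ M
    · have a1 : b * (2 * min (r * z) ((r * z) ^ p)) ≤ b * (2 * (r * z)) :=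
        mul_le_mul_of_nonneg_left (by linarith [min_le_left (r * z) ((r * z) ^ p)]) hbp.le
      have a2 : b * r * z ≤ b * r * M := mul_le_mul_of_nonneg_left hzM hbr0.le
      have a3 := one_le z h1
      nlinarith
    · have a1 : b * (2 * min (r * z) ((r * z) ^ p)) ≤ b * (2 * ((r * z) ^ p)) :=
        mul_le_mul_of_nonneg_left (by linarith [min_le_right (r * z) ((r * z) ^ p)]) hbp.le
      rw [Real.mul_rpow hr0.le hz] at a1
      have a2 : b * (2 * (r ^ p * z ^ p)) = 5 / 2 * z ^ p := by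
        have : b * (2 * (r ^ p * z ^ p)) = 2 * (b * r ^ p) * z ^ p := by ring
        rw [this, hrp]; ring
      have a3 : 4 ≤ z ^ p := by
        rw [← hMp]
        exact Real.rpow_le_rpow (by linarith) (le_of_not_ge hzM) hp.le
      have a4 : z ^ p ≤ s ^ p + 1 := by
        have c1 : z ^ p ≤ (s + 1) ^ p := Real.rpow_le_rpow hz (by linarith) hp.le
        have c2 := Real.rpow_add_le_add_rpow hs0 zero_le_one hp.le hp1.le
        rw [Real.one_rpow] at c2
        linarith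
      rw [Real.mul_rpow hr0.le hz]
      linarith
  have lowz : ∀ z : ℝ, 0 ≤ z → z ≤ 1 →
      b * (2 * min (r * z) ((r * z) ^ p)) ≤ z ∧ min z (z ^ p) = z := by
    intro z hz h1
    refine ⟨?_, min_eq_left (small z hz h1)⟩
    have a1 : b * (2 * min (r * z) ((r * z) ^ p)) ≤ b * (2 * (r * z)) :=
      mul_le_mul_of_nonneg_left (by linarith [min_le_left (r * z) ((r * z) ^ p)]) hbp.le
    nlinarith
  refine ⟨b, r, hb1, hr0, hr1, by linarith, ⟨?_, ?_, ?_, ?_, ?_⟩⟩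
  · intro x hx
    exact mul_nonneg zero_le_two (le_min hx (Real.rpow_nonneg hx _))
  · simp [Real.zero_rpow hp.ne']
  · intro x y z hx hy hz h
    have hyp : 0 ≤ y ^ p := Real.rpow_nonneg hy _
    have a1 : z ^ p ≤ x ^ p + y ^ p :=
      le_trans (Real.rpow_le_rpow hz h hp.le) (Real.rpow_add_le_add_rpow hx hy hp.le hp1.le)
    have a2 := min_le_left z (z ^ p)
    have a3 := min_le_right z (z ^ p)
    by_cases hx1 : x ≤ 1
    · rw [min_eq_left (small x hx hx1)]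
      by_cases hy1 : y ≤ 1
      · have := small y hy hy1
        linarith
      · have b1 := one_le y (le_of_not_ge hy1)
        have b2 : x ^ p ≤ 1 := Real.rpow_le_one hx hx1 hp.le
        linarith
    · rw [min_eq_right (large x (le_of_not_ge hx1))]
      linarith
  · intro z s hz hs0 h
    have hsp : 0 ≤ s ^ p := Real.rpow_nonneg hs0 _
    by_cases h1 : z ≤ 1
    · obtain ⟨a1, a2⟩ := lowz z hz h1
      rw [a2]; linarith
    · have := main z s hz hs0 h (le_of_not_ge h1)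
      linarith
  · intro z s hz hs0 h h'
    by_cases h1 : z ≤ 1
    · obtain ⟨a1, a2⟩ := lowz z hz h1
      have a3 : 1 - z ≤ s ^ p :=
        le_trans (small (1 - z) (by linarith) (by linarith))
          (Real.rpow_le_rpow (by linarith) h' hp.le)
      rw [a2]; linarith
    · exact main z s hz hs0 h (le_of_not_ge h1)

/-- The counterexamples. -/
theorem exists_example (hp : 0 < P.toReal) (hp1 : P.toReal ≤ 1) {L : ℝ} (hL : 1 ≤ L)
    (hne : ¬ (P.toReal = 1 ∧ L = 1)) :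
    ∃ (q : Sq 𝕂 P → ℝ) (x : ℕ → Sq 𝕂 P) (xs : ℕ → Sq 𝕂 P →ₗ[𝕂] 𝕂),
      IsPNorm 𝕂 P.toReal q ∧ (∃ c₁ c₂ : ℝ, 0 < c₁ ∧ ∀ f, c₁ * ‖f‖ ≤ q f ∧ q f ≤ c₂ * ‖f‖) ∧
      IsBasis q x xs ∧ IsSchauder q x xs ∧ IsQGLC L q x xs ∧ ¬ IsTQG q x xs := by
  rcases lt_or_eq_of_le hp1 with h | h
  · obtain ⟨b, r, hb, hr, hr1, hg, hΦ⟩ := pot_lt hp h
    exact example_of_pot hp hp1 hb hr hr1 (by norm_num) (by linarith)
      (by rw [mul_one]; exact Real.one_le_rpow hL hp.le) one_pos hg hΦ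
  · have hL1 : 1 < L := lt_of_le_of_ne hL (fun e => hne ⟨h, e.symm⟩)
    obtain ⟨b, r, hb, hr, hr1, hg, hΦ⟩ := pot_one hL1
    refine example_of_pot hp hp1 hb hr hr1 le_rfl (by linarith) (lam := L⁻¹) ?_
      (by positivity) ?_ (by rw [h]; exact hΦ)
    · rw [h, Real.rpow_one, mul_inv_cancel₀ (by linarith)]
    · rw [h, Real.rpow_one]; exact hg

end Pool.Agent.E7Iso
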