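import Mathlib
import Pool.Agent.MP_e7ec4f_an.IsoMain

/-! The isometric theorem in normed spaces and the dichotomy. -/

set_option autoImplicit false

namespace Pool.Agent.E7Iso

open Finset
open scoped ENNReal

variable {𝕂 : Type} [RCLike 𝕂]

section pos

variable {X : Type} [AddCommGroup X] [Module 𝕂 X] {q : X → ℝ} {x : ℕ → X}
  {xs : ℕ → X →ₗ[𝕂] 𝕂}

theorem xs_sum (hb : ∀ m n : ℕ, xs m (x n) = if m = n then 1 else 0) (A : Finset ℕ) (a : ℕ → 𝕂)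
    (w : ℕ) : xs w (∑ n ∈ A, a n • x n) = if w ∈ A then a w else 0 := by
  rw [map_sum]
  simp only [map_smul, hb, smul_eq_mul, mul_ite, mul_one, mul_zero]
  exact Finset.sum_ite_eq A w a

theorem tri (hq : IsPNorm 𝕂 1 q) (f g : X) : q (f + g) ≤ q f + q g := by
  have := hq.2.2.2 f g
  simpa using this

theorem q_real (hq : IsPNorm 𝕂 1 q) {t : ℝ} (ht : 0 ≤ t) (f : X) :
    q (((t : ℝ) : 𝕂) • f) = t * q f := by
  rw [hq.2.2.1, RCLike.norm_ofReal, abs_of_nonneg ht]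

theorem cube_le (hq : IsPNorm 𝕂 1 q) (hb : ∀ m n : ℕ, xs m (x n) = if m = n then 1 else 0)
    (hG : IsQGLC 1 q x xs) (A : Finset ℕ) (e : ℕ → 𝕂) (he : ∀ n ∈ A, ‖e n‖ = 1) (θ : ℕ → ℝ)
    (hθ : ∀ n ∈ A, 0 ≤ θ n ∧ θ n ≤ 1) (B : Finset ℕ) :
    B ⊆ A → ∀ S : Finset ℕ, S ⊆ A → Disjoint S B →
      q (∑ n ∈ S, e n • x n + ∑ n ∈ B, (((θ n : ℝ) : 𝕂) * e n) • x n) ≤ q (∑ n ∈ A, e n • x n) := by
  classical
  induction B using Finset.induction_on with
  | empty =>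
    intro _ S hS _
    rw [sum_empty, add_zero]
    have := hG S e (fun n hn => he n (hS hn)) (∑ n ∈ A \ S, e n • x n) (by
      intro n
      rw [xs_sum hb]
      by_cases hn : n ∈ A \ S
      · rw [if_pos hn, he n (mem_sdiff.mp hn).1]
      · rw [if_neg hn]; simp) (by
      intro n hn
      rw [xs_sum hb, if_neg (fun h => (mem_sdiff.mp h).2 hn)])
    rwa [one_mul, add_comm, sum_sdiff hS] at this
  | insert j B hj ih =>
    intro hB S hS hd
    have hjA : j ∈ A := hB (mem_insert_self j B)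
    have hBA : B ⊆ A := fun n hn => hB (mem_insert_of_mem hn)
    have hjS : j ∉ S := fun h => (Finset.disjoint_left.mp hd h) (mem_insert_self j B)
    have hd1 : Disjoint S B := hd.mono_right (subset_insert j B)
    have hd2 : Disjoint (insert j S) B := by
      rw [disjoint_insert_left]; exact ⟨hj, hd1⟩
    have h1 := ih hBA S hS hd1
    have h2 := ih hBA (insert j S) (insert_subset hjA hS) hd2
    rw [sum_insert hjS] at h2
    rw [sum_insert hj]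
    set U := ∑ n ∈ S, e n • x n
    set V := ∑ n ∈ B, (((θ n : ℝ) : 𝕂) * e n) • x n
    have e1 : U + ((((θ j : ℝ) : 𝕂) * e j) • x j + V) =
        ((θ j : ℝ) : 𝕂) • (e j • x j + U + V) + ((1 - θ j : ℝ) : 𝕂) • (U + V) := by
      push_cast
      module
    obtain ⟨t0, t1⟩ := hθ j hjA
    rw [e1]
    refine le_trans (tri hq _ _) ?_
    rw [q_real hq t0, q_real hq (by linarith)]
    have a1 := mul_le_mul_of_nonneg_left h2 t0
    have a2 := mul_le_mul_of_nonneg_left h1 (by linarith : 0 ≤ 1 - θ j)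
    linarith

/-- In a normed space a `1`-QGLC basis is truncation quasi-greedy with constant one. -/
theorem tqg_of_one (hq : IsPNorm 𝕂 1 q) (hb : ∀ m n : ℕ, xs m (x n) = if m = n then 1 else 0)
    (hG : IsQGLC 1 q x xs) : IsTQG q x xs := by
  classical
  refine ⟨1, fun f A hA hgr t ht => ?_⟩
  rw [one_mul]
  set e : ℕ → 𝕂 := fun n => xs n f / ((‖xs n f‖ : ℝ) : 𝕂) with he
  set u := ∑ n ∈ A, e n • x n with hu
  by_cases ht0 : t ≤ 0
  · exact le_trans (mul_nonpos_of_nonpos_of_nonneg ht0 (hq.1 _)) (hq.1 f)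
  have ht1 : 0 < t := lt_of_not_ge ht0
  obtain ⟨n0, hn0, hmin⟩ := exists_min_image A (fun n => ‖xs n f‖) hA
  obtain ⟨n1, hn1, hmax⟩ := exists_max_image A (fun n => ‖xs n f‖) hA
  set m := ‖xs n0 f‖ with hm
  have hm0 : 0 < m := lt_of_lt_of_le ht1 (ht n0 hn0)
  set T := ‖xs n1 f‖ / m with hT
  have hT1 : 1 ≤ T := by rw [hT, le_div_iff₀ hm0, one_mul]; exact hmin n1 hn1
  have hT0 : 0 < T := by linarith
  have hpos : ∀ n ∈ A, 0 < ‖xs n f‖ := fun n hn => lt_of_lt_of_le hm0 (hmin n hn)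
  have he1 : ∀ n ∈ A, ‖e n‖ = 1 := by
    intro n hn
    simp only [he]
    rw [norm_div, RCLike.norm_ofReal, abs_of_pos (hpos n hn), div_self (hpos n hn).ne']
  set θ : ℕ → ℝ := fun n => 1 - (‖xs n f‖ / m - 1) / T with hθ
  have hθ1 : ∀ n ∈ A, 0 ≤ θ n ∧ θ n ≤ 1 := by
    intro n hn
    have a1 : 1 ≤ ‖xs n f‖ / m := by rw [le_div_iff₀ hm0, one_mul]; exact hmin n hn
    have a2 : ‖xs n f‖ / m ≤ T := div_le_div_of_nonneg_right (hmax n hn) hm0.le
    have a3 : 0 ≤ (‖xs n f‖ / m - 1) / T := div_nonneg (by linarith) hT0.le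
    have a4 : (‖xs n f‖ / m - 1) / T ≤ 1 := by rw [div_le_one hT0]; linarith
    simp only [hθ]
    constructor <;> linarith
  have h1 := cube_le hq hb hG A e he1 θ hθ1 A subset_rfl ∅ (empty_subset A) (disjoint_empty_left A)
  rw [sum_empty, zero_add, ← hu] at h1
  set w := ∑ n ∈ A, (((θ n : ℝ) : 𝕂) * e n) • x n with hw
  set g := f - ∑ n ∈ A, xs n f • x n with hg
  have hs0 : 0 < ((T + 1) * m)⁻¹ := by positivity
  have h2 := hG A e he1 (((((T + 1) * m)⁻¹ : ℝ) : 𝕂) • g) (by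
    intro n
    rw [map_smul, smul_eq_mul, norm_mul, RCLike.norm_ofReal, abs_of_pos hs0, hg, map_sub,
      xs_sum hb]
    by_cases hn : n ∈ A
    · rw [if_pos hn]; simp
    · rw [if_neg hn, sub_zero, ← div_eq_inv_mul, div_le_one (by positivity)]
      have := hgr n0 hn0 n hn
      nlinarith) (by
    intro n hn
    rw [map_smul, hg, map_sub, xs_sum hb, if_pos hn]; simp)
  rw [one_mul, ← hu] at h2
  have hTk : ((T : ℝ) : 𝕂) ≠ 0 := by exact_mod_cast hT0.ne'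
  have hmk : ((m : ℝ) : 𝕂) ≠ 0 := by exact_mod_cast hm0.ne'
  have hT1k : ((T : ℝ) : 𝕂) + 1 ≠ 0 := by
    have : ((T + 1 : ℝ) : 𝕂) ≠ 0 := by exact_mod_cast (by linarith : T + 1 ≠ 0)
    push_cast at this
    exact this
  have e1 : (((T + 1) * m : ℝ) : 𝕂) • u =
      ∑ n ∈ A, xs n f • x n + ((T * m : ℝ) : 𝕂) • w := by
    rw [hu, hw, smul_sum, smul_sum, ← sum_add_distrib]
    apply sum_congr rfl
    intro n hn
    have hk : ((‖xs n f‖ : ℝ) : 𝕂) ≠ 0 := by exact_mod_cast (hpos n hn).ne'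
    rw [smul_smul, smul_smul, ← add_smul]
    have : (((T + 1) * m : ℝ) : 𝕂) * e n = xs n f + ((T * m : ℝ) : 𝕂) * (((θ n : ℝ) : 𝕂) * e n) := by
      simp only [he, hθ]
      push_cast
      field_simp
      ring
    rw [this]
  have e2 : (((T + 1) * m : ℝ) : 𝕂) • (u + ((((T + 1) * m)⁻¹ : ℝ) : 𝕂) • g) =
      f + ((T * m : ℝ) : 𝕂) • w := by
    rw [smul_add, e1, smul_smul, ← RCLike.ofReal_mul, mul_inv_cancel₀ (by positivity), hg]
    simp only [RCLike.ofReal_one, one_smul]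
    abel
  have h3 := q_real hq (by positivity : 0 ≤ (T + 1) * m) (u + ((((T + 1) * m)⁻¹ : ℝ) : 𝕂) • g)
  rw [e2] at h3
  have h4 := tri hq f (((T * m : ℝ) : 𝕂) • w)
  rw [q_real hq (by positivity : 0 ≤ T * m)] at h4
  have h5 := mul_le_mul_of_nonneg_left h2 (by positivity : 0 ≤ (T + 1) * m)
  have h6 := mul_le_mul_of_nonneg_left h1 (by positivity : 0 ≤ T * m)
  have h7 : m * q u ≤ q f := by nlinarith
  exact le_trans (mul_le_mul_of_nonneg_right (ht n0 hn0) (hq.1 u)) h7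

end pos

theorem compl_of_equiv {P : ℝ≥0∞} (hp : 0 < P.toReal) {q : Sq 𝕂 P → ℝ} {c₁ c₂ : ℝ} (hc : 0 < c₁)
    (h : ∀ f, c₁ * ‖f‖ ≤ q f ∧ q f ≤ c₂ * ‖f‖) : IsCompl q := by
  intro u hu
  obtain ⟨f, hf⟩ := NN_complete hp u (by
    intro ε hε
    obtain ⟨N, hN⟩ := hu (c₁ * ε) (mul_pos hc hε)
    exact ⟨N, fun m hm n hn =>
      lt_of_mul_lt_mul_left (lt_of_le_of_lt (h _).1 (hN m hm n hn)) hc.le⟩)
  refine ⟨f, fun ε hε => ?_⟩
  have hk : 0 < |c₂| + 1 := by positivity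
  obtain ⟨N, hN⟩ := hf (ε / (|c₂| + 1)) (div_pos hε hk)
  refine ⟨N, fun n hn => ?_⟩
  have h1 := hN n hn
  rw [lt_div_iff₀ hk] at h1
  have h2 := (h (u n - f)).2
  have h3 := lp.norm_nonneg' (u n - f)
  have h4 := le_abs_self c₂
  nlinarith

theorem dichotomy (𝕂 : Type) [RCLike 𝕂] (p L : ℝ) (hp : 0 < p) (hp1 : p ≤ 1) (hL : 1 ≤ L) :
    List.TFAE
      [∀ (X : Type) [AddCommGroup X] [Module 𝕂 X] (q : X → ℝ) (x : ℕ → X) (xs : ℕ → X →ₗ[𝕂] 𝕂),
          IsPNorm 𝕂 p q → IsCompl q → IsBasis q x xs → IsQGLC L q x xs → IsTQG q x xs,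
        ∀ (q : lp (fun _ : ℕ => 𝕂) (ENNReal.ofReal p) → ℝ)
          (x : ℕ → lp (fun _ : ℕ => 𝕂) (ENNReal.ofReal p))
          (xs : ℕ → lp (fun _ : ℕ => 𝕂) (ENNReal.ofReal p) →ₗ[𝕂] 𝕂),
          IsPNorm 𝕂 p q → (∃ c₁ c₂ : ℝ, 0 < c₁ ∧ ∀ f, c₁ * ‖f‖ ≤ q f ∧ q f ≤ c₂ * ‖f‖) →
          IsBasis q x xs → IsSchauder q x xs → IsQGLC L q x xs → IsTQG q x xs,
        p = 1 ∧ L = 1] := by
  have hP : (ENNReal.ofReal p).toReal = p := ENNReal.toReal_ofReal hp.le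
  tfae_have 1 → 2 := by
    rintro h q x xs h1 ⟨c₁, c₂, hc, h2⟩ h3 _ h5
    exact h _ q x xs h1 (compl_of_equiv (by rw [hP]; exact hp) hc h2) h3 h5
  tfae_have 2 → 3 := by
    intro h
    by_contra hne
    obtain ⟨q, x, xs, h1, h2, h3, h4, h5, h6⟩ :=
      exists_example (𝕂 := 𝕂) (P := ENNReal.ofReal p) (by rw [hP]; exact hp)
        (by rw [hP]; exact hp1) hL (by rw [hP]; exact hne)
    rw [hP] at h1
    exact h6 (h q x xs h1 h2 h3 h4 h5)
  tfae_have 3 → 1 := by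
    rintro ⟨rfl, rfl⟩ X _ _ q x xs h1 _ h3 h4
    exact tqg_of_one h1 h3.2.2.1 h4
  tfae_finish

end Pool.Agent.E7Iso
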