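import Mathlib
import Pool.Agent.MP_e7ec4f_an.Defs

/-! Necessary conditions on the threshold function. -/

namespace Pool.Agent.MP_e7ec4f_an

open Finset

variable {𝕂 X : Type} [RCLike 𝕂] [AddCommGroup X] [Module 𝕂 X]
  {q : X → ℝ} {x : ℕ → X} {xs : ℕ → X →ₗ[𝕂] 𝕂}

theorem IsBasis.add' (h : IsBasis q x xs) :
    ∃ κ : ℝ, 1 ≤ κ ∧ ∀ f g, q (f + g) ≤ κ * (q f + q g) := by
  obtain ⟨κ, hκ⟩ := h.add
  exact ⟨max κ 1, le_max_right _ _, fun f g => (hκ f g).trans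
    (mul_le_mul_of_nonneg_right (le_max_left _ _) (add_nonneg (h.nonneg f) (h.nonneg g)))⟩

theorem IsBasis.zero (h : IsBasis q x xs) : q 0 = 0 := by
  simpa using h.smul 0 0

theorem IsBasis.rsmul (h : IsBasis q x xs) {t : ℝ} (ht : 0 ≤ t) (f : X) :
    q ((t : 𝕂) • f) = t * q f := by
  rw [h.smul, RCLike.norm_ofReal, abs_of_nonneg ht]

theorem IsBasis.coef_sum (h : IsBasis q x xs) (A : Finset ℕ) (v : ℕ → 𝕂) (k : ℕ) :
    xs k (∑ n ∈ A, v n • x n) = if k ∈ A then v k else 0 := by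
  simp [map_sum, h.biorth]

theorem IsBasis.finite (h : IsBasis q x xs) (f : X) {a : ℝ} (ha : 0 < a) :
    ∃ A : Finset ℕ, ∀ n, n ∈ A ↔ a ≤ ‖xs n f‖ := by
  obtain ⟨M, hM⟩ := h.bdd_dual
  obtain ⟨g, hg, hfg⟩ := h.dense f (a / (|M| + 1)) (by positivity)
  obtain ⟨c, rfl⟩ := Finsupp.mem_span_range_iff_exists_finsupp.1 hg
  refine ⟨c.support.filter fun n => a ≤ ‖xs n f‖, fun n => ?_⟩
  rw [mem_filter, and_iff_right_iff_imp]
  intro hn
  by_contra hc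
  have h1 := hM n (f - c.sum fun i a => a • x i)
  rw [map_sub, Finsupp.sum, h.coef_sum, if_neg hc, sub_zero] at h1
  rw [Finsupp.sum, lt_div_iff₀ (by positivity)] at hfg
  have h2 := h.nonneg (f - ∑ i ∈ c.support, c i • x i)
  nlinarith [le_abs_self M, mul_le_mul_of_nonneg_right (le_abs_self M) h2]

theorem Thr.mono (h : IsBasis q x xs) {a C C' : ℝ} (h1 : Thr q x xs a C) (h2 : C ≤ C') :
    Thr q x xs a C' := fun f hf A hA =>
  (h1 f hf A hA).trans (mul_le_mul_of_nonneg_right h2 (h.nonneg f))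

theorem Thr.scale (h : IsBasis q x xs) {a C L : ℝ} (h1 : Thr q x xs a C) (hL : 0 < L) (f : X)
    (hf : ∀ n, ‖xs n f‖ ≤ L) (A : Finset ℕ) (hA : ∀ n ∈ A, a * L ≤ ‖xs n f‖) :
    q (∑ n ∈ A, xs n f • x n) ≤ C * q f := by
  have e : ∀ n, ‖xs n (((L⁻¹ : ℝ) : 𝕂) • f)‖ = L⁻¹ * ‖xs n f‖ := fun n => by
    rw [map_smul, norm_smul, RCLike.norm_ofReal, abs_of_pos (inv_pos.2 hL)]
  have h2 := h1 (((L⁻¹ : ℝ) : 𝕂) • f) (fun n => by rw [e, inv_mul_le_iff₀ hL, mul_one]; exact hf n)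
    A fun n hn => by rw [e, le_inv_mul_iff₀ hL, mul_comm]; exact hA n hn
  simp only [map_smul, smul_assoc] at h2
  rw [← smul_sum, h.rsmul (inv_pos.2 hL).le, h.rsmul (inv_pos.2 hL).le, mul_left_comm] at h2
  exact le_of_mul_le_mul_left h2 (inv_pos.2 hL)

theorem Thr.mul (h : IsBasis q x xs) {κ : ℝ} (hκ1 : 1 ≤ κ)
    (hκ : ∀ f g, q (f + g) ≤ κ * (q f + q g)) {a b C D : ℝ} (ha : 0 < a) (hD : 0 ≤ D)
    (h1 : Thr q x xs a C) (h2 : Thr q x xs b D) :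
    Thr q x xs (a * b) (κ * (C + D * (κ * (1 + C)))) := by
  intro f hf A hA
  obtain ⟨T, hT⟩ := h.finite f ha
  have e : ∀ n, xs n (f - ∑ n ∈ T, xs n f • x n) = if n ∈ T then 0 else xs n f := fun n => by
    rw [map_sub, h.coef_sum]; split_ifs <;> simp
  have h3 := h1 f hf (A.filter (· ∈ T)) fun n hn => (hT n).1 (mem_filter.1 hn).2
  have h4 := h1 f hf T fun n hn => (hT n).1 hn
  have h5 := h2.scale h ha (f - ∑ n ∈ T, xs n f • x n) (fun n => by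
    rw [e]; split_ifs with hn
    · simpa using ha.le
    · exact (not_le.1 (mt (hT n).2 hn)).le) (A.filter (· ∉ T)) fun n hn => by
    rw [e, if_neg (mem_filter.1 hn).2, mul_comm]; exact hA n (mem_filter.1 hn).1
  rw [sum_congr rfl fun n hn => by rw [e, if_neg (mem_filter.1 hn).2]] at h5
  have h6 := hκ f ((-1 : 𝕂) • ∑ n ∈ T, xs n f • x n)
  rw [h.smul, norm_neg, norm_one, one_mul, neg_one_smul, ← sub_eq_add_neg] at h6
  rw [← sum_filter_add_sum_filter_not A (· ∈ T), mul_assoc]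
  refine (hκ _ _).trans (mul_le_mul_of_nonneg_left ?_ (by linarith))
  have h7 : q (f - ∑ n ∈ T, xs n f • x n) ≤ κ * (1 + C) * q f := by
    rw [mul_assoc]
    exact h6.trans (mul_le_mul_of_nonneg_left (by linarith) (by linarith))
  nlinarith [mul_le_mul_of_nonneg_left h7 hD]

theorem IsBasis.nat_mult (h : IsBasis q x xs) (N : ℕ) : ∃ w : ℝ, 0 ≤ w ∧
    ∀ (G : ℝ) (g : ℕ → X) (A : Finset ℕ), (∀ B ⊆ A, q (∑ n ∈ B, g n) ≤ G) →
      ∀ b : ℕ → ℕ, (∀ n, b n ≤ N) → q (∑ n ∈ A, (b n : 𝕂) • g n) ≤ w * G := by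
  obtain ⟨κ, hκ1, hκ⟩ := h.add'
  induction N with
  | zero =>
    refine ⟨0, le_rfl, fun G g A _ b hb => ?_⟩
    simp [fun n => Nat.le_zero.1 (hb n), h.zero]
  | succ N ih =>
    obtain ⟨w, hw, ih⟩ := ih
    refine ⟨κ * (w + 1), by positivity, fun G g A hG b hb => ?_⟩
    have e : ∑ n ∈ A, (b n : 𝕂) • g n = ∑ n ∈ A, ((min (b n) N : ℕ) : 𝕂) • g n +
        ∑ n ∈ A.filter fun n => b n = N + 1, g n := by
      rw [sum_filter, ← sum_add_distrib]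
      refine sum_congr rfl fun n _ => ?_
      split_ifs with hn
      · rw [hn, min_eq_right (Nat.le_succ N), Nat.cast_succ, add_smul, one_smul]
      · rw [min_eq_left (by have := hb n; omega), add_zero]
    rw [e, mul_assoc]
    refine (hκ _ _).trans (mul_le_mul_of_nonneg_left ?_ (by linarith))
    have h1 := ih G g A hG (fun n => min (b n) N) fun n => min_le_right _ _
    have h2 := hG _ (filter_subset (fun n => b n = N + 1) A)
    linarith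

theorem IsBasis.real_mult (h : IsBasis q x xs) : ∃ w : ℝ,
    ∀ (G : ℝ) (g : ℕ → X) (A : Finset ℕ), (∀ B ⊆ A, q (∑ n ∈ B, g n) ≤ G) →
      ∀ θ : ℕ → ℝ, (∀ n, θ n ∈ Set.Icc (0 : ℝ) 1) → q (∑ n ∈ A, (θ n : 𝕂) • g n) ≤ w * G := by
  obtain ⟨κ, hκ1, hκ⟩ := h.add'
  obtain ⟨N, hN⟩ := exists_nat_ge (2 * κ)
  obtain ⟨w, hw, h1⟩ := h.nat_mult N
  have hN0 : (0 : ℝ) < N := by linarith
  refine ⟨w, fun G g A hG => ?_⟩
  have hb : ∀ A : Finset ℕ, ∃ R : ℝ, ∀ θ : ℕ → ℝ, (∀ n, θ n ∈ Set.Icc (0 : ℝ) 1) →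
      q (∑ n ∈ A, (θ n : 𝕂) • g n) ≤ R := fun A => by
    induction A using Finset.induction_on with
    | empty => exact ⟨0, fun θ _ => by simp [h.zero]⟩
    | insert n A hn ih =>
      obtain ⟨R, hR⟩ := ih
      refine ⟨κ * (q (g n) + R), fun θ hθ => ?_⟩
      rw [sum_insert hn]
      refine (hκ _ _).trans (mul_le_mul_of_nonneg_left (add_le_add ?_ (hR θ hθ)) (by linarith))
      rw [h.rsmul (hθ n).1]
      exact mul_le_of_le_one_left (h.nonneg _) (hθ n).2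
  obtain ⟨R, hR⟩ := hb A
  set S : Set ℝ := {z | ∃ θ : ℕ → ℝ, (∀ n, θ n ∈ Set.Icc (0 : ℝ) 1) ∧
    z = q (∑ n ∈ A, (θ n : 𝕂) • g n)} with hS
  have hbd : BddAbove S := ⟨R, by rintro _ ⟨θ, hθ, rfl⟩; exact hR θ hθ⟩
  have h0 : (0 : ℝ) ∈ S := ⟨fun _ => 0, fun _ => by simp, by simp [h.zero]⟩
  have hG0 : 0 ≤ G := by simpa [h.zero] using hG ∅ (empty_subset _)
  have h2 : sSup S ≤ (w * G + sSup S) / 2 := by
    refine csSup_le ⟨0, h0⟩ ?_
    rintro _ ⟨θ, hθ, rfl⟩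
    have e : ∑ n ∈ A, (θ n : 𝕂) • g n = (((N : ℝ)⁻¹ : ℝ) : 𝕂) •
        (∑ n ∈ A, ((⌊N * θ n⌋₊ : ℕ) : 𝕂) • g n +
          ∑ n ∈ A, ((N * θ n - ⌊N * θ n⌋₊ : ℝ) : 𝕂) • g n) := by
      rw [← sum_add_distrib, smul_sum]
      refine sum_congr rfl fun n _ => ?_
      rw [← add_smul, smul_smul]
      congr 1
      have : (N : 𝕂) ≠ 0 := by exact_mod_cast hN0.ne'
      push_cast
      field_simp
      ring
    have h3 := h1 G g A hG (fun n => ⌊N * θ n⌋₊) fun n =>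
      Nat.floor_le_of_le (mul_le_of_le_one_right hN0.le (hθ n).2)
    have h4 := le_csSup hbd ⟨fun n => N * θ n - ⌊N * θ n⌋₊, fun n =>
      ⟨sub_nonneg.2 (Nat.floor_le (mul_nonneg hN0.le (hθ n).1)),
        by linarith [Nat.lt_floor_add_one (N * θ n)]⟩, rfl⟩
    rw [e, h.rsmul (inv_pos.2 hN0).le, inv_mul_le_iff₀ hN0]
    refine (hκ _ _).trans ((mul_le_mul_of_nonneg_left (add_le_add h3 h4) (by linarith)).trans ?_)
    have := le_csSup hbd h0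
    have := mul_nonneg hw hG0
    nlinarith
  intro θ hθ
  have := le_csSup hbd ⟨θ, hθ, rfl⟩
  linarith

theorem IsBasis.tqg (h : IsBasis q x xs) {C : ℝ}
    (hC : ∀ a ∈ Set.Ioc (0 : ℝ) 1, Thr q x xs a C) : IsTQG q x xs := by
  obtain ⟨w, hw⟩ := h.real_mult
  obtain ⟨M, hM⟩ := h.bdd_dual
  refine ⟨|w * C|, fun f A hne _ t ht => ?_⟩
  rcases le_or_gt t 0 with h0 | h0
  · exact (mul_nonpos_of_nonpos_of_nonneg h0 (h.nonneg _)).trans
      (mul_nonneg (abs_nonneg _) (h.nonneg f))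
  obtain ⟨k, hk⟩ := hne
  have hL : t ≤ M * q f := (ht k hk).trans (hM k f)
  have hL0 : 0 < M * q f := h0.trans_le hL
  have h1 := hw (C * q f) (fun n => xs n f • x n) A (fun B hB =>
    (hC (t / (M * q f)) ⟨by positivity, (div_le_one hL0).2 hL⟩).scale h hL0 f (fun n => hM n f) B
      fun n hn => by rw [div_mul_cancel₀ _ hL0.ne']; exact ht n (hB hn))
    (fun n => if n ∈ A then t / ‖xs n f‖ else 0) fun n => by
      split_ifs with hn
      · exact ⟨by positivity, (div_le_one (h0.trans_le (ht n hn))).2 (ht n hn)⟩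
      · simp
  rw [← h.rsmul h0.le, smul_sum]
  rw [sum_congr rfl fun n hn => show _ = (t : 𝕂) • (xs n f / ((‖xs n f‖ : ℝ) : 𝕂)) • x n by
    rw [if_pos hn, smul_smul, smul_smul]; congr 1; push_cast; ring, ← mul_assoc] at h1
  exact h1.trans (mul_le_mul_of_nonneg_right (le_abs_self _) (h.nonneg f))

theorem necessary (h : IsBasis q x xs) {ψ : ℝ → ℝ} (hψ : ∀ a ∈ Set.Ioc (0 : ℝ) 1, 1 ≤ ψ a)
    (h1 : ¬ IsTQG q x xs) (h2 : HasThreshold q x xs ψ) :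
    ¬ BddAbove (ψ '' Set.Ioc 0 1) ∧ ∃ C : ℝ, ∀ a ∈ Set.Ioc (0 : ℝ) 1, ∀ b ∈ Set.Ioc (0 : ℝ) 1,
      ψ (a * b) ≤ C * ψ a * ψ b := by
  obtain ⟨C, hC, h2⟩ := h2
  obtain ⟨κ, hκ1, hκ⟩ := h.add'
  refine ⟨fun ⟨R, hR⟩ => h1 (h.tqg (C := C * R) fun a ha => (h2 a ha).1.mono h
    (mul_le_mul_of_nonneg_left (hR ⟨a, ha, rfl⟩) hC.le)),
    C * (κ * (C + C * (κ * (1 + C)))), fun a ha b hb => ?_⟩
  have h3 := hψ a ha
  have h4 := hψ b hb
  have h5 := Thr.mul h hκ1 hκ ha.1 (by positivity) (h2 a ha).1 (h2 b hb).1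
  have h6 := not_le.1 (mt (h5.mono h) (h2 (a * b)
    ⟨mul_pos ha.1 hb.1, mul_le_one₀ ha.2 hb.1.le hb.2⟩).2)
  rw [div_lt_iff₀' hC] at h6
  refine h6.le.trans ?_
  have h7 : 1 + C * ψ a ≤ (1 + C) * ψ a := by linarith
  have h8 : C * ψ a ≤ C * ψ a * ψ b := le_mul_of_one_le_right (by positivity) h4
  have h9 := mul_le_mul_of_nonneg_left h7 (show 0 ≤ C * ψ b * κ by positivity)
  have h10 : C * ψ a + C * ψ b * (κ * (1 + C * ψ a)) ≤ (C + C * (κ * (1 + C))) * ψ a * ψ b := by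
    linarith
  have h11 := mul_le_mul_of_nonneg_left h10 (show 0 ≤ C * κ by positivity)
  linarith

end Pool.Agent.MP_e7ec4f_an
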