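import Mathlib
import Pool.Agent.MP_e7ec4f_an.Nec
import Pool.Agent.MP_e7ec4f_an.Block

/-! A basis of a quotient of a Hilbert space. -/

namespace Pool.Agent.MP_e7ec4f_an

open Finset Filter Topology

variable {𝕂 : Type} [RCLike 𝕂] {ψ : ℝ → ℝ}

theorem le_of_sq {a b : ℝ} (h : a ^ 2 ≤ b ^ 2) (hb : 0 ≤ b) : a ≤ b :=
  (abs_le_of_sq_le_sq' h hb).2

theorem quot {E : Type} [NormedAddCommGroup E] [InnerProductSpace 𝕂 E] [CompleteSpace E]
    (P : Par ψ) (hψ : ∀ a ∈ Set.Ioc (0 : ℝ) 1, 1 ≤ ψ a) (φ : ℕ → E →L[𝕂] 𝕂) (u : ℕ → E)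
    (hu : Orthonormal 𝕂 u) (hb : ∀ m n, φ m (u n) = if m = n then 1 else 0) {M C D : ℝ}
    (hM : ∀ n y, ‖φ n y‖ ≤ M * ‖y‖) (hC : 0 ≤ C) (hD : 0 < D)
    (cut : ∀ y N, ∃ y', (∀ n, φ n y' = if n < N then φ n y else 0) ∧ ‖y'‖ ≤ C * ‖y‖)
    (fin : ∀ y, ∀ ε > 0, ∃ y₀ N, ‖y - y₀‖ < ε ∧ ∀ n, N ≤ n → φ n y₀ = 0)
    (thr : ∀ a ∈ Set.Ioc (0 : ℝ) 1, ∀ y, (∀ n, ‖φ n y‖ ≤ 1) → ∀ A : Finset ℕ,
      (∀ n ∈ A, a ≤ ‖φ n y‖) → ∑ n ∈ A, ‖φ n y‖ ^ 2 ≤ (D * ψ a * ‖y‖) ^ 2)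
    (low : ∀ K, ∃ (y : E) (A A' : Finset ℕ) (v : ℕ → ℝ), ‖y‖ ≤ 1 ∧ A ⊆ A' ∧ A.card = 4 ^ P.d K ∧
      (∀ n, φ n y = v n) ∧ (∀ n ∈ A, v n = P.c K) ∧ (∀ n ∈ A', P.c K ≤ v n ∧ v n ≤ 1) ∧
      ∀ n ∉ A', v n = 0) :
    ∃ (H : Type) (_ : NormedAddCommGroup H) (_ : InnerProductSpace 𝕂 H) (_ : CompleteSpace H)
      (x : ℕ → H) (xs : ℕ → H →ₗ[𝕂] 𝕂), IsBasis norm x xs ∧
      (∀ f, Tendsto (fun N => ∑ n ∈ range N, xs n f • x n) atTop (𝓝 f)) ∧
      ¬ IsTQG norm x xs ∧ HasThreshold norm x xs ψ := by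
  set N : Submodule 𝕂 E := ⨅ n, LinearMap.ker (φ n : E →ₗ[𝕂] 𝕂) with hN
  have hN' : ∀ y, y ∈ N ↔ ∀ n, φ n y = 0 := fun y => by simp [hN]
  have hcl : IsClosed (N : Set E) := by
    rw [hN, Submodule.coe_iInf]
    exact isClosed_iInter fun n => (φ n).isClosed_ker
  have : CompleteSpace N := hcl.completeSpace_coe
  set pr := Nᗮ.orthogonalProjectionOnto with hpr
  have p1 : ∀ n y, φ n (pr y) = φ n y := fun n y => by
    have := Nᗮ.sub_starProjection_mem_orthogonal y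
    rw [Submodule.orthogonal_orthogonal, hN'] at this
    exact (sub_eq_zero.1 ((map_sub _ _ _).symm.trans (this n))).symm
  have p2 : ∀ y y', (∀ n, φ n y = φ n y') → pr y = pr y' := fun y y' h => by
    rw [← sub_eq_zero, ← map_sub]
    exact Submodule.orthogonalProjectionOnto_orthogonal_apply_eq_zero
      ((hN' _).2 fun n => by rw [map_sub, h, sub_self])
  have p3 : ∀ y, ‖pr y‖ ≤ ‖y‖ := fun y => Nᗮ.norm_orthogonalProjectionOnto_apply_le y
  have p4 : ∀ f : Nᗮ, pr f = f := fun f =>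
    Submodule.orthogonalProjectionOnto_mem_subspace_eq_self f
  set x : ℕ → Nᗮ := fun n => pr (u n) with hx
  set xs : ℕ → Nᗮ →ₗ[𝕂] 𝕂 := fun n => (φ n : E →ₗ[𝕂] 𝕂) ∘ₗ Nᗮ.subtype with hxs
  have e1 : ∀ n (f : Nᗮ), xs n f = φ n f := fun _ _ => rfl
  have e2 : ∀ (A : Finset ℕ) (v : ℕ → 𝕂), ∑ n ∈ A, v n • x n = pr (∑ n ∈ A, v n • u n) :=
    fun A v => by simp [hx]
  have e3 : ∀ (A : Finset ℕ) (v : ℕ → 𝕂) k, φ k (∑ n ∈ A, v n • u n) = if k ∈ A then v k else 0 :=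
    fun A v k => by simp [hb]
  have e4 : ∀ (A : Finset ℕ) (v : ℕ → 𝕂), ‖∑ n ∈ A, v n • u n‖ ^ 2 = ∑ n ∈ A, ‖v n‖ ^ 2 :=
    fun A v => by
      rw [← inner_self_eq_norm_sq (𝕜 := 𝕂), hu.inner_sum, map_sum]
      exact sum_congr rfl fun n _ => by rw [RCLike.conj_mul]; norm_cast
  have sch : ∀ f, Tendsto (fun N => ∑ n ∈ range N, xs n f • x n) atTop (𝓝 f) := fun f => by
    rw [Metric.tendsto_atTop]
    intro ε hε
    obtain ⟨y₀, N₀, h1, h2⟩ := fin f (ε / (C + 1)) (by positivity)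
    refine ⟨N₀, fun n hn => ?_⟩
    obtain ⟨y', h3, h4⟩ := cut (f - y₀) n
    have h5 : ∑ k ∈ range n, xs k f • x k - f = pr y' - pr (f - y₀) := by
      rw [e2, ← p4 f, ← map_sub, ← map_sub, p4]
      refine p2 _ _ fun k => ?_
      simp only [map_sub, e3, h3, mem_range, e1]
      split_ifs with hk
      · ring
      · rw [h2 k (by omega), sub_zero]
    rw [lt_div_iff₀ (by positivity)] at h1
    rw [dist_eq_norm, h5]
    linarith [norm_sub_le (pr y') (pr (f - y₀)), p3 y', p3 (f - y₀)]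
  have bas : IsBasis norm x xs := by
    refine ⟨norm_nonneg, fun f => norm_eq_zero.1, norm_smul,
      ⟨1, fun f g => by rw [one_mul]; exact norm_add_le f g⟩, fun w hw => ?_,
      ⟨1, fun n => (p3 _).trans (hu.1 n).le⟩, ⟨M, fun n f => hM n f⟩,
      fun m n => (p1 m _).trans (hb m n), fun f ε hε => ?_⟩
    · obtain ⟨f, hf⟩ := cauchySeq_tendsto_of_complete (u := w)
        (Metric.cauchySeq_iff.2 (by simpa only [dist_eq_norm] using hw))
      exact ⟨f, by simpa only [dist_eq_norm] using Metric.tendsto_atTop.1 hf⟩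
    · obtain ⟨n, hn⟩ := Metric.tendsto_atTop.1 (sch f) ε hε
      exact ⟨_, Submodule.sum_mem _ fun k _ => Submodule.smul_mem _ _
        (Submodule.subset_span ⟨k, rfl⟩), by rw [← dist_eq_norm, dist_comm]; exact hn n le_rfl⟩
  have h1 := hψ 1 (by simp)
  have key : ∀ (K : ℕ) (A : Finset ℕ), 4 ^ P.d K ≤ A.card →
      P.B ^ K ≤ D * ψ 1 * (P.c K * ‖∑ n ∈ A, (1 : 𝕂) • x n‖) := fun K A hA => by
    have h2 : ∀ k, φ k (∑ n ∈ A, (1 : 𝕂) • x n : Nᗮ) = if k ∈ A then 1 else 0 := fun k =>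
      bas.coef_sum A (fun _ => 1) k
    have h3 := thr 1 (by simp) _ (fun k => by rw [h2]; split_ifs <;> simp) A
      fun k hk => by rw [h2, if_pos hk, norm_one]
    rw [sum_congr rfl fun k hk => by rw [h2, if_pos hk, norm_one, one_pow], sum_const, nsmul_eq_mul,
      mul_one] at h3
    have h4 : (4 : ℝ) ^ P.d K ≤ A.card := by exact_mod_cast hA
    have h5 := P.c0 K
    refine le_of_sq ?_ (by positivity)
    rw [← P.sq, mul_left_comm, mul_pow (P.c K), mul_comm]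
    exact mul_le_mul_of_nonneg_left (h4.trans h3) (sq_nonneg _)
  refine ⟨Nᗮ, inferInstance, inferInstance, inferInstance, x, xs, bas, sch, ?_,
    D + 2 * D * ψ 1 * P.C, by have := P.C0; positivity, fun a ha => ⟨fun f hf A hA => ?_, ?_⟩⟩
  · rintro ⟨L, hL⟩
    obtain ⟨K, hK⟩ := pow_unbounded_of_one_lt (D * ψ 1 * |L|) (show 1 < P.B by linarith [P.B2])
    obtain ⟨y, A, A', v, h2, h3, h4, h5, -, h7, h8⟩ := low K
    have h9 : ∀ n ∈ A', ‖xs n (pr y)‖ = v n := fun n hn => by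
      rw [e1, p1, h5, RCLike.norm_ofReal, abs_of_pos ((P.c0 K).trans_le (h7 n hn).1)]
    have h10 := hL (pr y) A' ((card_pos.1 (by rw [h4]; positivity)).mono h3)
      (fun n _ k hk => by rw [e1, p1, h5, h8 k hk]; simp) (P.c K)
      fun n hn => by rw [h9 n hn]; exact (h7 n hn).1
    rw [sum_congr rfl fun n hn => show _ = (1 : 𝕂) • x n by
      rw [h9 n hn, e1, p1, h5, div_self (RCLike.ofReal_ne_zero.2
        ((P.c0 K).trans_le (h7 n hn).1).ne')]] at h10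
    have h11 := key K A' (h4 ▸ card_le_card h3)
    have h12 : L * ‖pr y‖ ≤ |L| := (mul_le_mul_of_nonneg_right (le_abs_self L) (norm_nonneg _)).trans
      (mul_le_of_le_one_right (abs_nonneg L) ((p3 y).trans h2))
    linarith [mul_le_mul_of_nonneg_left (h10.trans h12) (show 0 ≤ D * ψ 1 by positivity)]
  · have h2 := hψ a ha
    have h3 := P.C0
    rw [e2]
    refine (p3 _).trans ((le_of_sq ((e4 _ _).trans_le (thr a ha f hf A hA))
      (by positivity)).trans ?_)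
    refine mul_le_mul_of_nonneg_right (mul_le_mul_of_nonneg_right ?_ (by linarith)) (norm_nonneg _)
    exact le_add_of_nonneg_right (by positivity)
  · intro h
    obtain ⟨K, hK, hK'⟩ := P.low a ha
    obtain ⟨y, A, A', v, h2, h3, h4, h5, h6, h7, h8⟩ := low K
    have h9 : ∀ n ∈ A, xs n (pr y) = P.c K := fun n hn => by rw [e1, p1, h5, h6 n hn]
    have h10 := h (pr y) (fun n => by
      rw [e1, p1, h5, RCLike.norm_ofReal]
      by_cases hn : n ∈ A'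
      · rw [abs_of_pos ((P.c0 K).trans_le (h7 n hn).1)]; exact (h7 n hn).2
      · simp [h8 n hn]) A fun n hn => by rwa [h9 n hn, RCLike.norm_ofReal, abs_of_pos (P.c0 K)]
    rw [sum_congr rfl fun n hn => show _ = (P.c K : 𝕂) • (1 : 𝕂) • x n by rw [h9 n hn, one_smul],
      ← smul_sum, bas.rsmul (P.c0 K).le] at h10
    have h11 := key K A h4.ge
    have h12 := hψ a ha
    have h13 := P.C0
    have h14 := h10.trans (mul_le_of_le_one_right (by positivity) ((p3 y).trans h2))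
    rw [le_div_iff₀ (by positivity)] at h14
    have h15 := mul_le_mul_of_nonneg_left h11 h13.le
    have h16 : 0 ≤ P.c K * ‖∑ n ∈ A, (1 : 𝕂) • x n‖ * D := by have := P.c0 K; positivity
    linarith

end Pool.Agent.MP_e7ec4f_an
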