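import Mathlib
import Pool.Agent.MP_e7ec4f_an.Cut
import Pool.Agent.MP_e7ec4f_an.Quot

/-! The Hilbert space and its basis. -/

namespace Pool.Agent.MP_e7ec4f_an

open Finset Filter Topology

theorem exists_enum {α : Type} [Countable α] {S : Set α} (hS : S.Infinite) (w : α → ℕ)
    (hw : ∀ n, {a | a ∈ S ∧ w a ≤ n}.Finite) :
    ∃ ε : ℕ → α, Function.Injective ε ∧ Set.range ε = S ∧ Monotone fun n => w (ε n) := by
  classical
  obtain ⟨c, hc⟩ := exists_injective_nat α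
  let : LinearOrder S := LinearOrder.lift' (fun a => toLex (w a, c a))
    fun a b h => Subtype.ext (hc (congrArg (fun z => (ofLex z).2) h))
  have h1 : ∀ a b : S, a ≤ b → w a ≤ w b := fun a b h => Prod.Lex.monotone_fst _ _ h
  have h2 : StrictMono fun a : S => (Set.Iio a).ncard := fun a b h =>
    Set.ncard_lt_ncard (Set.Iio_ssubset_Iio h) (((hw (w b)).preimage
      Subtype.val_injective.injOn).subset fun x hx => ⟨x.2, h1 _ _ (le_of_lt hx)⟩)
  have := hS.to_subtype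
  have := (Set.infinite_range_of_injective h2.injective).to_subtype
  let e := (Nat.Subtype.orderIsoOfNat _).trans (h2.orderIso _).symm
  refine ⟨fun n => e n, Subtype.val_injective.comp e.injective, ?_,
    fun a b h => h1 _ _ (e.monotone h)⟩
  exact (e.surjective.range_comp _).trans Subtype.range_coe

/-- pairs -/
abbrev Pr : Type := Σ _ : ℕ, ℕ

/-- the coordinates of the large space -/
abbrev Co : Type := Σ _ : ℕ, Pr ⊕ Pr

variable {𝕂 : Type} [RCLike 𝕂] {ψ : ℝ → ℝ} (P : Par ψ)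

/-- the indices of the basis in a block -/
def Par.IX (K : ℕ) : Finset Pr := (range (K + 1)).sigma fun i => range (4 ^ P.d i)

/-- the coordinates of a block -/
def Par.T (K : ℕ) : Finset (Pr ⊕ Pr) :=
  ((range (P.d K + 1)).sigma fun e => range (4 ^ e)).disjSum (P.IX K)

/-- the increments in a block -/
def dl (y : Co → 𝕂) (K e m : ℕ) : 𝕂 := y ⟨K, .inl ⟨e, m⟩⟩

/-- the remainders in a block -/
def rr (y : Co → 𝕂) (K i m : ℕ) : 𝕂 := y ⟨K, .inr ⟨i, m⟩⟩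

/-- the coefficients -/
noncomputable def Par.Phi (y : Co → 𝕂) (μ : Σ _ : ℕ, Pr) : 𝕂 :=
  P.phi (dl y μ.1) (rr y μ.1) μ.2.1 μ.2.2

theorem Par.mem_IX {K : ℕ} {q : Pr} : q ∈ P.IX K ↔ q.1 ≤ K ∧ q.2 < 4 ^ P.d q.1 := by
  simp [Par.IX]

theorem Par.nb_eq (y : Co → 𝕂) (K : ℕ) :
    P.nb K (dl y K) (rr y K) = ∑ q ∈ P.T K, ‖y ⟨K, q⟩‖ ^ 2 := by
  rw [Par.T, sum_disjSum, Par.IX, sum_sigma, sum_sigma]
  rfl

theorem Par.nb_le (y : lp (fun _ : Co => 𝕂) 2) (s : Finset ℕ) :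
    ∑ K ∈ s, P.nb K (dl y K) (rr y K) ≤ ‖y‖ ^ 2 := by
  have := lp.sum_rpow_le_norm_rpow (p := 2) (by simp) y (s.sigma P.T)
  simp only [ENNReal.toReal_ofNat, Real.rpow_ofNat, sum_sigma] at this
  simpa only [P.nb_eq] using this

theorem tau_lin (s : ℝ) (a : 𝕂) (δ δ' : ℕ → ℕ → 𝕂) (e : ℕ) :
    ∀ m, tau s (fun e m => a * δ e m + δ' e m) e m = a * tau s δ e m + tau s δ' e m := by
  induction e with
  | zero => exact fun m => rfl
  | succ e ih => intro m; simp only [tau, ih]; ring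

theorem Par.Phi_lin (a : 𝕂) (y y' : Co → 𝕂) (μ : Σ _ : ℕ, Pr) :
    P.Phi (fun i => a * y i + y' i) μ = a * P.Phi y μ + P.Phi y' μ := by
  have := tau_lin P.s a (dl y μ.1) (dl y' μ.1) (P.d μ.2.1) μ.2.2
  unfold Par.Phi Par.phi rr
  unfold dl at this ⊢
  rw [this]
  ring

theorem tau_zero (s : ℝ) (e : ℕ) : ∀ m, tau s (fun _ _ => (0 : 𝕂)) e m = 0 := by
  induction e with
  | zero => exact fun m => rfl
  | succ e ih => intro m; simp [tau, ih]

theorem Par.Phi_congr {y y' : Co → 𝕂} {μ : Σ _ : ℕ, Pr} (hμ : μ.2 ∈ P.IX μ.1)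
    (h : ∀ q ∈ P.T μ.1, y ⟨μ.1, q⟩ = y' ⟨μ.1, q⟩) : P.Phi y μ = P.Phi y' μ := by
  have h1 := P.mem_IX.1 hμ
  unfold Par.Phi Par.phi
  rw [tau_congr P.s (δ := dl y μ.1) (δ' := dl y' μ.1) (D := P.d μ.1) (fun e he m hm => h (.inl ⟨e, m⟩) (by
    simp [Par.T, he, hm])) _ (P.mono.monotone h1.1) _ h1.2]
  exact congrArg (· + _) (h (.inr μ.2) (by simpa [Par.T] using hμ))

theorem Par.Phi_zero {y : Co → 𝕂} {μ : Σ _ : ℕ, Pr} (h : ∀ q, y ⟨μ.1, .inl q⟩ = 0) :
    P.Phi y μ = y ⟨μ.1, .inr μ.2⟩ := by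
  unfold Par.Phi Par.phi
  rw [show dl y μ.1 = fun _ _ => 0 from funext₂ fun e m => h _, tau_zero, mul_zero, add_zero]
  rfl

/-- the coefficient functionals -/
noncomputable def Par.F (μ : Σ _ : ℕ, Pr) : lp (fun _ : Co => 𝕂) 2 →L[𝕂] 𝕂 :=
  LinearMap.mkContinuous
    { toFun := fun y => P.Phi y μ
      map_add' := fun y y' => by
        have := P.Phi_lin 1 y y' μ
        simp only [one_mul] at this
        exact this
      map_smul' := fun a y => by
        have := P.Phi_lin a y (fun _ => 0) μ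
        rw [P.Phi_zero (y := fun _ => (0 : 𝕂)) fun _ => rfl] at this
        simp only [add_zero] at this
        exact this }
    (1 + (1 - P.s)⁻¹) fun y => P.phi_le _ _ (fun _ _ => lp.norm_apply_le_norm (by simp) y _)
      (fun _ _ => lp.norm_apply_le_norm (by simp) y _) _ _

/-- a finitely supported vector -/
noncomputable def fsv (s : Finset Co) (z : Co → 𝕂) : lp (fun _ : Co => 𝕂) 2 :=
  ∑ i ∈ s, lp.single 2 i (z i)

theorem fsv_apply (s : Finset Co) (z : Co → 𝕂) (j : Co) : fsv s z j = if j ∈ s then z j else 0 := by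
  rw [fsv, lp.coeFn_sum, Finset.sum_apply]
  simp only [lp.single_apply, Pi.single_apply, sum_ite_eq]

theorem norm_fsv (s : Finset Co) (z : Co → 𝕂) : ‖fsv s z‖ ^ 2 = ∑ i ∈ s, ‖z i‖ ^ 2 := by
  simpa [fsv] using lp.norm_sum_single (E := fun _ : Co => 𝕂) (p := 2) (by simp) z s

/-- the position of an index -/
def Par.w (μ : Σ _ : ℕ, Pr) : ℕ := 4 ^ P.d μ.1 + μ.2.2 * 4 ^ (P.d μ.1 - P.d μ.2.1)

theorem Par.pos_lt {μ : Σ _ : ℕ, Pr} (h : μ.2 ∈ P.IX μ.1) :
    μ.2.2 * 4 ^ (P.d μ.1 - P.d μ.2.1) < 4 ^ P.d μ.1 := by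
  have h1 := P.mem_IX.1 h
  refine (Nat.mul_lt_mul_of_pos_right h1.2 (by positivity)).trans_eq ?_
  rw [← pow_add, Nat.add_sub_cancel' (P.mono.monotone h1.1)]

theorem Par.w_lt {μ ν : Σ _ : ℕ, Pr} (h : μ.2 ∈ P.IX μ.1) (h' : μ.1 < ν.1) : P.w μ < P.w ν := by
  have h1 := P.pos_lt h
  have h2 : 4 ^ (P.d μ.1 + 1) ≤ 4 ^ P.d ν.1 := Nat.pow_le_pow_right (by norm_num) (P.mono h')
  rw [pow_succ] at h2
  unfold Par.w
  omega

theorem Par.exists_enum : ∃ ε : ℕ → Σ _ : ℕ, Pr, Function.Injective ε ∧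
    Set.range ε = {μ | μ.2 ∈ P.IX μ.1} ∧ Monotone fun n => P.w (ε n) := by
  refine MP_e7ec4f_an.exists_enum (Set.infinite_of_injective_forall_mem
    (f := fun K : ℕ => ⟨K, 0, 0⟩) (fun a b h => congrArg Sigma.fst h) fun K => by simp [P.mem_IX])
    P.w fun n => ((range n).sigma P.IX).finite_toSet.subset fun μ h => ?_
  have h1 : μ.1 < 4 ^ P.d μ.1 := P.mono.le_apply.trans_lt (Nat.lt_pow_self (by norm_num))
  have h2 := h.2
  unfold Par.w at h2
  exact mem_coe.2 (mem_sigma.2 ⟨mem_range.2 (by omega), h.1⟩)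

theorem Par.cut' {ε : ℕ → Σ _ : ℕ, Pr} (h1 : Function.Injective ε)
    (h2 : Set.range ε = {μ | μ.2 ∈ P.IX μ.1}) (h3 : Monotone fun n => P.w (ε n))
    (y : lp (fun _ : Co => 𝕂) 2) (N : ℕ) : ∃ y' : lp (fun _ : Co => 𝕂) 2,
      (∀ n, P.F (ε n) y' = if n < N then P.F (ε n) y else 0) ∧
      ‖y'‖ ≤ (1 + 6 * ((1 - P.s) ^ 2)⁻¹) * ‖y‖ := by
  classical
  have hv : ∀ n, (ε n).2 ∈ P.IX (ε n).1 := fun n => (h2 ▸ Set.mem_range_self n :
    ε n ∈ {μ : Σ _ : ℕ, Pr | μ.2 ∈ P.IX μ.1})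
  have h4 : ∀ n, P.w (ε n) < P.w (ε N) → n < N := fun n h => h3.reflect_lt h
  have h5 : ∀ n, P.w (ε N) < P.w (ε n) → ¬ n < N := fun n h => (h3.reflect_lt h).not_gt
  obtain ⟨K, hK⟩ : ∃ K, (ε N).1 = K := ⟨_, rfl⟩
  obtain ⟨p, hp⟩ : ∃ p, (ε N).2.2 * 4 ^ (P.d K - P.d (ε N).2.1) = p := ⟨_, rfl⟩
  have hw : P.w (ε N) = 4 ^ P.d K + p := by rw [Par.w, hK, hp]
  obtain ⟨δ, r, h6, h7⟩ := P.cut K p (by rw [← hp, ← hK]; exact P.pos_lt (hv N)) (dl y K) (rr y K)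
    (fun i m => ∃ n < N, ε n = ⟨K, i, m⟩) (fun i hi m hm => by
      have h6 : m * 4 ^ (P.d K - P.d i) < p := (Nat.mul_lt_mul_of_pos_right hm (by positivity)).trans_le
        (Nat.div_mul_le_self _ _)
      have h7 : m < 4 ^ P.d i := hm.trans (by
        rw [Nat.div_lt_iff_lt_mul (by positivity), ← pow_add,
          Nat.add_sub_cancel' (P.mono.monotone hi), ← hp, ← hK]
        exact P.pos_lt (hv N))
      obtain ⟨n, hn⟩ : (⟨K, i, m⟩ : Σ _ : ℕ, Pr) ∈ Set.range ε := h2 ▸ P.mem_IX.2 ⟨hi, h7⟩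
      exact ⟨n, h4 n (by rw [hw, hn]; exact Nat.add_lt_add_left h6 _), hn⟩)
    (fun i hi m _ hm ⟨n, hn, e⟩ => h5 n (by
      rw [hw, e]
      exact Nat.add_lt_add_left ((Nat.div_lt_iff_lt_mul (by positivity)).1 hm) _) hn)
  set z : Co → 𝕂 := fun j => if j.1 = K then Sum.elim (fun q => δ q.1 q.2) (fun q => r q.1 q.2) j.2
    else y j with hz
  have z1 : dl z K = δ := funext₂ fun e m => by simp [hz, dl]
  have z2 : rr z K = r := funext₂ fun e m => by simp [hz, rr]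
  have z3 : ∀ k q, (⟨k, q⟩ : Co) ∈ (range (K + 1)).sigma P.T ↔ k ≤ K ∧ q ∈ P.T k := by simp
  refine ⟨fsv ((range (K + 1)).sigma P.T) z, fun n => ?_, ?_⟩
  · show P.Phi _ _ = if n < N then P.Phi _ _ else 0
    rcases lt_trichotomy (ε n).1 K with h | h | h
    · rw [if_pos (h4 n (P.w_lt (hv n) (hK ▸ h)))]
      exact P.Phi_congr (hv n) fun q hq => by
        rw [fsv_apply, if_pos ((z3 _ _).2 ⟨h.le, hq⟩)]
        exact if_neg h.ne
    · rw [P.Phi_congr (y' := z) (hv n) fun q hq => by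
        rw [fsv_apply, if_pos ((z3 _ _).2 ⟨h.le, hq⟩)]]
      unfold Par.Phi
      rw [h, z1, z2, h6]
      refine if_congr ⟨fun ⟨k, hk, e⟩ => ?_, fun hn => ⟨n, hn, by rw [← h]⟩⟩ rfl rfl
      rwa [← h1 (show ε k = ε n by rw [e, ← h])]
    · have h8 : ∀ q, fsv ((range (K + 1)).sigma P.T) z ⟨(ε n).1, q⟩ = 0 := fun q => by
        rw [fsv_apply, if_neg fun hq => h.not_ge ((z3 _ _).1 hq).1]
      rw [if_neg (h5 n (P.w_lt (hv N) (hK ▸ h))), P.Phi_zero fun q => h8 _, h8]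
  · have h8 := P.nb_le y (range (K + 1))
    have h9 : 0 ≤ 6 * ((1 - P.s) ^ 2)⁻¹ := by positivity
    have h10 : 0 ≤ ∑ k ∈ range K, P.nb k (dl y k) (rr y k) :=
      sum_nonneg fun k _ => by rw [P.nb_eq]; positivity
    refine le_of_sq ?_ (by positivity)
    rw [norm_fsv, sum_sigma, sum_range_succ, ← P.nb_eq, z1, z2, sum_congr rfl fun k hk =>
      show _ = P.nb k (dl y k) (rr y k) by
        rw [P.nb_eq]
        exact sum_congr rfl fun q _ => by rw [hz]; simp [(mem_range.1 hk).ne]]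
    rw [sum_range_succ] at h8
    nlinarith [mul_le_mul_of_nonneg_left h8 h9, sq_nonneg ‖y‖, mul_nonneg h9 h10,
      mul_nonneg (mul_nonneg h9 (add_nonneg zero_le_one h9)) (sq_nonneg ‖y‖)]

theorem tau_root (s : ℝ) {δ : ℕ → ℕ → 𝕂} (h0 : δ 0 0 = 1) (h : ∀ e m, δ (e + 1) m = 0) (e : ℕ) :
    ∀ m < 4 ^ e, tau s δ e m = 1 := by
  induction e with
  | zero => intro m hm; rw [show m = 0 by omega]; exact h0
  | succ e ih => intro m hm; rw [tau, h, ih _ (by rw [pow_succ] at hm; omega), mul_zero, add_zero]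

theorem sufficient (𝕂 : Type) [RCLike 𝕂] (P : Par ψ) (hψ : ∀ a ∈ Set.Ioc (0 : ℝ) 1, 1 ≤ ψ a) :
    ∃ (H : Type) (_ : NormedAddCommGroup H) (_ : InnerProductSpace 𝕂 H) (_ : CompleteSpace H)
      (x : ℕ → H) (xs : ℕ → H →ₗ[𝕂] 𝕂), IsBasis norm x xs ∧
      (∀ f, Tendsto (fun N => ∑ n ∈ range N, xs n f • x n) atTop (𝓝 f)) ∧
      ¬ IsTQG norm x xs ∧ HasThreshold norm x xs ψ := by
  classical
  obtain ⟨ε, h1, h2, h3⟩ := P.exists_enum
  have hv : ∀ n, (ε n).2 ∈ P.IX (ε n).1 := fun n => (h2 ▸ Set.mem_range_self n :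
    ε n ∈ {μ : Σ _ : ℕ, Pr | μ.2 ∈ P.IX μ.1})
  have hs : ∀ K i m, i ≤ K → m < 4 ^ P.d i → ∃ n, ε n = ⟨K, i, m⟩ := fun K i m hi hm =>
    (h2 ▸ P.mem_IX.2 ⟨hi, hm⟩ : (⟨K, i, m⟩ : Σ _ : ℕ, Pr) ∈ Set.range ε)
  have hi : ∀ m n, (⟨(ε m).1, .inr (ε m).2⟩ : Co) = ⟨(ε n).1, .inr (ε n).2⟩ ↔ m = n := fun m n =>
    ⟨fun h => h1 (by simpa [Sigma.ext_iff] using h), fun h => h ▸ rfl⟩
  have hE : 1 ≤ P.E := by
    unfold Par.E
    nlinarith [mul_nonneg (sq_nonneg P.C) (sq_nonneg P.B)]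
  refine quot P hψ (fun n => P.F (ε n)) (fun n => lp.single 2 ⟨(ε n).1, .inr (ε n).2⟩ 1)
    (orthonormal_iff_ite.2 fun m n => ?_) (fun m n => ?_) (M := 1 + (1 - P.s)⁻¹) (D := P.E)
    (fun n y => P.phi_le _ _ (fun _ _ => lp.norm_apply_le_norm (by simp) y _)
      (fun _ _ => lp.norm_apply_le_norm (by simp) y _) _ _) (by positivity) (by linarith)
    (P.cut' h1 h2 h3) (fun y η hη => ?_) (fun a ha y hy A hA => ?_) fun K => ?_
  · rw [lp.inner_single_left, lp.single_apply, Pi.single_apply]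
    simp only [hi]
    split_ifs <;> simp
  · show P.Phi _ _ = _
    rw [P.Phi_zero fun q => by simp [lp.single_apply], lp.single_apply,
      Pi.single_apply]
    simp only [hi]
  · obtain ⟨s, hs⟩ := (Metric.tendsto_nhds.1 (lp.hasSum_single (by simp) y) η hη).exists
    refine ⟨fsv s y, (((range (s.sup (fun j : Co => j.1) + 1)).sigma P.IX).preimage ε h1.injOn).sup id + 1,
      by rwa [← dist_eq_norm, dist_comm], fun n hn => ?_⟩
    have h4 : ∀ q, fsv s y ⟨(ε n).1, q⟩ = 0 := fun q => by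
      rw [fsv_apply, if_neg fun hq => ?_]
      have := le_sup (f := id) ((mem_preimage (hf := h1.injOn)).2 (mem_sigma.2
        ⟨mem_range.2 (Nat.lt_succ_of_le (le_sup (f := fun j : Co => j.1) hq)), hv n⟩))
      exact absurd hn (not_le.2 (Nat.lt_succ_of_le this))
    show P.Phi _ _ = _
    rw [P.Phi_zero fun q => h4 _, h4]
  · have h4 := hψ a ha
    calc ∑ n ∈ A, ‖P.F (ε n) y‖ ^ 2
        = ∑ μ ∈ A.image ε, if a ≤ ‖P.Phi y μ‖ then ‖P.Phi y μ‖ ^ 2 else 0 := by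
          rw [sum_image h1.injOn]
          exact sum_congr rfl fun n hn => (if_pos (hA n hn)).symm
      _ ≤ ∑ μ ∈ (A.image fun n => (ε n).1).sigma P.IX,
          if a ≤ ‖P.Phi y μ‖ then ‖P.Phi y μ‖ ^ 2 else 0 := by
          refine sum_le_sum_of_subset_of_nonneg (fun μ hμ => ?_) fun _ _ _ => by positivity
          obtain ⟨n, hn, rfl⟩ := mem_image.1 hμ
          exact mem_sigma.2 ⟨mem_image_of_mem _ hn, hv n⟩
      _ ≤ ∑ K ∈ A.image fun n => (ε n).1, P.E * ψ a ^ 2 * P.nb K (dl y K) (rr y K) := by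
          rw [sum_sigma]
          refine sum_le_sum fun K _ => ?_
          rw [Par.IX, sum_sigma]
          refine P.block ha h4 K (dl y K) (rr y K) fun i hi m hm => ?_
          obtain ⟨n, hn⟩ := hs K i m hi hm
          have := hy n
          rwa [hn] at this
      _ ≤ _ := by
          rw [← mul_sum, mul_pow, mul_pow]
          exact mul_le_mul (mul_le_mul_of_nonneg_right (by nlinarith) (sq_nonneg _)) (P.nb_le y _)
            (sum_nonneg fun k _ => by rw [P.nb_eq]; positivity) (by positivity)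
  · refine ⟨lp.single 2 ⟨K, .inl ⟨0, 0⟩⟩ 1,
      ((range (4 ^ P.d K)).image fun m => (⟨K, K, m⟩ : Σ _ : ℕ, Pr)).preimage ε h1.injOn,
      (({K} : Finset ℕ).sigma P.IX).preimage ε h1.injOn,
      fun n => if (ε n).1 = K then P.c (ε n).2.1 else 0, by simp, fun n hn => ?_, ?_, fun n => ?_,
      fun n hn => ?_, fun n hn => ?_, fun n hn => ?_⟩
    · obtain ⟨m, -, e⟩ := mem_image.1 (mem_preimage.1 hn)
      exact mem_preimage.2 (mem_sigma.2 ⟨by simp [← e], hv n⟩)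
    · rw [card_preimage, filter_true_of_mem, card_image_of_injective _ fun a b h => by simpa using h,
        card_range]
      intro μ hμ
      obtain ⟨m, hm, rfl⟩ := mem_image.1 hμ
      exact hs K K m le_rfl (mem_range.1 hm)
    · show P.Phi _ _ = _
      beta_reduce
      split_ifs with h
      · unfold Par.Phi Par.phi
        rw [tau_root _ (by simp [dl, h]) (fun e m => by simp [dl, lp.single_apply])
          _ _ (P.mem_IX.1 (hv n)).2]
        simp [rr, lp.single_apply]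
      · rw [P.Phi_zero fun q => by simp [lp.single_apply, h]]
        simp [lp.single_apply]
    · obtain ⟨m, -, e⟩ := mem_image.1 (mem_preimage.1 hn)
      simp [← e]
    · have h4 := mem_singleton.1 (mem_sigma.1 (mem_preimage.1 hn)).1
      simp only [if_pos h4]
      exact ⟨P.anti (h4 ▸ (P.mem_IX.1 (hv n)).1), P.c1 _⟩
    · exact if_neg fun h => hn (mem_preimage.2 (mem_sigma.2 ⟨mem_singleton.2 h, hv n⟩))

end Pool.Agent.MP_e7ec4f_an
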